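import Pool.Agent.H313R3.TK.J

/-!
# The Liouville function: smoothed averages

`L(e^{t-v})` against kernels `∑ g(v - log n)`.
-/

open Complex MeasureTheory Filter Topology Set Metric

set_option autoImplicit false

namespace Pool.Agent.Q55.Liou

open H313.TK

noncomputable section

/-- summatory function of the Liouville function -/
def LL (y : ℝ) : ℝ := ∑ n ∈ Finset.Icc 1 ⌊y⌋₊, (-1 : ℝ) ^ ArithmeticFunction.cardFactors n

/-- the same, exponential scale -/
def ll (u : ℝ) : ℝ := LL (Real.exp u)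

theorem LL_lt_one {y : ℝ} (h : y < 1) : LL y = 0 := by
  unfold LL
  rw [Nat.floor_eq_zero.2 h]
  simp

theorem abs_LL_le {y : ℝ} (h : 0 ≤ y) : |LL y| ≤ y := by
  unfold LL
  refine (Finset.abs_sum_le_sum_abs _ _).trans ?_
  have h1 : ∀ n ∈ Finset.Icc 1 ⌊y⌋₊, |(-1 : ℝ) ^ ArithmeticFunction.cardFactors n| ≤ 1 := by
    intro n _
    rw [abs_pow, abs_neg, abs_one, one_pow]
  refine (Finset.sum_le_sum h1).trans ?_
  rw [Finset.sum_const, Nat.card_Icc]
  simp
  exact Nat.floor_le h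

theorem LL_meas : Measurable LL := by
  have e : LL = (fun m : ℕ => ∑ k ∈ Finset.Icc 1 m, (-1 : ℝ) ^ ArithmeticFunction.cardFactors k) ∘ (fun y : ℝ => ⌊y⌋₊) := rfl
  rw [e]
  exact (measurable_of_countable _).comp Nat.measurable_floor

theorem ll_meas : Measurable ll := LL_meas.comp Real.measurable_exp

theorem abs_ll_le (u : ℝ) : |ll u| ≤ Real.exp u := abs_LL_le (Real.exp_pos u).le

/-! ### `L(x) = ∑ M(x/k²)` -/

/-- values at natural numbers -/
def Mn (n : ℕ) : ℝ := ∑ k ∈ Finset.Icc 1 n, ((ArithmeticFunction.moebius k : ℤ) : ℝ)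

/-- values at natural numbers -/
def Ln (n : ℕ) : ℝ := ∑ k ∈ Finset.Icc 1 n, (-1 : ℝ) ^ ArithmeticFunction.cardFactors k

lemma sq_unique {m b c a : ℕ} (hm : m ≠ 0) (hb : b ≠ 0) (hc : Squarefree c) (ha : Squarefree a)
    (h : m ^ 2 * c = b ^ 2 * a) : m = b := by
  have key : ∀ {m b c a : ℕ}, m ≠ 0 → b ≠ 0 → Squarefree c → Squarefree a → m ^ 2 * c = b ^ 2 * a → m ∣ b := by
    intro m b c a hm hb hc ha h
    rw [← Nat.factorization_le_iff_dvd hm hb]
    intro p
    by_cases hp : p.Prime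
    · have h1 : (m ^ 2 * c).factorization p = (b ^ 2 * a).factorization p := by rw [h]
      rw [Nat.factorization_mul (pow_ne_zero _ hm) hc.ne_zero, Nat.factorization_mul (pow_ne_zero _ hb) ha.ne_zero,
        Nat.factorization_pow, Nat.factorization_pow] at h1
      simp only [Finsupp.coe_add, Finsupp.coe_smul, Pi.add_apply, Pi.smul_apply, smul_eq_mul] at h1
      have h2 : a.factorization p ≤ 1 := ha.natFactorization_le_one p
      omega
    · rw [Nat.factorization_eq_zero_of_not_prime _ hp]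
      exact Nat.zero_le _
  exact Nat.dvd_antisymm (key hm hb hc ha h) (key hb hm ha hc h.symm)

theorem lam_eq (x n : ℕ) (hn : n ∈ Finset.Icc 1 x) :
    ((-1 : ℝ) ^ (ArithmeticFunction.cardFactors n)) =
      ∑ m ∈ Finset.Icc 1 x, if m ^ 2 ∣ n then ((ArithmeticFunction.moebius (n / m ^ 2) : ℤ) : ℝ) else 0 := by
  rw [Finset.mem_Icc] at hn
  obtain ⟨a, b, hab, ha⟩ := Nat.sq_mul_squarefree n
  have hb0 : b ≠ 0 := by
    rintro rfl
    simp at hab
    omega
  have hbn : b ≤ n := by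
    rw [← hab]
    have : 0 < a := Nat.pos_of_ne_zero ha.ne_zero
    nlinarith [Nat.pos_of_ne_zero hb0]
  have hdiv : n / b ^ 2 = a := by
    rw [← hab]
    exact Nat.mul_div_cancel_left a (by positivity)
  rw [Finset.sum_eq_single b]
  · rw [if_pos ⟨a, hab.symm⟩, hdiv, ArithmeticFunction.moebius_apply_of_squarefree ha, ← hab,
      ArithmeticFunction.cardFactors_mul (pow_ne_zero _ hb0) ha.ne_zero,
      ArithmeticFunction.cardFactors_pow, pow_add, pow_mul]
    norm_num
  · intro m hm hmb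
    rw [Finset.mem_Icc] at hm
    split_ifs with hd
    · obtain ⟨c, hc⟩ := hd
      have hm0 : m ≠ 0 := by omega
      have h1 : n / m ^ 2 = c := by
        rw [hc]
        exact Nat.mul_div_cancel_left c (by positivity)
      rw [h1]
      have h2 : ¬ Squarefree c := by
        intro hs
        exact hmb (sq_unique hm0 hb0 hs ha (by rw [← hc, hab]))
      rw [ArithmeticFunction.moebius_eq_zero_of_not_squarefree h2]
      simp
    · rfl
  · intro hb
    exact absurd (Finset.mem_Icc.2 ⟨Nat.pos_of_ne_zero hb0, hbn.trans hn.2⟩) hb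

/-- sums over the multiples of `q` -/
lemma sum_mult {q x : ℕ} (hq : 0 < q) (f : ℕ → ℝ) :
    ∑ n ∈ Finset.Icc 1 x, (if q ∣ n then f n else 0) = ∑ l ∈ Finset.Icc 1 (x / q), f (l * q) := by
  rw [← Finset.sum_filter]
  symm
  refine Finset.sum_nbij (fun l => l * q) ?_ ?_ ?_ ?_
  · intro l hl
    rw [Finset.mem_Icc] at hl
    rw [Finset.mem_filter, Finset.mem_Icc]
    exact ⟨⟨Nat.mul_pos hl.1 hq, (Nat.le_div_iff_mul_le hq).1 hl.2⟩, Dvd.intro_left l rfl⟩
  · intro l _ l' _ h
    exact Nat.eq_of_mul_eq_mul_right hq h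
  · intro n hn
    rw [Finset.coe_filter, Set.mem_ofPred_eq, Finset.mem_Icc] at hn
    obtain ⟨⟨h2, h3⟩, c, hc⟩ := hn
    refine ⟨c, ?_, by simp only [hc]; ring⟩
    rw [Finset.coe_Icc, Set.mem_Icc]
    refine ⟨?_, ?_⟩
    · rcases Nat.eq_zero_or_pos c with h | h
      · rw [h, mul_zero] at hc; omega
      · exact h
    · rw [Nat.le_div_iff_mul_le hq, mul_comm, ← hc]
      exact h3
  · intro l _
    rfl

theorem Ln_eq (x : ℕ) : Ln x = ∑ m ∈ Finset.Icc 1 x, Mn (x / m ^ 2) := by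
  unfold Ln
  rw [Finset.sum_congr rfl (fun n hn => lam_eq x n hn), Finset.sum_comm]
  refine Finset.sum_congr rfl fun m hm => ?_
  rw [Finset.mem_Icc] at hm
  have hm2 : 0 < m ^ 2 := by
    have : 0 < m := hm.1
    positivity
  rw [sum_mult hm2 (fun n => ((ArithmeticFunction.moebius (n / m ^ 2) : ℤ) : ℝ))]
  unfold Mn
  refine Finset.sum_congr rfl fun l _ => ?_
  rw [Nat.mul_div_cancel l hm2]

theorem LL_hasSum (w : ℝ) (hw : 0 ≤ w) : HasSum (fun k : ℕ => MM (w / ((k : ℝ) + 1) ^ 2)) (LL w) := by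
  set N := ⌊w⌋₊ with hN
  have hz : ∀ k ∉ Finset.range N, MM (w / ((k : ℝ) + 1) ^ 2) = 0 := by
    intro k hk
    rw [Finset.mem_range, not_lt] at hk
    apply MM_lt_one
    rw [div_lt_one (by positivity)]
    have h1 := Nat.lt_floor_add_one w
    have h2 : (⌊w⌋₊ : ℝ) ≤ k := by exact_mod_cast hk
    have h3 : (0 : ℝ) ≤ k := Nat.cast_nonneg k
    nlinarith
  have h2 : LL w = ∑ k ∈ Finset.range N, MM (w / ((k : ℝ) + 1) ^ 2) := by
    have e1 : LL w = Ln N := rfl
    have e2 : ∀ k : ℕ, MM (w / ((k : ℝ) + 1) ^ 2) = Mn (N / (k + 1) ^ 2) := by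
      intro k
      have e3 : ((k : ℝ) + 1) ^ 2 = (((k + 1) ^ 2 : ℕ) : ℝ) := by push_cast; ring
      unfold MM Mn
      rw [e3, Nat.floor_div_natCast]
    simp only [e2]
    rw [e1, Ln_eq, Finset.range_eq_Ico, Finset.sum_Ico_add' (fun m : ℕ => Mn (N / m ^ 2)) 0 N 1]
    rfl
  rw [h2]
  exact hasSum_sum_of_ne_finset_zero hz

/-- the shifted points -/
def tk (t : ℝ) (k : ℕ) : ℝ := t - 2 * Real.log ((k : ℝ) + 1)

lemma tk_le (t : ℝ) (k : ℕ) : tk t k ≤ t := by
  unfold tk
  have := log_n k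
  linarith

lemma exp_tk (t : ℝ) (k : ℕ) : Real.exp (tk t k) = Real.exp t / ((k : ℝ) + 1) ^ 2 := by
  unfold tk
  rw [Real.exp_sub]
  congr 1
  rw [show 2 * Real.log ((k : ℝ) + 1) = ((2 : ℕ) : ℝ) * Real.log ((k : ℝ) + 1) by norm_num,
    Real.exp_nat_mul, Real.exp_log (by positivity)]

lemma exp_tk2 (t : ℝ) (k : ℕ) : Real.exp (2 * tk t k) = Real.exp (2 * t) * (1 / ((k : ℝ) + 1) ^ 4) := by
  have h := exp_tk t k
  rw [show 2 * tk t k = tk t k + tk t k by ring, Real.exp_add, h, show 2 * t = t + t by ring, Real.exp_add]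
  field_simp

theorem ll_hasSum (u : ℝ) : HasSum (fun k : ℕ => mm (tk u k)) (ll u) := by
  have h := LL_hasSum (Real.exp u) (Real.exp_pos _).le
  refine h.congr_fun ?_ |> fun h => h
  intro k
  unfold mm
  rw [exp_tk]

theorem sum_4 : Summable (fun n : ℕ => 1 / ((n : ℝ) + 1) ^ 4) := by
  have := (Real.summable_one_div_nat_pow (p := 4)).2 (by norm_num)
  have h := (summable_nat_add_iff 1).2 this
  refine h.congr fun n => ?_
  push_cast
  rfl

theorem Sg_bd {g : ℝ → ℂ} (hg : QQ g) (T : ℝ) : ∃ C : ℝ, 0 ≤ C ∧ ∀ v ≤ T, ‖Sg g v‖ ≤ C * Real.exp (2 * v) := by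
  obtain ⟨C, hC, hb⟩ := hg.term T
  refine ⟨C * ∑' n : ℕ, 1 / ((n : ℝ) + 1) ^ 2, mul_nonneg hC (tsum_nonneg fun n => by positivity), fun v hv => ?_⟩
  have h1 : Summable (fun n : ℕ => C * Real.exp (2 * v) * (1 / ((n : ℝ) + 1) ^ 2)) := sum_sq.mul_left _
  have h2 := tsum_of_norm_bounded h1.hasSum (fun n => hb v hv n)
  unfold Sg
  refine h2.trans (le_of_eq ?_)
  rw [tsum_mul_left]
  ring

theorem Iic_bd {g : ℝ → ℂ} (hg : QQ g) (T : ℝ) : ∃ C : ℝ, 0 ≤ C ∧ ∀ u ≤ T, ‖∫ z in Iic u, g z‖ ≤ C * Real.exp (2 * u) := by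
  obtain ⟨C, hC, hb⟩ := hg.bd T
  refine ⟨C / 2, by positivity, fun u hu => ?_⟩
  have h1 : ‖∫ z in Iic u, g z‖ ≤ ∫ z in Iic u, C * Real.exp (2 * z) := by
    refine norm_integral_le_of_norm_le ((integrableOn_exp_mul_Iic two_pos u).const_mul C) ?_
    refine (ae_restrict_iff' measurableSet_Iic).2 (ae_of_all _ fun z hz => ?_)
    exact hb z (le_trans hz hu)
  rw [integral_const_mul, integral_exp_mul_Iic two_pos] at h1
  refine h1.trans (le_of_eq ?_)
  ring

/-- **The Liouville identity.** -/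
theorem liou {g : ℝ → ℂ} (hg : QQ g) (t : ℝ) :
    HasSum (fun k : ℕ => ∫ z in Iic (tk t k), g z) (∫ v : ℝ, (ll (t - v) : ℂ) * Sg g v) := by
  obtain ⟨C, hC, hb⟩ := Sg_bd hg t
  have hm := mm_meas
  have hSc := Sg_cont hg
  set F : ℕ → ℝ → ℂ := fun k v => (mm (tk t k - v) : ℂ) * Sg g v with hF
  have hFb : ∀ k : ℕ, ∀ v : ℝ, ‖F k v‖ ≤
      (Iic (tk t k)).indicator (fun v => C * Real.exp (tk t k) * Real.exp (1 * v)) v := by
    intro k v
    by_cases hv : v ≤ tk t k
    · rw [indicator_of_mem (show v ∈ Iic (tk t k) from hv)]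
      simp only [hF]
      rw [norm_mul, Complex.norm_real, Real.norm_eq_abs]
      calc |mm (tk t k - v)| * ‖Sg g v‖ ≤ Real.exp (tk t k - v) * (C * Real.exp (2 * v)) :=
            mul_le_mul (abs_mm_le _) (hb v (hv.trans (tk_le t k))) (norm_nonneg _) (Real.exp_pos _).le
        _ = C * (Real.exp (tk t k - v) * Real.exp (2 * v)) := by ring
        _ = C * (Real.exp (tk t k) * Real.exp (1 * v)) := by
            rw [← Real.exp_add, ← Real.exp_add]; congr 2; ring
        _ = _ := by ring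
    · have : F k v = 0 := by
        simp only [hF]
        rw [mm_neg (by linarith [not_le.1 hv])]
        simp
      rw [this, norm_zero, indicator_of_notMem (show v ∉ Iic (tk t k) from hv)]
  have hFm : ∀ k, AEStronglyMeasurable (F k) volume := fun k => by
    simp only [hF]
    exact (by fun_prop : Measurable fun v => (mm (tk t k - v) : ℂ) * Sg g v).aestronglyMeasurable
  have hdom : ∀ k : ℕ, Integrable ((Iic (tk t k)).indicator (fun v => C * Real.exp (tk t k) * Real.exp (1 * v))) := by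
    intro k
    rw [integrable_indicator_iff measurableSet_Iic]
    exact (integrableOn_exp_mul_Iic one_pos _).const_mul _
  have hFi : ∀ k, Integrable (F k) := fun k => (hdom k).mono' (hFm k) (ae_of_all _ (hFb k))
  have hFs : Summable (fun k => ∫ z, ‖F k z‖) := by
    refine Summable.of_nonneg_of_le (fun k => integral_nonneg fun z => norm_nonneg _) (fun k => ?_)
      (sum_4.mul_left (C * Real.exp (2 * t)))
    have h1 := integral_mono (hFi k).norm (hdom k) (hFb k)
    rw [integral_indicator measurableSet_Iic, integral_const_mul, integral_exp_mul_Iic one_pos] at h1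
    refine h1.trans (le_of_eq ?_)
    have h2 := exp_tk2 t k
    rw [mul_assoc C (Real.exp (2 * t)), ← h2, one_mul, div_one, mul_assoc, ← Real.exp_add]
    congr 2
    ring
  have key := hasSum_integral_of_summable_integral_norm hFi hFs
  have e1 : ∫ v, ∑' k, F k v = ∫ v : ℝ, (ll (t - v) : ℂ) * Sg g v := by
    refine integral_congr_ae (ae_of_all _ fun z => ?_)
    simp only [hF]
    rw [tsum_mul_right, ← Complex.ofReal_tsum, ← (ll_hasSum (t - z)).tsum_eq]
    congr 3
    congr 1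
    funext k
    congr 1
    unfold tk
    ring
  rw [e1] at key
  have e2 : ∀ k, ∫ v, F k v = ∫ z in Iic (tk t k), g z := fun k => moeb hg (tk t k)
  simpa only [e2] using key

end

end Pool.Agent.Q55.Liou
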