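import Pool.Agent.Q55.Liou.A
import Pool.Agent.H307R2.LU

/-!
# Sums over the points `t - 2 log k`
-/

open Complex MeasureTheory Filter Topology Set Metric

set_option autoImplicit false

namespace Pool.Agent.Q55.Liou

open H313.TK

noncomputable section

/-- the number of `k` with `tk t k ≥ 0` -/
def NN (t : ℝ) : ℕ := ⌊Real.exp (t / 2)⌋₊

lemma tk_nonneg {t : ℝ} {k : ℕ} (hk : k < NN t) : 0 ≤ tk t k := by
  have h1 : ((k : ℝ) + 1) ≤ Real.exp (t / 2) := by
    have h2 : k + 1 ≤ NN t := hk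
    have h3 : ((k + 1 : ℕ) : ℝ) ≤ (NN t : ℝ) := by exact_mod_cast h2
    have h4 : (NN t : ℝ) ≤ Real.exp (t / 2) := Nat.floor_le (Real.exp_pos _).le
    push_cast at h3
    linarith
  have h2 := (Real.log_le_iff_le_exp (by positivity : (0 : ℝ) < (k : ℝ) + 1)).2 h1
  unfold tk
  linarith

lemma tk_neg {t : ℝ} {k : ℕ} (hk : NN t ≤ k) : tk t k ≤ 0 := by
  have h1 : Real.exp (t / 2) < (k : ℝ) + 1 := by
    have h3 : Real.exp (t / 2) < (NN t : ℝ) + 1 := Nat.lt_floor_add_one _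
    have h4 : (NN t : ℝ) ≤ k := by exact_mod_cast hk
    linarith
  have h2 := (Real.lt_log_iff_exp_lt (by positivity : (0 : ℝ) < (k : ℝ) + 1)).2 h1
  unfold tk
  linarith

lemma NN_pos {t : ℝ} (ht : 0 ≤ t) : 1 ≤ NN t := by
  apply Nat.le_floor
  simpa using Real.one_le_exp (by linarith : 0 ≤ t / 2)

lemma sumA (n : ℕ) : ∑ k ∈ Finset.range n, 1 / Real.sqrt ((k : ℝ) + 1) ≤ 2 * Real.sqrt n := by
  induction n with
  | zero => simp
  | succ n ih =>
    rw [Finset.sum_range_succ]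
    have h1 : 0 < Real.sqrt ((n : ℝ) + 1) := Real.sqrt_pos.2 (by positivity)
    have h2 : Real.sqrt ((n : ℝ) + 1) ^ 2 = (n : ℝ) + 1 := Real.sq_sqrt (by positivity)
    have h3 : Real.sqrt (n : ℝ) ^ 2 = (n : ℝ) := Real.sq_sqrt (by positivity)
    have h4 : 0 ≤ Real.sqrt (n : ℝ) := Real.sqrt_nonneg _
    have h5 : 1 / Real.sqrt ((n : ℝ) + 1) ≤ 2 * (Real.sqrt ((n : ℝ) + 1) - Real.sqrt n) := by
      rw [div_le_iff₀ h1]
      nlinarith [sq_nonneg (Real.sqrt ((n : ℝ) + 1) - Real.sqrt n)]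
    push_cast
    linarith

lemma sumB {N : ℕ} (hN : 1 ≤ N) (n : ℕ) : ∑ k ∈ Finset.range n, 1 / ((N : ℝ) + k + 1) ^ 2 ≤ 1 / (N : ℝ) := by
  have hN0 : (0 : ℝ) < N := by exact_mod_cast hN
  have key : ∑ k ∈ Finset.range n, 1 / ((N : ℝ) + k + 1) ^ 2 ≤ 1 / (N : ℝ) - 1 / ((N : ℝ) + n) := by
    induction n with
    | zero => simp
    | succ n ih =>
      rw [Finset.sum_range_succ]
      have h1 : 1 / ((N : ℝ) + n + 1) ^ 2 ≤ 1 / ((N : ℝ) + n) - 1 / ((N : ℝ) + n + 1) := by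
        have hn : (0 : ℝ) ≤ n := Nat.cast_nonneg n
        rw [div_sub_div _ _ (by positivity) (by positivity), div_le_div_iff₀ (by positivity) (by positivity)]
        nlinarith
      push_cast
      rw [← add_assoc]
      linarith
  have : 0 ≤ 1 / ((N : ℝ) + n) := by positivity
  linarith

/-- bound for sums -/
lemma sum_bd {h : ℕ → ℝ} (h0 : ∀ k, 0 ≤ h k) {C t : ℝ} (hC : 0 ≤ C) (ht : 0 ≤ t)
    (h1 : ∀ k < NN t, h k ≤ C * Real.exp (tk t k / 4)) (h2 : ∀ k, NN t ≤ k → h k ≤ C * Real.exp (tk t k))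
    (n : ℕ) : ∑ k ∈ Finset.range n, h k ≤ 4 * C * Real.exp (t / 2) := by
  set N := NN t with hN
  have hN1 : 1 ≤ N := NN_pos ht
  have hN0 : (0 : ℝ) < N := by exact_mod_cast hN1
  set X := Real.exp (t / 2) with hX
  have hX0 : 0 < X := Real.exp_pos _
  have hNX : (N : ℝ) ≤ X := Nat.floor_le hX0.le
  have hXN : X ≤ 2 * N := by
    have : X < (N : ℝ) + 1 := Nat.lt_floor_add_one _
    have : (1 : ℝ) ≤ N := by exact_mod_cast hN1
    linarith
  have e0 : ∑ k ∈ Finset.range n, h k ≤ ∑ k ∈ Finset.range (N + n), h k :=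
    Finset.sum_le_sum_of_subset_of_nonneg (Finset.range_subset_range.2 (by omega)) fun k _ _ => h0 k
  rw [Finset.sum_range_add] at e0
  have e1 : ∑ k ∈ Finset.range N, h k ≤ 2 * C * X := by
    have hs : Real.exp (t / 4) = Real.sqrt X := by
      rw [hX, Real.sqrt_eq_rpow, ← Real.exp_mul]
      congr 1
      ring
    have e2 : ∀ k ∈ Finset.range N, h k ≤ C * Real.sqrt X * (1 / Real.sqrt ((k : ℝ) + 1)) := by
      intro k hk
      refine (h1 k (Finset.mem_range.1 hk)).trans (le_of_eq ?_)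
      have e3 : Real.exp (tk t k / 4) = Real.exp (t / 4) * (1 / Real.sqrt ((k : ℝ) + 1)) := by
        have hk1 : (0 : ℝ) < (k : ℝ) + 1 := by positivity
        rw [one_div, Real.sqrt_eq_rpow, ← Real.rpow_neg hk1.le, Real.rpow_def_of_pos hk1, ← Real.exp_add]
        congr 1
        unfold tk
        ring
      rw [e3, hs]
      ring
    refine (Finset.sum_le_sum e2).trans ?_
    rw [← Finset.mul_sum]
    have e3 := sumA N
    have e4 : Real.sqrt N ≤ Real.sqrt X := Real.sqrt_le_sqrt hNX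
    have e5 : Real.sqrt X * Real.sqrt X = X := Real.mul_self_sqrt hX0.le
    have e6 : 0 ≤ Real.sqrt X := Real.sqrt_nonneg _
    calc C * Real.sqrt X * ∑ k ∈ Finset.range N, 1 / Real.sqrt ((k : ℝ) + 1) ≤ C * Real.sqrt X * (2 * Real.sqrt X) :=
          mul_le_mul_of_nonneg_left (e3.trans (by linarith)) (by positivity)
      _ = 2 * C * (Real.sqrt X * Real.sqrt X) := by ring
      _ = 2 * C * X := by rw [e5]
  have e2 : ∑ k ∈ Finset.range n, h (N + k) ≤ 2 * C * X := by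
    have hXX : Real.exp t = X * X := by rw [hX, ← Real.exp_add]; congr 1; ring
    have e3 : ∀ k ∈ Finset.range n, h (N + k) ≤ C * (X * X) * (1 / ((N : ℝ) + k + 1) ^ 2) := by
      intro k _
      refine (h2 (N + k) (by omega)).trans (le_of_eq ?_)
      rw [exp_tk, hXX]
      push_cast
      ring
    refine (Finset.sum_le_sum e3).trans ?_
    rw [← Finset.mul_sum]
    have e4 := sumB hN1 n
    have e5 : X * (1 / (N : ℝ)) ≤ 2 := by
      rw [mul_one_div, div_le_iff₀ hN0]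
      exact hXN
    calc C * (X * X) * ∑ k ∈ Finset.range n, 1 / ((N : ℝ) + k + 1) ^ 2 ≤ C * (X * X) * (1 / N) :=
          mul_le_mul_of_nonneg_left e4 (by positivity)
      _ = C * X * (X * (1 / N)) := by ring
      _ ≤ C * X * 2 := mul_le_mul_of_nonneg_left e5 (by positivity)
      _ = _ := by ring
  linarith

/-- the main part of the sum -/
theorem S_asy {G : ℝ → ℂ} {A B ρ S : ℂ} {C t : ℝ} (hC : 0 ≤ C) (ht : 0 ≤ t)
    (h1 : ∀ u : ℝ, 0 ≤ u → ‖G u - (A * u + B) * cexp (ρ * u)‖ ≤ C * Real.exp (u / 4))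
    (h2 : ∀ u : ℝ, u ≤ 0 → ‖G u‖ ≤ C * Real.exp u)
    (hS : HasSum (fun k : ℕ => G (tk t k)) S) :
    ‖S - ∑ k ∈ Finset.range (NN t), (A * (tk t k : ℂ) + B) * cexp (ρ * (tk t k : ℂ))‖ ≤ 4 * C * Real.exp (t / 2) := by
  set main : ℕ → ℂ := fun k => (A * (tk t k : ℂ) + B) * cexp (ρ * (tk t k : ℂ)) with hmain
  set N := NN t with hN
  have hs1 : HasSum (fun k => if k < N then main k else 0) (∑ k ∈ Finset.range N, main k) := by
    have e1 : ∑ k ∈ Finset.range N, main k = ∑ k ∈ Finset.range N, (if k < N then main k else 0) :=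
      Finset.sum_congr rfl fun k hk => by rw [if_pos (Finset.mem_range.1 hk)]
    rw [e1]
    exact hasSum_sum_of_ne_finset_zero fun k hk => by
      rw [if_neg]
      simpa using hk
  have hs2 := hS.sub hs1
  have hlim := (hs2.tendsto_sum_nat).norm
  refine le_of_tendsto hlim (Eventually.of_forall fun n => ?_)
  refine (norm_sum_le _ _).trans ?_
  refine sum_bd (fun k => norm_nonneg _) hC ht (fun k hk => ?_) (fun k hk => ?_) n
  · rw [if_pos hk]
    exact h1 _ (tk_nonneg hk)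
  · rw [if_neg (not_lt.2 hk), sub_zero]
    exact h2 _ (tk_neg hk)

lemma cexp_tk (ρ : ℂ) (t : ℝ) (k : ℕ) : cexp (ρ * (tk t k : ℂ)) = cexp (ρ * t) * ((k : ℂ) + 1) ^ (-(2 * ρ)) := by
  have hk1 : ((k : ℂ) + 1) ≠ 0 := by
    have : ((k + 1 : ℕ) : ℂ) ≠ 0 := by exact_mod_cast Nat.succ_ne_zero k
    simpa using this
  rw [Complex.cpow_def_of_ne_zero hk1, ← Complex.exp_add]
  congr 1
  have h1 : Complex.log ((k : ℂ) + 1) = ((Real.log ((k : ℝ) + 1) : ℝ) : ℂ) := by
    rw [Complex.ofReal_log (by positivity)]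
    push_cast
    rfl
  rw [h1]
  unfold tk
  push_cast
  ring

/-- partial sums -/
def PP (s : ℂ) (N : ℕ) : ℂ := ∑ k ∈ Finset.range N, ((k : ℂ) + 1) ^ (-s)

lemma PP_tendsto {s : ℂ} (hs : 1 < s.re) : Tendsto (PP s) atTop (𝓝 (riemannZeta s)) := by
  have h1 : HasSum (fun k : ℕ => ((k : ℂ) + 1) ^ (-s)) (riemannZeta s) := by
    rw [zeta_eq_tsum_one_div_nat_add_one_cpow hs]
    have h2 := (summable_nat_add_iff 1).2 (Complex.summable_one_div_nat_cpow.2 hs)
    have h3 : Summable (fun n : ℕ => 1 / ((n : ℂ) + 1) ^ s) := by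
      refine h2.congr fun n => ?_
      push_cast
      rfl
    have h4 := h3.hasSum
    refine h4.congr_fun ?_ |> fun h => h
    intro n
    rw [Complex.cpow_neg, one_div]
  exact h1.tendsto_sum_nat

end

end Pool.Agent.Q55.Liou
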