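import Pool.Agent.Q55.Liou.B

/-!
# Core inequalities for the Liouville function
-/

open Complex MeasureTheory Filter Topology Set Metric

set_option autoImplicit false

namespace Pool.Agent.Q55.Liou

open H313.TK
open Pool.Agent.H307R2 (TM TM_norm_le Ez Ez_norm_le zeta_eq)

noncomputable section

/-! ### partial sums on the line `Re s = 1` -/

lemma PP_eq {s : ℂ} (hs : 0 < s.re) (hs1 : s ≠ 1) {N : ℕ} (hN : 1 ≤ N) :
    PP s N - riemannZeta s = -((N : ℂ) ^ (1 - s) / (s - 1)) - s * TM N Ez s := by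
  have h1 : PP s N = ∑ n ∈ Finset.Icc 1 N, (n : ℂ) ^ (-s) := by
    unfold PP
    have h2 := Finset.sum_Ico_add' (fun m : ℕ => (m : ℂ) ^ (-s)) 0 N 1
    rw [← Finset.range_eq_Ico] at h2
    push_cast at h2
    rw [h2]
    rfl
  rw [h1, zeta_eq hN hs hs1]
  ring

lemma TM_bd {s : ℂ} (hs : s.re = 1) {N : ℕ} (hN : 1 ≤ N) : ‖s * TM N Ez s‖ ≤ ‖s‖ / N := by
  rw [norm_mul]
  have h := TM_norm_le hN Ez_norm_le (s := s) (by rw [hs]; norm_num)
  rw [hs, div_one, one_mul, Real.rpow_neg_one] at h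
  rw [div_eq_mul_inv]
  exact mul_le_mul_of_nonneg_left h (norm_nonneg _)

lemma norm_npow {s : ℂ} (hs : s.re = 1) {N : ℕ} (hN : 1 ≤ N) : ‖(N : ℂ) ^ (1 - s)‖ = 1 := by
  have hN0 : (0 : ℝ) < N := by exact_mod_cast hN
  rw [show (N : ℂ) = ((N : ℝ) : ℂ) by push_cast; rfl, Complex.norm_cpow_eq_rpow_re_of_pos hN0]
  simp [hs]

lemma DD_bd {s : ℂ} (hs : s.re = 1) (hs1 : s ≠ 1) : ∃ C : ℝ, 0 ≤ C ∧ ∀ N : ℕ, ‖PP s N - riemannZeta s‖ ≤ C := by
  refine ⟨1 / ‖s - 1‖ + ‖s‖ + ‖riemannZeta s‖, by positivity, fun N => ?_⟩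
  rcases Nat.eq_zero_or_pos N with h | h
  · subst h
    have : PP s 0 = 0 := by simp [PP]
    rw [this, zero_sub, norm_neg]
    have : 0 ≤ 1 / ‖s - 1‖ := by positivity
    linarith [norm_nonneg s]
  · rw [PP_eq (by rw [hs]; norm_num) hs1 h]
    refine (norm_sub_le _ _).trans ?_
    rw [norm_neg, norm_div, norm_npow hs h]
    have h1 := TM_bd hs h
    have h2 : ‖s‖ / (N : ℝ) ≤ ‖s‖ := div_le_self (norm_nonneg _) (by exact_mod_cast h)
    linarith [norm_nonneg (riemannZeta s)]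

/-- summation by parts -/
lemma abel (w : ℕ → ℂ) (D : ℕ → ℂ) (N : ℕ) : ∑ k ∈ Finset.range N, w k * (D (k + 1) - D k) =
    w N * D N - w 0 * D 0 + ∑ k ∈ Finset.range N, (w k - w (k + 1)) * D (k + 1) := by
  induction N with
  | zero => simp
  | succ N ih =>
    rw [Finset.sum_range_succ, Finset.sum_range_succ, ih]
    ring

lemma log_step (k : ℕ) : |(Real.log ((k : ℝ) + 2) - Real.log ((k : ℝ) + 1)) - 1 / ((k : ℝ) + 1)| ≤
    1 / ((k : ℝ) + 1) ^ 2 := by
  have hk : (0 : ℝ) < (k : ℝ) + 1 := by positivity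
  have e1 : Real.log ((k : ℝ) + 2) - Real.log ((k : ℝ) + 1) = Real.log (1 + 1 / ((k : ℝ) + 1)) := by
    rw [← Real.log_div (by positivity) hk.ne']
    congr 1
    field_simp
    ring
  rw [e1]
  set x := 1 / ((k : ℝ) + 1) with hx
  have hx0 : 0 < x := by positivity
  have h1 : Real.log (1 + x) ≤ x := by
    have := Real.log_le_sub_one_of_pos (show 0 < 1 + x by linarith)
    linarith
  have h2 := Real.le_log_one_add_of_nonneg hx0.le
  have h3 : x - x ^ 2 ≤ 2 * x / (x + 2) := by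
    rw [le_div_iff₀ (by linarith)]
    nlinarith [mul_pos hx0 hx0, mul_pos (mul_pos hx0 hx0) hx0]
  have e2 : 1 / ((k : ℝ) + 1) ^ 2 = x ^ 2 := by
    rw [hx, div_pow, one_pow]
  rw [e2, abs_le]
  constructor
  · linarith
  · nlinarith [sq_nonneg x]

/-- the weighted sum on the line `Re s = 1` -/
theorem W_bd {s : ℂ} (hs : s.re = 1) (hs1 : s ≠ 1) : ∃ C : ℝ, 0 ≤ C ∧ ∀ t : ℝ, 0 ≤ t →
    ‖∑ k ∈ Finset.range (NN t), (tk t k : ℂ) * ((k : ℂ) + 1) ^ (-s) - t * riemannZeta s‖ ≤ C := by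
  obtain ⟨C1, hC1, hD⟩ := DD_bd hs hs1
  set K2 : ℝ := ∑' n : ℕ, 1 / ((n : ℝ) + 1) ^ 2 with hK2
  have hK20 : 0 ≤ K2 := tsum_nonneg fun n => by positivity
  have hs10 : 0 < ‖s - 1‖ := norm_pos_iff.2 (sub_ne_zero.2 hs1)
  refine ⟨2 * C1 + (2 / ‖s - 1‖ * (C1 + ‖riemannZeta s‖) + (2 * ‖s‖ + 2 * C1) * K2), by positivity, fun t ht => ?_⟩
  set N := NN t with hN
  set D : ℕ → ℂ := fun k => PP s k - riemannZeta s with hDdef
  have ha : ∀ k : ℕ, ((k : ℂ) + 1) ^ (-s) = D (k + 1) - D k := by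
    intro k
    simp only [hDdef, PP, Finset.sum_range_succ]
    ring
  simp only [ha]
  rw [abel (fun k => (tk t k : ℂ)) D N]
  have h0 : (tk t 0 : ℂ) * D 0 = -(t * riemannZeta s) := by
    simp [tk, hDdef, PP]
  rw [h0]
  have e1 : (tk t N : ℂ) * D N - -(↑t * riemannZeta s) +
      ∑ k ∈ Finset.range N, ((tk t k : ℂ) - (tk t (k + 1) : ℂ)) * D (k + 1) - ↑t * riemannZeta s =
      (tk t N : ℂ) * D N + ∑ k ∈ Finset.range N, ((tk t k : ℂ) - (tk t (k + 1) : ℂ)) * D (k + 1) := by ring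
  rw [e1]
  refine (norm_add_le _ _).trans (add_le_add ?_ ?_)
  · rw [norm_mul, Complex.norm_real, Real.norm_eq_abs]
    have h1 : |tk t N| ≤ 2 := by
      have h2 : tk t N ≤ 0 := tk_neg le_rfl
      rw [abs_of_nonpos h2]
      have h3 : (N : ℝ) ≤ Real.exp (t / 2) := Nat.floor_le (Real.exp_pos _).le
      have h4 : 1 ≤ Real.exp (t / 2) := Real.one_le_exp (by linarith)
      have h5 : Real.log ((N : ℝ) + 1) ≤ Real.log (2 * Real.exp (t / 2)) :=
        Real.log_le_log (by positivity) (by linarith)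
      rw [Real.log_mul (by norm_num) (Real.exp_pos _).ne', Real.log_exp] at h5
      have h6 := Real.log_two_lt_d9
      unfold tk
      linarith
    exact mul_le_mul h1 (hD N) (norm_nonneg _) (by norm_num)
  · have e2 : ∀ k ∈ Finset.range N, ((tk t k : ℂ) - (tk t (k + 1) : ℂ)) * D (k + 1) =
        -(2 / (s - 1)) * ((k : ℂ) + 1) ^ (-s) + (2 / ((k : ℂ) + 1) * (-(s * TM (k + 1) Ez s)) +
          ((2 * ((Real.log ((k : ℝ) + 2) - Real.log ((k : ℝ) + 1)) - 1 / ((k : ℝ) + 1)) : ℝ) : ℂ) * D (k + 1)) := by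
      intro k _
      have hk0 : ((k : ℂ) + 1) ≠ 0 := by
        have : ((k + 1 : ℕ) : ℂ) ≠ 0 := by exact_mod_cast Nat.succ_ne_zero k
        simpa using this
      have e3 : ((tk t k : ℂ) - (tk t (k + 1) : ℂ)) =
          2 / ((k : ℂ) + 1) + ((2 * ((Real.log ((k : ℝ) + 2) - Real.log ((k : ℝ) + 1)) - 1 / ((k : ℝ) + 1)) : ℝ) : ℂ) := by
        unfold tk
        rw [show (((k + 1 : ℕ) : ℝ) + 1) = (k : ℝ) + 2 by push_cast; ring]
        push_cast
        ring
      have e4 : D (k + 1) = -((((k : ℂ) + 1)) ^ (1 - s) / (s - 1)) - s * TM (k + 1) Ez s := by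
        have := PP_eq (s := s) (by rw [hs]; norm_num) hs1 (show 1 ≤ k + 1 by omega)
        simp only [hDdef]
        rw [this]
        push_cast
        rfl
      have e5 : ((k : ℂ) + 1) ^ (1 - s) = ((k : ℂ) + 1) * ((k : ℂ) + 1) ^ (-s) := by
        rw [sub_eq_add_neg, Complex.cpow_add _ _ hk0, Complex.cpow_one]
      have hs1' : s - 1 ≠ 0 := sub_ne_zero.2 hs1
      rw [e3, add_mul, ← add_assoc]
      congr 1
      rw [e4, e5]
      field_simp
      ring
    rw [Finset.sum_congr rfl e2, Finset.sum_add_distrib, ← Finset.mul_sum]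
    refine (norm_add_le _ _).trans (add_le_add ?_ ?_)
    · rw [norm_mul, norm_neg, norm_div]
      have h1 : ‖PP s N‖ ≤ C1 + ‖riemannZeta s‖ := by
        calc ‖PP s N‖ = ‖(PP s N - riemannZeta s) + riemannZeta s‖ := by congr 1; ring
          _ ≤ _ := (norm_add_le _ _).trans (add_le_add (hD N) le_rfl)
      have h2 : ‖(2 : ℂ)‖ = 2 := by simp
      rw [h2]
      exact mul_le_mul_of_nonneg_left h1 (by positivity)
    · refine (norm_sum_le _ _).trans ?_
      have h1 : ∀ k ∈ Finset.range N, ‖2 / ((k : ℂ) + 1) * (-(s * TM (k + 1) Ez s)) +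
          ((2 * ((Real.log ((k : ℝ) + 2) - Real.log ((k : ℝ) + 1)) - 1 / ((k : ℝ) + 1)) : ℝ) : ℂ) * D (k + 1)‖ ≤
          (2 * ‖s‖ + 2 * C1) * (1 / ((k : ℝ) + 1) ^ 2) := by
        intro k _
        refine (norm_add_le _ _).trans ?_
        rw [norm_mul, norm_mul, norm_neg, norm_div, Complex.norm_real, Real.norm_eq_abs, abs_mul]
        have h2 := TM_bd hs (show 1 ≤ k + 1 by omega)
        have h3 := log_step k
        have h4 := hD (k + 1)
        have h5 : ‖((k : ℂ) + 1)‖ = (k : ℝ) + 1 := by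
          rw [show ((k : ℂ) + 1) = (((k : ℝ) + 1 : ℝ) : ℂ) by push_cast; rfl, Complex.norm_real, Real.norm_eq_abs,
            abs_of_nonneg (by positivity)]
        have h6 : ‖(2 : ℂ)‖ = 2 := by simp
        have h7 : |(2 : ℝ)| = 2 := by norm_num
        rw [h5, h6, h7]
        push_cast at h2
        have hk : (0 : ℝ) < (k : ℝ) + 1 := by positivity
        have h8 : 2 / ((k : ℝ) + 1) * ‖s * TM (k + 1) Ez s‖ ≤ 2 / ((k : ℝ) + 1) * (‖s‖ / ((k : ℝ) + 1)) :=
          mul_le_mul_of_nonneg_left h2 (by positivity)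
        have h9 : 2 * |(Real.log ((k : ℝ) + 2) - Real.log ((k : ℝ) + 1)) - 1 / ((k : ℝ) + 1)| * ‖D (k + 1)‖ ≤
            2 * (1 / ((k : ℝ) + 1) ^ 2) * C1 :=
          mul_le_mul (mul_le_mul_of_nonneg_left h3 (by norm_num)) h4 (norm_nonneg _) (by positivity)
        refine (add_le_add h8 h9).trans (le_of_eq ?_)
        field_simp
      refine (Finset.sum_le_sum h1).trans ?_
      rw [← Finset.mul_sum]
      refine mul_le_mul_of_nonneg_left ?_ (by positivity)
      exact Summable.sum_le_tsum _ (fun k _ => by positivity) sum_sq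

end

end Pool.Agent.Q55.Liou
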