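import Pool.Agent.Q55.Liou.C

/-!
# Core inequalities for the Liouville function
-/

open Complex MeasureTheory Filter Topology Set Metric

set_option autoImplicit false

namespace Pool.Agent.Q55.Liou

open H313.TK

noncomputable section

/-- `ζ(1/2) ≠ 0` -/
theorem zeta_half : riemannZeta (1 / 2) ≠ 0 := by
  intro h
  have h1 := Kh_zero (1 / 2) h (by norm_num) (by norm_num)
  have h2 : Kh (1 / 2) = ((∫ v : ℝ, Real.exp (-(1 / 2 * v)) * kp v : ℝ) : ℂ) := by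
    unfold Kh
    rw [← integral_complex_ofReal]
    refine integral_congr_ae (ae_of_all _ fun v => ?_)
    push_cast
    congr 2
    ring
  rw [h2, Complex.ofReal_eq_zero] at h1
  obtain ⟨hi, -⟩ := mass_le (1 / 2) (by norm_num) (by norm_num)
  have hpos : ∀ v : ℝ, 0 < Real.exp (-(1 / 2 * v)) * kp v := fun v => by
    have := (kp_bounds v).1
    have := W_pos v
    have h3 : 0 < kp v := by linarith
    positivity
  have h4 : 0 < ∫ v : ℝ, Real.exp (-(1 / 2 * v)) * kp v := by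
    rw [integral_pos_iff_support_of_nonneg (fun v => (hpos v).le) hi]
    have : Function.support (fun v : ℝ => Real.exp (-(1 / 2 * v)) * kp v) = univ := by
      ext v
      simp only [Function.mem_support, mem_univ, iff_true]
      exact (hpos v).ne'
    rw [this]
    simp
  exact h4.ne' h1

/-- sharper second asymptotics -/
theorem q2_asy' (ρ : ℂ) (h0 : 0 < ρ.re) (h1 : ρ.re < 1) : ∃ D : ℂ, ∀ z : ℝ, 0 ≤ z →
    ‖cexp (-ρ * z) * Ist ρ (Ist ρ qc) z - (qh ρ * z + D)‖ ≤ 24 * Real.exp (-((ρ.re + 2) * z)) := by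
  have hb2 : 0 < ρ.re + 2 := by linarith
  have hQ := Ist_QQ qc_QQ ρ (by linarith)
  have hi : ∀ v : ℝ, IntegrableOn (fun z : ℝ => cexp (-ρ * z) * Ist ρ qc z) (Iic v) := hQ.int ρ (by linarith)
  have hcont := hQ.cont
  set ε : ℝ → ℂ := fun y => cexp (-ρ * y) * Ist ρ qc y - qh ρ with hε
  have hεc : Continuous ε := by fun_prop
  have hεi : ∀ a : ℝ, 0 ≤ a → IntegrableOn ε (Ioi a) := by
    intro a ha
    refine Integrable.mono' ((integrableOn_exp_mul_Ioi (neg_lt_zero.2 hb2) a).const_mul 24)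
      hεc.aestronglyMeasurable ?_
    refine (ae_restrict_iff' measurableSet_Ioi).2 (ae_of_all _ fun y hy => ?_)
    refine (q1_asy ρ h0 h1 y (ha.trans (le_of_lt hy))).trans (le_of_eq ?_)
    congr 2
    ring
  refine ⟨(∫ y in Iic (0:ℝ), cexp (-ρ * y) * Ist ρ qc y) + ∫ y in Ioi (0:ℝ), ε y, fun z hz => ?_⟩
  have e1 : cexp (-ρ * z) * Ist ρ (Ist ρ qc) z = ∫ y in Iic z, cexp (-ρ * y) * Ist ρ qc y := by
    rw [Ist, ← mul_assoc, ← Complex.exp_add, show -ρ * (z : ℂ) + ρ * z = 0 by ring, Complex.exp_zero, one_mul]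
  have e2 := intervalIntegral.integral_Iic_sub_Iic (hi 0) (hi z)
  have hi1 : IntervalIntegrable (fun y : ℝ => cexp (-ρ * y) * Ist ρ qc y) volume 0 z :=
    (by fun_prop : Continuous fun y : ℝ => cexp (-ρ * y) * Ist ρ qc y).intervalIntegrable _ _
  have e3 : ∫ y in (0:ℝ)..z, cexp (-ρ * y) * Ist ρ qc y = qh ρ * z + ∫ y in (0:ℝ)..z, ε y := by
    have : ∫ y in (0:ℝ)..z, ε y = (∫ y in (0:ℝ)..z, cexp (-ρ * y) * Ist ρ qc y) - ∫ y in (0:ℝ)..z, qh ρ := by
      rw [← intervalIntegral.integral_sub hi1 intervalIntegrable_const]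
    rw [this, intervalIntegral.integral_const, sub_zero, Complex.real_smul]
    ring
  have e4 : ∫ y in Ioi (0:ℝ), ε y = (∫ y in (0:ℝ)..z, ε y) + ∫ y in Ioi z, ε y :=
    (intervalIntegral.integral_interval_add_Ioi (hεi 0 le_rfl) (hεi z hz)).symm
  have e5 : cexp (-ρ * z) * Ist ρ (Ist ρ qc) z -
      (qh ρ * z + ((∫ y in Iic (0:ℝ), cexp (-ρ * y) * Ist ρ qc y) + ∫ y in Ioi (0:ℝ), ε y)) =
      -∫ y in Ioi z, ε y := by
    rw [e1, e4]
    have e6 : ∫ y in Iic z, cexp (-ρ * y) * Ist ρ qc y =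
        (∫ y in Iic (0:ℝ), cexp (-ρ * y) * Ist ρ qc y) + (qh ρ * z + ∫ y in (0:ℝ)..z, ε y) := by
      rw [← e3, ← e2]
      ring
    rw [e6]
    ring
  rw [e5, norm_neg]
  have e7 : ‖∫ y in Ioi z, ε y‖ ≤ ∫ y in Ioi z, 24 * Real.exp (-(ρ.re + 2) * y) := by
    refine norm_integral_le_of_norm_le ((integrableOn_exp_mul_Ioi (neg_lt_zero.2 hb2) z).const_mul 24) ?_
    refine (ae_restrict_iff' measurableSet_Ioi).2 (ae_of_all _ fun y hy => ?_)
    refine (q1_asy ρ h0 h1 y (hz.trans (le_of_lt hy))).trans (le_of_eq ?_)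
    congr 2
    ring
  rw [integral_const_mul, integral_exp_mul_Ioi (neg_lt_zero.2 hb2)] at e7
  refine e7.trans ?_
  have e8 : 24 * (-Real.exp (-(ρ.re + 2) * z) / (-(ρ.re + 2))) = 24 / (ρ.re + 2) * Real.exp (-((ρ.re + 2) * z)) := by
    rw [neg_div_neg_eq, neg_mul]
    ring
  rw [e8]
  refine mul_le_mul_of_nonneg_right ?_ (Real.exp_pos _).le
  rw [div_le_iff₀ hb2]
  linarith

lemma lin_le_exp {a t : ℝ} (ha : 0 ≤ a) (ht : 0 ≤ t) : a + 24 * t ≤ (a + 96) * Real.exp (t / 4) := by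
  have h1 := Real.add_one_le_exp (t / 4)
  have h2 : 1 ≤ Real.exp (t / 4) := Real.one_le_exp (by linarith)
  nlinarith

/-- sharper asymptotics of the second twisted average -/
theorem G2_asy' (ρ : ℂ) (h0 : 0 < ρ.re) (h1 : ρ.re < 1) : ∃ B : ℂ, ∃ C : ℝ, 0 ≤ C ∧ ∀ t : ℝ, 0 ≤ t →
    ‖(∫ z in Iic t, Ist ρ (Ist ρ qc) z) - (qh ρ / ρ * t + B) * cexp (ρ * t)‖ ≤ C * Real.exp (t / 4) := by
  have hρ : ρ ≠ 0 := by rintro rfl; simp at h0
  have hQ := Ist_QQ (Ist_QQ qc_QQ ρ (by linarith)) ρ (by linarith)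
  obtain ⟨D, hD⟩ := q2_asy' ρ h0 h1
  set a : ℂ := ∫ z in Iic (0:ℝ), Ist ρ (Ist ρ qc) z with ha
  refine ⟨-(qh ρ / ρ ^ 2) + D / ρ, ‖a + qh ρ / ρ ^ 2 - D / ρ‖ + 96, by positivity, fun t ht => ?_⟩
  refine le_trans ?_ (lin_le_exp (norm_nonneg _) ht)
  have e1 := intervalIntegral.integral_Iic_sub_Iic (hQ.int0 0) (hQ.int0 t)
  have hi1 : IntervalIntegrable (Ist ρ (Ist ρ qc)) volume 0 t := hQ.cont.intervalIntegrable _ _
  have hi2 : IntervalIntegrable (fun z : ℝ => qh ρ * ((z : ℂ) * cexp (ρ * z)) + D * cexp (ρ * z)) volume 0 t :=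
    (by fun_prop : Continuous fun z : ℝ => qh ρ * ((z : ℂ) * cexp (ρ * z)) + D * cexp (ρ * z)).intervalIntegrable _ _
  have e2 : ‖∫ z in (0:ℝ)..t, (Ist ρ (Ist ρ qc) z - (qh ρ * ((z : ℂ) * cexp (ρ * z)) + D * cexp (ρ * z)))‖ ≤
      24 * |t - 0| := by
    refine intervalIntegral.norm_integral_le_of_norm_le_const fun z hz => ?_
    rw [uIoc_of_le ht] at hz
    have h5 := hD z hz.1.le
    have h6 : Ist ρ (Ist ρ qc) z - (qh ρ * ((z : ℂ) * cexp (ρ * z)) + D * cexp (ρ * z)) =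
        cexp (ρ * z) * (cexp (-ρ * z) * Ist ρ (Ist ρ qc) z - (qh ρ * z + D)) := by
      rw [mul_sub, tw_cancel]
      ring
    rw [h6, norm_mul, norm_tw']
    calc Real.exp (ρ.re * z) * ‖cexp (-ρ * z) * Ist ρ (Ist ρ qc) z - (qh ρ * z + D)‖ ≤
          Real.exp (ρ.re * z) * (24 * Real.exp (-((ρ.re + 2) * z))) := mul_le_mul_of_nonneg_left h5 (Real.exp_pos _).le
      _ = 24 * (Real.exp (ρ.re * z) * Real.exp (-((ρ.re + 2) * z))) := by ring
      _ = 24 * Real.exp (-(2 * z)) := by rw [← Real.exp_add]; congr 2; ring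
      _ ≤ 24 * 1 := mul_le_mul_of_nonneg_left (Real.exp_le_one_iff.2 (by linarith [hz.1])) (by norm_num)
      _ = 24 := by norm_num
  have e3 : ∫ z in (0:ℝ)..t, (qh ρ * ((z : ℂ) * cexp (ρ * z)) + D * cexp (ρ * z)) =
      qh ρ * (t * cexp (ρ * t) / ρ - (cexp (ρ * t) - 1) / ρ ^ 2) + D * ((cexp (ρ * t) - 1) / ρ) := by
    rw [intervalIntegral.integral_add, intervalIntegral.integral_const_mul, intervalIntegral.integral_const_mul,
      int_z_exp_C ρ hρ, int_exp_C ρ hρ]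
    · exact (by fun_prop : Continuous fun z : ℝ => qh ρ * ((z : ℂ) * cexp (ρ * z))).intervalIntegrable _ _
    · exact (by fun_prop : Continuous fun z : ℝ => D * cexp (ρ * z)).intervalIntegrable _ _
  rw [sub_zero, abs_of_nonneg ht, intervalIntegral.integral_sub hi1 hi2, e3] at e2
  have e4 : (∫ z in Iic t, Ist ρ (Ist ρ qc) z) - (qh ρ / ρ * t + (-(qh ρ / ρ ^ 2) + D / ρ)) * cexp (ρ * t) =
      (a + qh ρ / ρ ^ 2 - D / ρ) +
      ((∫ z in (0:ℝ)..t, Ist ρ (Ist ρ qc) z) -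
        (qh ρ * (t * cexp (ρ * t) / ρ - (cexp (ρ * t) - 1) / ρ ^ 2) + D * ((cexp (ρ * t) - 1) / ρ))) := by
    rw [← e1, ha]
    ring
  rw [e4]
  exact (norm_add_le _ _).trans (add_le_add le_rfl e2)

/-- the average of the Liouville summatory function -/
theorem avg_ll : ∃ E : ℝ, 0 ≤ E ∧ ∀ t : ℝ, 0 ≤ t → |∫ v : ℝ, ll (t - v) * kp v| ≤ E * Real.exp (t / 2) := by
  obtain ⟨C1, hC1, hb1⟩ := Iic_bd qc_QQ 0
  set E0 : ℝ := 48 * ∫ x : ℝ, Real.exp (-(2 * |x|)) with hE0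
  have hE00 : 0 ≤ E0 := mul_nonneg (by norm_num) (integral_nonneg fun x => (Real.exp_pos _).le)
  have hG : ∀ u : ℝ, ‖∫ z in Iic u, qc z‖ ≤ E0 := by
    intro u
    rw [hE0, ← integral_const_mul]
    have hi : Integrable (fun x : ℝ => 48 * Real.exp (-(2 * |x|))) := (int_exp_abs 2 (by norm_num)).const_mul 48
    refine (norm_integral_le_of_norm_le (g := fun x : ℝ => 48 * Real.exp (-(2 * |x|))) hi.integrableOn
      (ae_of_all _ fun z => qq_bd z)).trans ?_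
    exact setIntegral_le_integral hi (ae_of_all _ fun x => by positivity)
  refine ⟨4 * (E0 + C1), by positivity, fun t ht => ?_⟩
  have h1 := liou qc_QQ t
  rw [← kc_eq] at h1
  have h2 : ∫ v : ℝ, (ll (t - v) : ℂ) * kc v = ((∫ v : ℝ, ll (t - v) * kp v : ℝ) : ℂ) := by
    rw [← integral_complex_ofReal]
    refine integral_congr_ae (ae_of_all _ fun v => ?_)
    simp [kc]
  rw [h2] at h1
  have h3 := S_asy (G := fun u => ∫ z in Iic u, qc z) (A := 0) (B := 0) (ρ := 0) (C := E0 + C1)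
    (by positivity) ht (fun u hu => ?_) (fun u hu => ?_) h1
  · simp only [zero_mul, add_zero, Finset.sum_const_zero, sub_zero, Complex.norm_real, Real.norm_eq_abs] at h3
    exact h3
  · simp only [zero_mul, add_zero, sub_zero]
    have h4 : 1 ≤ Real.exp (u / 4) := Real.one_le_exp (by linarith)
    have h5 := hG u
    nlinarith
  · refine (hb1 u hu).trans ?_
    have h4 : Real.exp (2 * u) ≤ Real.exp u := Real.exp_le_exp.2 (by linarith)
    have h5 := Real.exp_pos u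
    nlinarith

/-- from a twisted average to both parts -/
theorem parts_of {g : ℝ → ℂ} (hg : QQ g) (hD : DK (Sg g)) : ∃ c : ℝ, 0 < c ∧ ∃ C : ℝ, 0 ≤ C ∧ ∀ t : ℝ, 0 ≤ t →
    ∀ s : ℝ, s = 1 ∨ s = -1 → ∀ S : ℂ, HasSum (fun k : ℕ => ∫ z in Iic (tk t k), g z) S →
    c * ‖S‖ - C * Real.exp (t / 2) ≤ ∫ v : ℝ, max (s * ll (t - v)) 0 * kp v := by
  obtain ⟨B, hB, hb⟩ := hD.bd
  obtain ⟨E, hE, hE2⟩ := avg_ll
  refine ⟨1 / (4 * (B + 1)), by positivity, E / 2, by positivity, fun t ht s hs S hS => ?_⟩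
  have hm := ll_meas
  have i1 := avg_int ll ll_meas abs_ll_le t
  have i2 : Integrable (fun v => |ll (t - v)| * kp v) :=
    avg_int (fun u => |ll u|) (by fun_prop) (fun u => by rw [abs_abs]; exact abs_ll_le u) t
  have i3 : Integrable (fun v => max (s * ll (t - v)) 0 * kp v) :=
    avg_int (fun u => max (s * ll u) 0) (by fun_prop) (fun u => (part_le s hs _).trans (abs_ll_le u)) t
  have e1 : ∫ v, |ll (t - v)| * kp v = 2 * (∫ v, max (s * ll (t - v)) 0 * kp v) - s * ∫ v, ll (t - v) * kp v := by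
    rw [← integral_const_mul, ← integral_const_mul, ← integral_sub (i3.const_mul 2) (i1.const_mul s)]
    refine integral_congr_ae (ae_of_all _ fun v => ?_)
    simp only
    rw [part_id s hs (ll (t - v))]
    ring
  have e2 := hE2 t ht
  have e3 : |s * ∫ v, ll (t - v) * kp v| ≤ E * Real.exp (t / 2) := by
    rw [abs_mul]
    have : |s| = 1 := by rcases hs with h | h <;> rw [h] <;> simp
    rw [this, one_mul]
    exact e2
  have hSe : S = ∫ v : ℝ, (ll (t - v) : ℂ) * Sg g v := hS.unique (liou hg t)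
  have e4 : ‖S‖ ≤ (2 * (B + 1)) * ∫ v, |ll (t - v)| * kp v := by
    rw [hSe, ← integral_const_mul]
    refine norm_integral_le_of_norm_le (i2.const_mul _) (ae_of_all _ fun v => ?_)
    rw [norm_mul, Complex.norm_real, Real.norm_eq_abs]
    have h5 : ‖Sg g v‖ ≤ 2 * (B + 1) * kp v := by
      refine (hb v).trans ?_
      have h6 := (kp_bounds v).1
      have h7 := W_pos v
      nlinarith
    calc |ll (t - v)| * ‖Sg g v‖ ≤ |ll (t - v)| * (2 * (B + 1) * kp v) :=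
          mul_le_mul_of_nonneg_left h5 (abs_nonneg _)
      _ = _ := by ring
  have e5 := (abs_le.1 e3).1
  have hB1 : 0 < B + 1 := by linarith
  rw [e1] at e4
  have e6 : 1 / (4 * (B + 1)) * ‖S‖ ≤
      1 / (4 * (B + 1)) * (2 * (B + 1) * (2 * (∫ v, max (s * ll (t - v)) 0 * kp v) - s * ∫ v, ll (t - v) * kp v)) :=
    mul_le_mul_of_nonneg_left e4 (by positivity)
  have e7 : 1 / (4 * (B + 1)) * (2 * (B + 1) * (2 * (∫ v, max (s * ll (t - v)) 0 * kp v) - s * ∫ v, ll (t - v) * kp v))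
      = (∫ v, max (s * ll (t - v)) 0 * kp v) - (s * ∫ v, ll (t - v) * kp v) / 2 := by
    field_simp
    ring
  rw [e7] at e6
  linarith

/-- **Core inequality, zeros to the right of the critical line.** -/
theorem core1 (ρ : ℂ) (hz : riemannZeta ρ = 0) (h0 : 1 / 2 < ρ.re) (h1 : ρ.re < 1) :
    ∃ c : ℝ, 0 < c ∧ ∀ᶠ t : ℝ in atTop, ∀ s : ℝ, s = 1 ∨ s = -1 →
      c * ((fun _ : ℝ => (1:ℝ)) t * Real.exp (ρ.re * t)) ≤ ∫ v : ℝ, max (s * ll (t - v)) 0 * kp v := by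
  have hp : 0 < ρ.re := by linarith
  have hρ : ρ ≠ 0 := by rintro rfl; simp at hp
  have hQ := Ist_QQ qc_QQ ρ (by linarith)
  have hS : Sg (Ist ρ qc) = Ist ρ kc := by
    funext v
    rw [kc_eq]
    exact (Sg_Ist qc_QQ ρ (by linarith) v).symm
  have hre : |ρ.re| ≤ 2 := by rw [abs_of_pos hp]; linarith
  have hD : DK (Sg (Ist ρ qc)) := by
    rw [hS]
    exact Ist_DK kc_DK ρ hre (Kh_zero ρ hz hp h1)
  obtain ⟨c, hc, C, hC, hcore⟩ := parts_of hQ hD
  obtain ⟨C1, hC1, hasy⟩ := G1_asy ρ hp h1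
  obtain ⟨C2, hC2, hneg⟩ := Iic_bd hQ 0
  have h2 : 1 < (2 * ρ).re := by simp; linarith
  have hz2 : riemannZeta (2 * ρ) ≠ 0 := riemannZeta_ne_zero_of_one_lt_re h2
  set A : ℝ := ‖qh ρ / ρ‖ * ‖riemannZeta (2 * ρ)‖ with hA
  have hA0 : 0 < A := mul_pos (norm_pos_iff.2 (div_ne_zero (qh_ne ρ hp h1) hρ)) (norm_pos_iff.2 hz2)
  set C3 : ℝ := C1 + 96 + C2 with hC3
  have hC30 : 0 ≤ C3 := by positivity
  refine ⟨c * A / 4, by positivity, ?_⟩
  -- the partial sums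
  have hNN : Tendsto NN atTop atTop := by
    have : Tendsto (fun t : ℝ => Real.exp (t / 2)) atTop atTop :=
      Real.tendsto_exp_atTop.comp (tendsto_id.atTop_div_const (by norm_num))
    exact tendsto_nat_floor_atTop.comp this
  have hP := ((PP_tendsto h2).comp hNN).norm
  have hPe := hP.eventually (lt_mem_nhds (show ‖riemannZeta (2 * ρ)‖ / 2 < ‖riemannZeta (2 * ρ)‖ by
    have := norm_pos_iff.2 hz2
    linarith))
  have hgrow : ∀ᶠ t : ℝ in atTop, (c * 4 * C3 + C) * Real.exp (t / 2) ≤ c * A / 4 * Real.exp (ρ.re * t) := by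
    have hb : 0 < ρ.re - 1 / 2 := by linarith
    have h3 : Tendsto (fun t : ℝ => Real.exp ((ρ.re - 1 / 2) * t)) atTop atTop :=
      Real.tendsto_exp_atTop.comp (Tendsto.const_mul_atTop hb tendsto_id)
    filter_upwards [h3.eventually_ge_atTop ((c * 4 * C3 + C) / (c * A / 4))] with t ht
    rw [div_le_iff₀ (by positivity)] at ht
    have e : Real.exp (ρ.re * t) = Real.exp ((ρ.re - 1 / 2) * t) * Real.exp (t / 2) := by
      rw [← Real.exp_add]; congr 1; ring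
    rw [e]
    have := mul_le_mul_of_nonneg_right ht (Real.exp_pos (t / 2)).le
    linarith
  filter_upwards [hPe, hgrow, eventually_ge_atTop (0:ℝ)] with t ht1 ht2 ht0 s hs
  have hSum := liou hQ t
  set S : ℂ := ∫ v : ℝ, (ll (t - v) : ℂ) * Sg (Ist ρ qc) v with hSdef
  have k1 := hcore t ht0 s hs S hSum
  have k2 := S_asy (G := fun u => ∫ z in Iic u, Ist ρ qc z) (A := 0) (B := qh ρ / ρ) (ρ := ρ) (C := C3)
    hC30 ht0 (fun u hu => ?_) (fun u hu => ?_) hSum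
  · have e1 : ∑ k ∈ Finset.range (NN t), (0 * (tk t k : ℂ) + qh ρ / ρ) * cexp (ρ * (tk t k : ℂ)) =
        qh ρ / ρ * cexp (ρ * t) * PP (2 * ρ) (NN t) := by
      unfold PP
      rw [Finset.mul_sum]
      refine Finset.sum_congr rfl fun k _ => ?_
      rw [cexp_tk]
      ring
    rw [e1] at k2
    have e2 : ‖qh ρ / ρ * cexp (ρ * t) * PP (2 * ρ) (NN t)‖ =
        ‖qh ρ / ρ‖ * Real.exp (ρ.re * t) * ‖PP (2 * ρ) (NN t)‖ := by
      rw [norm_mul, norm_mul, norm_tw']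
    have e3 : A / 2 * Real.exp (ρ.re * t) ≤ ‖qh ρ / ρ * cexp (ρ * t) * PP (2 * ρ) (NN t)‖ := by
      rw [e2, hA]
      have h5 : ‖riemannZeta (2 * ρ)‖ / 2 ≤ ‖PP (2 * ρ) (NN t)‖ := ht1.le
      calc ‖qh ρ / ρ‖ * ‖riemannZeta (2 * ρ)‖ / 2 * Real.exp (ρ.re * t) =
            ‖qh ρ / ρ‖ * Real.exp (ρ.re * t) * (‖riemannZeta (2 * ρ)‖ / 2) := by ring
        _ ≤ _ := mul_le_mul_of_nonneg_left h5 (by positivity)
    have e4 : ‖qh ρ / ρ * cexp (ρ * t) * PP (2 * ρ) (NN t)‖ ≤ ‖S‖ +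
        ‖S - qh ρ / ρ * cexp (ρ * t) * PP (2 * ρ) (NN t)‖ := by
      rw [← norm_neg (S - _)]
      refine le_trans (le_of_eq ?_) (norm_add_le _ _)
      congr 1
      ring
    have e5 : A / 2 * Real.exp (ρ.re * t) - 4 * C3 * Real.exp (t / 2) ≤ ‖S‖ := by linarith
    have e6 := mul_le_mul_of_nonneg_left e5 hc.le
    have e7 : c * (A / 2 * Real.exp (ρ.re * t) - 4 * C3 * Real.exp (t / 2)) =
        c * A / 4 * Real.exp (ρ.re * t) + c * A / 4 * Real.exp (ρ.re * t) - c * 4 * C3 * Real.exp (t / 2) := by ring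
    rw [e7] at e6
    simp only [one_mul]
    nlinarith
  · rw [zero_mul, zero_add]
    have h5 := (hasy u hu).trans (lin_le_exp hC1 hu)
    refine h5.trans ?_
    exact mul_le_mul_of_nonneg_right (by linarith) (Real.exp_pos _).le
  · refine (hneg u hu).trans ?_
    have h4 : Real.exp (2 * u) ≤ Real.exp u := Real.exp_le_exp.2 (by linarith)
    have h5 := Real.exp_pos u
    calc C2 * Real.exp (2 * u) ≤ C2 * Real.exp u := mul_le_mul_of_nonneg_left h4 hC2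
      _ ≤ C3 * Real.exp u := mul_le_mul_of_nonneg_right (by linarith) h5.le

/-- **Core inequality, multiple zeros on the critical line.** -/
theorem core2 (ρ : ℂ) (hz : riemannZeta ρ = 0) (hz' : deriv riemannZeta ρ = 0) (h0 : ρ.re = 1 / 2) :
    ∃ c : ℝ, 0 < c ∧ ∀ᶠ t : ℝ in atTop, ∀ s : ℝ, s = 1 ∨ s = -1 →
      c * ((fun t : ℝ => t) t * Real.exp (ρ.re * t)) ≤ ∫ v : ℝ, max (s * ll (t - v)) 0 * kp v := by
  have hp : 0 < ρ.re := by linarith
  have h1 : ρ.re < 1 := by linarith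
  have hρ : ρ ≠ 0 := by rintro rfl; simp at hp
  have hQ := Ist_QQ qc_QQ ρ (by linarith)
  have hQ2 := Ist_QQ hQ ρ (by linarith)
  have hre : |ρ.re| ≤ 2 := by rw [abs_of_pos hp]; linarith
  have hre1 : |ρ.re| ≤ 1 := by rw [abs_of_pos hp]; linarith
  have hS : Sg (Ist ρ qc) = Ist ρ kc := by
    funext v
    rw [kc_eq]
    exact (Sg_Ist qc_QQ ρ (by linarith) v).symm
  have hS2 : Sg (Ist ρ (Ist ρ qc)) = Ist ρ (Ist ρ kc) := by
    funext v
    rw [← hS]
    exact (Sg_Ist hQ ρ (by linarith) v).symm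
  have hK0 := Kh_zero ρ hz hp h1
  have hD1 : DK (Ist ρ kc) := Ist_DK kc_DK ρ hre hK0
  have hm := Ist_moment kc_DK ρ hre1 hK0 (Kh_double ρ hz hz' hp h1)
  have hD : DK (Sg (Ist ρ (Ist ρ qc))) := by
    rw [hS2]
    exact Ist_DK hD1 ρ hre hm
  obtain ⟨c, hc, C, hC, hcore⟩ := parts_of hQ2 hD
  obtain ⟨B, C1, hC1, hasy⟩ := G2_asy' ρ hp h1
  obtain ⟨C2, hC2, hneg⟩ := Iic_bd hQ2 0
  have h2 : (2 * ρ).re = 1 := by simp; linarith
  have h2' : 2 * ρ ≠ 1 := by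
    intro h
    have : ρ = 1 / 2 := by linear_combination h / 2
    rw [this] at hz
    exact zeta_half hz
  have hz2 : riemannZeta (2 * ρ) ≠ 0 := riemannZeta_ne_zero_of_one_le_re h2.ge
  obtain ⟨C4, hC4, hW⟩ := W_bd h2 h2'
  obtain ⟨C5, hC5, hDD⟩ := DD_bd h2 h2'
  set A : ℝ := ‖qh ρ / ρ‖ * ‖riemannZeta (2 * ρ)‖ with hA
  have hA0 : 0 < A := mul_pos (norm_pos_iff.2 (div_ne_zero (qh_ne ρ hp h1) hρ)) (norm_pos_iff.2 hz2)
  set C3 : ℝ := C1 + C2 with hC3
  have hC30 : 0 ≤ C3 := by positivity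
  set C6 : ℝ := ‖qh ρ / ρ‖ * C4 + ‖B‖ * (C5 + ‖riemannZeta (2 * ρ)‖) with hC6
  have hC60 : 0 ≤ C6 := by positivity
  refine ⟨c * A / 2, by positivity, ?_⟩
  filter_upwards [eventually_ge_atTop ((c * (C6 + 4 * C3) + C) / (c * A / 2)), eventually_ge_atTop (0:ℝ)]
    with t ht1 ht0 s hs
  rw [div_le_iff₀ (by positivity)] at ht1
  have hSum := liou hQ2 t
  set S : ℂ := ∫ v : ℝ, (ll (t - v) : ℂ) * Sg (Ist ρ (Ist ρ qc)) v with hSdef
  have k1 := hcore t ht0 s hs S hSum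
  have k2 := S_asy (G := fun u => ∫ z in Iic u, Ist ρ (Ist ρ qc) z) (A := qh ρ / ρ) (B := B) (ρ := ρ) (C := C3)
    hC30 ht0 (fun u hu => ?_) (fun u hu => ?_) hSum
  · set T : ℂ := ∑ k ∈ Finset.range (NN t), (tk t k : ℂ) * ((k : ℂ) + 1) ^ (-(2 * ρ)) with hT
    have e1 : ∑ k ∈ Finset.range (NN t), (qh ρ / ρ * (tk t k : ℂ) + B) * cexp (ρ * (tk t k : ℂ)) =
        cexp (ρ * t) * (qh ρ / ρ * T + B * PP (2 * ρ) (NN t)) := by
      rw [hT]
      unfold PP
      rw [Finset.mul_sum, Finset.mul_sum, ← Finset.sum_add_distrib, Finset.mul_sum]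
      refine Finset.sum_congr rfl fun k _ => ?_
      rw [cexp_tk]
      ring
    rw [e1] at k2
    have hTb := hW t ht0
    rw [← hT] at hTb
    have hPb : ‖PP (2 * ρ) (NN t)‖ ≤ C5 + ‖riemannZeta (2 * ρ)‖ := by
      calc ‖PP (2 * ρ) (NN t)‖ = ‖(PP (2 * ρ) (NN t) - riemannZeta (2 * ρ)) + riemannZeta (2 * ρ)‖ := by congr 1; ring
        _ ≤ _ := (norm_add_le _ _).trans (add_le_add (hDD _) le_rfl)
    have e2 : A * t - C6 ≤ ‖qh ρ / ρ * T + B * PP (2 * ρ) (NN t)‖ := by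
      have f1 : ‖qh ρ / ρ * (t * riemannZeta (2 * ρ))‖ = A * t := by
        rw [norm_mul, norm_mul, Complex.norm_real, Real.norm_eq_abs, abs_of_nonneg ht0, hA]
        ring
      have f2 : qh ρ / ρ * (t * riemannZeta (2 * ρ)) = (qh ρ / ρ * T + B * PP (2 * ρ) (NN t)) +
          (-(qh ρ / ρ * (T - t * riemannZeta (2 * ρ))) + -(B * PP (2 * ρ) (NN t))) := by ring
      have f3 : ‖-(qh ρ / ρ * (T - t * riemannZeta (2 * ρ))) + -(B * PP (2 * ρ) (NN t))‖ ≤ C6 := by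
        refine (norm_add_le _ _).trans ?_
        rw [norm_neg, norm_neg, norm_mul, norm_mul]
        exact add_le_add (mul_le_mul_of_nonneg_left hTb (norm_nonneg _))
          (mul_le_mul_of_nonneg_left hPb (norm_nonneg _))
      have f4 : A * t ≤ ‖qh ρ / ρ * T + B * PP (2 * ρ) (NN t)‖ + C6 := by
        rw [← f1, f2]
        exact (norm_add_le _ _).trans (add_le_add le_rfl f3)
      linarith
    have hE : Real.exp (ρ.re * t) = Real.exp (t / 2) := by rw [h0]; congr 1; ring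
    have e3 : (A * t - C6) * Real.exp (t / 2) ≤ ‖cexp (ρ * t) * (qh ρ / ρ * T + B * PP (2 * ρ) (NN t))‖ := by
      rw [norm_mul, norm_tw', hE, mul_comm]
      exact mul_le_mul_of_nonneg_left e2 (Real.exp_pos _).le
    have e4 : ‖cexp (ρ * t) * (qh ρ / ρ * T + B * PP (2 * ρ) (NN t))‖ ≤ ‖S‖ +
        ‖S - cexp (ρ * t) * (qh ρ / ρ * T + B * PP (2 * ρ) (NN t))‖ := by
      rw [← norm_neg (S - _)]
      refine le_trans (le_of_eq ?_) (norm_add_le _ _)
      congr 1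
      ring
    have e5 : (A * t - C6) * Real.exp (t / 2) - 4 * C3 * Real.exp (t / 2) ≤ ‖S‖ := by linarith
    have e6 := mul_le_mul_of_nonneg_left e5 hc.le
    have e7 := mul_le_mul_of_nonneg_right ht1 (Real.exp_pos (t / 2)).le
    rw [hE]
    nlinarith
  · have h5 := hasy u hu
    refine h5.trans ?_
    exact mul_le_mul_of_nonneg_right (by linarith) (Real.exp_pos _).le
  · refine (hneg u hu).trans ?_
    have h4 : Real.exp (2 * u) ≤ Real.exp u := Real.exp_le_exp.2 (by linarith)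
    have h5 := Real.exp_pos u
    calc C2 * Real.exp (2 * u) ≤ C2 * Real.exp u := mul_le_mul_of_nonneg_left h4 hC2
      _ ≤ C3 * Real.exp u := mul_le_mul_of_nonneg_right (by linarith) h5.le

end

end Pool.Agent.Q55.Liou
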