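import Pool.Agent.Q55.Liou.D
import Pool.Agent.Q55.MertensL1

/-!
# Windows and means for the Liouville function
-/

open Complex MeasureTheory Filter Topology Set Metric

set_option autoImplicit false

namespace Pool.Agent.Q55.Liou

open H313.TK
open Pool.Agent.Q55.MertensL1 (ka ka_nonneg ka_le ka_cont ka_bd sep_sum ct_sep range_ok ct_nonneg)

noncomputable section

/-- restriction to the window -/
theorem win (β : ℝ) (hβ : 1 / 2 ≤ β) (Lf : ℝ → ℝ) (hL : ∀ᶠ t in atTop, 1 ≤ Lf t)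
    (hcore : ∃ c : ℝ, 0 < c ∧ ∀ᶠ t : ℝ in atTop, ∀ s : ℝ, s = 1 ∨ s = -1 →
      c * (Lf t * Real.exp (β * t)) ≤ ∫ v : ℝ, max (s * ll (t - v)) 0 * kp v) :
    ∃ c : ℝ, 0 < c ∧ ∀ᶠ l : ℝ in atTop, ∀ s : ℝ, s = 1 ∨ s = -1 →
      c * (Lf (ct l) * Real.exp (β * ct l)) ≤
        ∫ v in Icc (-(Real.log l / 2)) (Real.log l / 2), max (s * ll (ct l - v)) 0 * kp v := by
  obtain ⟨c, hc, hev⟩ := hcore
  refine ⟨c / 2, by positivity, ?_⟩
  have hC0 := C0_nonneg
  have hD1 := D1_nonneg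
  set B : ℝ := 8 * C0 * D1 with hB
  have hB0 : 0 ≤ B := by positivity
  -- the elementary asymptotic inequality
  have hlim : ∀ᶠ l : ℝ in atTop, B * (l * Real.exp (-(l / 4))) ≤ c / 2 := by
    have h1 : Tendsto (fun l : ℝ => l * Real.exp (-(l / 4))) atTop (𝓝 0) := by
      have h2 : Tendsto (fun l : ℝ => l / 4) atTop atTop := tendsto_id.atTop_div_const (by norm_num)
      have h3 := (Real.tendsto_pow_mul_exp_neg_atTop_nhds_zero 1).comp h2
      have h4 : Tendsto (fun l : ℝ => 4 * ((l / 4) ^ 1 * Real.exp (-(l / 4)))) atTop (𝓝 (4 * 0)) := h3.const_mul 4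
      rw [mul_zero] at h4
      refine h4.congr fun l => ?_
      ring
    have h5 : Tendsto (fun l : ℝ => B * (l * Real.exp (-(l / 4)))) atTop (𝓝 (B * 0)) := h1.const_mul B
    rw [mul_zero] at h5
    exact h5.eventually (ge_mem_nhds (by positivity))
  filter_upwards [ct_tendsto.eventually hev, ct_tendsto.eventually hL, hlim, eventually_ge_atTop (1:ℝ)]
    with l h1 h2 h3 h4 s hs
  set a : ℝ := Real.log l / 2 with ha
  have hl0 : 0 < l := by linarith
  have ha0 : 0 ≤ a := by rw [ha]; have := Real.log_nonneg h4; positivity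
  have hm := ll_meas
  have k1 := h1 s hs
  have k2 := tail (fun u => max (s * ll u) 0) (by fun_prop) (fun u => le_max_right _ _)
    (fun u => (le_abs_self _).trans ((part_le s hs _).trans (abs_ll_le u))) (ct l) a ha0
  have k3 : Real.exp (ct l + a) * W (-a) ≤ l * Real.exp (l / 4) := by
    have e1 : Real.exp (ct l + a) = l * Real.exp l := by
      have : ct l + a = Real.log l + l := by unfold ct; rw [ha]; ring
      rw [this, Real.exp_add, Real.exp_log hl0]
    have e2 : W (-a) ≤ Real.exp (-(3 / 4 * l)) := by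
      unfold W
      refine Real.exp_le_exp.2 ?_
      rw [max_eq_right (by linarith), abs_neg, abs_of_nonneg ha0]
      have e3 : 2 * a = Real.log l := by rw [ha]; ring
      rw [e3, Real.exp_log hl0]
      have := Real.pi_gt_three
      nlinarith
    rw [e1]
    calc l * Real.exp l * W (-a) ≤ l * Real.exp l * Real.exp (-(3 / 4 * l)) :=
          mul_le_mul_of_nonneg_left e2 (by positivity)
      _ = l * (Real.exp l * Real.exp (-(3 / 4 * l))) := by ring
      _ = _ := by rw [← Real.exp_add]; congr 2; ring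
  have k4 : B * (Real.exp (ct l + a) * W (-a)) ≤ c / 2 * Real.exp (β * ct l) := by
    have e1 : B * (Real.exp (ct l + a) * W (-a)) ≤ B * (l * Real.exp (l / 4)) := mul_le_mul_of_nonneg_left k3 hB0
    have e2 : B * (l * Real.exp (l / 4)) = (B * (l * Real.exp (-(l / 4)))) * Real.exp (l / 2) := by
      have : Real.exp (l / 4) = Real.exp (-(l / 4)) * Real.exp (l / 2) := by
        rw [← Real.exp_add]; congr 1; ring
      rw [this]
      ring
    have e3 : Real.exp (l / 2) ≤ Real.exp (β * ct l) := by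
      refine Real.exp_le_exp.2 ?_
      have : l ≤ ct l := by unfold ct; linarith
      nlinarith
    calc B * (Real.exp (ct l + a) * W (-a)) ≤ (B * (l * Real.exp (-(l / 4)))) * Real.exp (l / 2) := by rw [← e2]; exact e1
      _ ≤ c / 2 * Real.exp (l / 2) := mul_le_mul_of_nonneg_right h3 (Real.exp_pos _).le
      _ ≤ _ := mul_le_mul_of_nonneg_left e3 (by positivity)
  have k5 : Real.exp (β * ct l) ≤ Lf (ct l) * Real.exp (β * ct l) := le_mul_of_one_le_left (Real.exp_pos _).le h2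
  have k6 := mul_le_mul_of_nonneg_left k5 (by positivity : 0 ≤ c / 2)
  linarith

/-- sup version -/
theorem win_sup (β : ℝ) (hβ : 1 / 2 ≤ β) (hβ1 : β ≤ 1) (Lf : ℝ → ℝ) (hL : ∀ᶠ t in atTop, 1 ≤ Lf t)
    (hcore : ∃ c : ℝ, 0 < c ∧ ∀ᶠ t : ℝ in atTop, ∀ s : ℝ, s = 1 ∨ s = -1 →
      c * (Lf t * Real.exp (β * t)) ≤ ∫ v : ℝ, max (s * ll (t - v)) 0 * kp v) :
    ∃ c : ℝ, 0 < c ∧ ∀ᶠ l : ℝ in atTop, ∀ s : ℝ, s = 1 ∨ s = -1 →
      ∃ u ∈ Icc l (l + Real.log l), c * (Lf (ct l) * Real.exp (β * u)) ≤ s * ll u := by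
  obtain ⟨c, hc, hev⟩ := win β hβ Lf hL hcore
  have hC0 := C0_nonneg
  have hD1 := D1_nonneg
  obtain ⟨hmi, hmass⟩ := mass_le β (by linarith) (by linarith)
  refine ⟨c / (4 * C0 * D1 + 1), by positivity, ?_⟩
  filter_upwards [hev, ct_tendsto.eventually hL, eventually_ge_atTop (1:ℝ)] with l h1 h2 h3 s hs
  by_contra hcon
  push Not at hcon
  set a : ℝ := Real.log l / 2 with ha
  set δ : ℝ := c / (4 * C0 * D1 + 1) * Lf (ct l) with hδ
  have hδ0 : 0 < δ := by positivity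
  have ha0 : 0 ≤ a := by rw [ha]; have := Real.log_nonneg h3; positivity
  have k1 := h1 s hs
  have hm := ll_meas
  have hi := avg_int (fun u => max (s * ll u) 0) (by fun_prop) (fun u => (part_le s hs _).trans (abs_ll_le u)) (ct l)
  have k2 : ∫ v in Icc (-a) a, max (s * ll (ct l - v)) 0 * kp v ≤
      ∫ v in Icc (-a) a, δ * Real.exp (β * ct l) * (Real.exp (-(β * v)) * kp v) := by
    refine setIntegral_mono_on hi.integrableOn ((hmi.const_mul _).integrableOn) measurableSet_Icc fun v hv => ?_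
    have hu : ct l - v ∈ Icc l (l + Real.log l) := by
      unfold ct
      constructor <;> linarith [hv.1, hv.2]
    have h5 : max (s * ll (ct l - v)) 0 ≤ δ * Real.exp (β * (ct l - v)) := by
      refine max_le ?_ (by positivity)
      refine (hcon _ hu).le.trans (le_of_eq ?_)
      rw [hδ]
      ring
    calc max (s * ll (ct l - v)) 0 * kp v ≤ δ * Real.exp (β * (ct l - v)) * kp v :=
          mul_le_mul_of_nonneg_right h5 (kp_nonneg v)
      _ = δ * (Real.exp (β * ct l) * Real.exp (-(β * v))) * kp v := by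
          rw [← Real.exp_add]; congr 3; ring
      _ = _ := by ring
  have k3 : ∫ v in Icc (-a) a, δ * Real.exp (β * ct l) * (Real.exp (-(β * v)) * kp v) ≤
      δ * Real.exp (β * ct l) * (4 * C0 * D1) := by
    rw [integral_const_mul]
    refine mul_le_mul_of_nonneg_left ?_ (by positivity)
    refine (setIntegral_le_integral hmi (ae_of_all _ fun v => ?_)).trans hmass
    exact mul_nonneg (Real.exp_pos _).le (kp_nonneg v)
  have k4 := (k1.trans k2).trans k3
  have k5 : δ * Real.exp (β * ct l) * (4 * C0 * D1) = c * (Lf (ct l) * Real.exp (β * ct l)) * ((4 * C0 * D1) / (4 * C0 * D1 + 1)) := by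
    rw [hδ]
    field_simp
  rw [k5] at k4
  have k6 : (4 * C0 * D1) / (4 * C0 * D1 + 1) < 1 := by
    rw [div_lt_one (by positivity)]
    linarith
  have k7 : 0 < c * (Lf (ct l) * Real.exp (β * ct l)) := by positivity
  nlinarith

/-- the sup version in the original variable -/
theorem sup_log {β : ℝ} {Lf : ℝ → ℝ} (h : ∃ c : ℝ, 0 < c ∧ ∀ᶠ l : ℝ in atTop, ∀ s : ℝ, s = 1 ∨ s = -1 →
      ∃ u ∈ Icc l (l + Real.log l), c * (Lf (ct l) * Real.exp (β * u)) ≤ s * ll u) :
    ∃ c : ℝ, 0 < c ∧ ∀ᶠ x : ℝ in atTop, ∀ s : ℝ, s = 1 ∨ s = -1 →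
      ∃ y ∈ Icc x (x * Real.log x), c * (Lf (ct (Real.log x)) * y ^ β) ≤ s * LL y := by
  obtain ⟨c, hc, hev⟩ := h
  refine ⟨c, hc, ?_⟩
  filter_upwards [Real.tendsto_log_atTop.eventually hev, eventually_ge_atTop (Real.exp 1)] with x hx hx1 s hs
  have hx0 : 0 < x := (Real.exp_pos 1).trans_le hx1
  have hl1 : 1 ≤ Real.log x := by rwa [Real.le_log_iff_exp_le hx0]
  obtain ⟨u, hu, hu2⟩ := hx s hs
  refine ⟨Real.exp u, ⟨?_, ?_⟩, ?_⟩
  · rw [← Real.log_le_iff_le_exp hx0]; exact hu.1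
  · have h2 : Real.log (x * Real.log x) = Real.log x + Real.log (Real.log x) :=
      Real.log_mul hx0.ne' (by linarith)
    rw [← Real.le_log_iff_exp_le (by positivity), h2]
    exact hu.2
  · rw [← Real.exp_mul, mul_comm u β]
    exact hu2

/-- the positive part of `s M(e^u)` -/
noncomputable def F (s u : ℝ) : ℝ := max (s * ll u) 0

lemma F_nonneg (s u : ℝ) : 0 ≤ F s u := le_max_right _ _

lemma F_le {s : ℝ} (hs : s = 1 ∨ s = -1) (u : ℝ) : F s u ≤ Real.exp u :=
  (le_abs_self _).trans ((part_le s hs _).trans (abs_ll_le u))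

lemma F_meas (s : ℝ) : Measurable (F s) := by
  have := ll_meas
  unfold F
  fun_prop

/-- the weighted positive part -/
noncomputable def Fe (s u : ℝ) : ℝ := F s u * Real.exp (-(u / 2))

lemma Fe_nonneg (s u : ℝ) : 0 ≤ Fe s u := mul_nonneg (F_nonneg s u) (Real.exp_pos _).le

lemma Fe_meas (s : ℝ) : Measurable (Fe s) := by
  have := F_meas s
  unfold Fe
  fun_prop

lemma Fe_int {s : ℝ} (hs : s = 1 ∨ s = -1) (a b : ℝ) : IntegrableOn (Fe s) (Icc a b) := by
  refine Integrable.mono' (g := fun u => Real.exp (u / 2)) ?_ ?_ ?_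
  · exact (by fun_prop : Continuous fun u : ℝ => Real.exp (u / 2)).continuousOn.integrableOn_compact isCompact_Icc
  · exact (Fe_meas s).aestronglyMeasurable
  · refine ae_of_all _ fun u => ?_
    rw [Real.norm_eq_abs, abs_of_nonneg (Fe_nonneg s u)]
    calc Fe s u ≤ Real.exp u * Real.exp (-(u / 2)) := mul_le_mul_of_nonneg_right (F_le hs u) (Real.exp_pos _).le
      _ = Real.exp (u / 2) := by rw [← Real.exp_add]; congr 1; ring

lemma Feka_int {s : ℝ} (hs : s = 1 ∨ s = -1) (t a b : ℝ) :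
    IntegrableOn (fun u => Fe s u * ka (t - u)) (Icc a b) := by
  refine Integrable.mono' (g := fun u => 4 * C0 * Fe s u) ((Fe_int hs a b).const_mul _) ?_ ?_
  · have h1 := Fe_meas s
    have h2 := ka_cont
    exact (by fun_prop : Measurable fun u => Fe s u * ka (t - u)).aestronglyMeasurable
  · refine ae_of_all _ fun u => ?_
    rw [Real.norm_eq_abs, abs_of_nonneg (mul_nonneg (Fe_nonneg s u) (ka_nonneg _)), mul_comm]
    exact mul_le_mul_of_nonneg_right (ka_bd _) (Fe_nonneg s u)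

lemma window {s : ℝ} (t a : ℝ) :
    (∫ v in Icc (-a) a, max (s * ll (t - v)) 0 * kp v) * Real.exp (-(t / 2)) =
      ∫ u in Icc (t - a) (t + a), Fe s u * ka (t - u) := by
  rw [← refl_Icc (fun u => Fe s u * ka (t - u)) t a, ← integral_mul_const]
  refine integral_congr_ae (ae_of_all _ fun v => ?_)
  simp only
  unfold Fe F ka
  rw [sub_sub_cancel]
  have h1 : Real.exp (-(t / 2)) = Real.exp (-((t - v) / 2)) * Real.exp (-(v / 2)) := by
    rw [← Real.exp_add]
    congr 1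
    ring
  rw [h1]
  ring

theorem sum_windows {s : ℝ} (hs : s = 1 ∨ s = -1) {A B : ℕ} (hA : 1 ≤ A) :
    ∑ j ∈ Finset.Icc A B, (∫ v in Icc (-(Real.log j / 2)) (Real.log j / 2),
        max (s * ll (ct j - v)) 0 * kp v) * Real.exp (-(ct j / 2)) ≤
      16 * C0 * ∫ u in Icc (A : ℝ) (B + Real.log B), Fe s u := by
  have h1 : ∀ j ∈ Finset.Icc A B, (∫ v in Icc (-(Real.log j / 2)) (Real.log j / 2),
        max (s * ll (ct j - v)) 0 * kp v) * Real.exp (-(ct j / 2)) ≤
      ∫ u in Icc (A : ℝ) (B + Real.log B), Fe s u * ka (ct j - u) := by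
    intro j hj
    rw [Finset.mem_Icc] at hj
    rw [window]
    have hjA : (A : ℝ) ≤ j := by exact_mod_cast hj.1
    have hjB : (j : ℝ) ≤ B := by exact_mod_cast hj.2
    have hj0 : (0 : ℝ) < j := by
      have : 0 < j := by omega
      exact_mod_cast this
    have hl := Real.log_le_log hj0 hjB
    refine setIntegral_mono_set (Feka_int hs _ _ _) ?_ ?_
    · exact ae_of_all _ fun u => mul_nonneg (Fe_nonneg s u) (ka_nonneg _)
    · refine LE.le.eventuallyLE ?_
      intro u hu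
      unfold ct at hu
      constructor
      · linarith [hu.1]
      · linarith [hu.2]
  refine (Finset.sum_le_sum h1).trans ?_
  rw [← integral_finsetSum _ (fun j _ => Feka_int hs _ _ _), ← integral_const_mul]
  refine setIntegral_mono_on ?_ ((Fe_int hs _ _).const_mul _) measurableSet_Icc fun u hu => ?_
  · exact integrable_finsetSum _ fun j _ => Feka_int hs _ _ _
  · rw [← Finset.mul_sum, mul_comm]
    refine mul_le_mul_of_nonneg_right ?_ (Fe_nonneg s u)
    have hC0 := C0_nonneg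
    calc ∑ j ∈ Finset.Icc A B, ka (ct j - u) ≤ ∑ j ∈ Finset.Icc A B, 4 * C0 * Real.exp (-|ct j - u|) :=
          Finset.sum_le_sum fun j _ => ka_le _
      _ = 4 * C0 * ∑ j ∈ Finset.Icc A B, Real.exp (-|ct j - u|) := by rw [← Finset.mul_sum]
      _ ≤ 4 * C0 * 4 := by
          refine mul_le_mul_of_nonneg_left ?_ (by positivity)
          refine sep_sum _ (fun j => ct j) u ?_
          intro i hi j hj hij
          rw [Finset.mem_Icc] at hi
          exact ct_sep (by omega) hij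
      _ = 16 * C0 := by ring

/-- **Lower bound.** -/
theorem lower (β : ℝ) (hβ : 1 / 2 ≤ β) (Lf : ℝ → ℝ) (hL : ∀ᶠ t in atTop, 1 ≤ Lf t)
    (hcore : ∃ c : ℝ, 0 < c ∧ ∀ᶠ t : ℝ in atTop, ∀ s : ℝ, s = 1 ∨ s = -1 →
      c * (Lf t * Real.exp (β * t)) ≤ ∫ v : ℝ, max (s * ll (t - v)) 0 * kp v) :
    ∃ c : ℝ, 0 < c ∧ ∃ A₀ : ℕ, ∀ A B : ℕ, A₀ ≤ A → ∀ s : ℝ, s = 1 ∨ s = -1 →
      c * ∑ j ∈ Finset.Icc A B, Lf (ct j) * Real.exp ((β - 1 / 2) * ct j) ≤
        ∫ u in Icc (A : ℝ) (B + Real.log B), Fe s u := by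
  obtain ⟨c, hc, hev⟩ := win β hβ Lf hL hcore
  have hC0 := C0_nonneg
  have h1 := tendsto_natCast_atTop_atTop (R := ℝ) |>.eventually hev
  obtain ⟨A₀, hA₀⟩ := eventually_atTop.1 h1
  refine ⟨c / (16 * C0 + 1), by positivity, A₀ + 1, fun A B hA s hs => ?_⟩
  have h2 := sum_windows (B := B) hs (show 1 ≤ A by omega)
  have h3 : c * ∑ j ∈ Finset.Icc A B, Lf (ct j) * Real.exp ((β - 1 / 2) * ct j) ≤
      ∑ j ∈ Finset.Icc A B, (∫ v in Icc (-(Real.log j / 2)) (Real.log j / 2),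
        max (s * ll (ct j - v)) 0 * kp v) * Real.exp (-(ct j / 2)) := by
    rw [Finset.mul_sum]
    refine Finset.sum_le_sum fun j hj => ?_
    rw [Finset.mem_Icc] at hj
    have h4 := hA₀ j (by omega) s hs
    have h5 := mul_le_mul_of_nonneg_right h4 (Real.exp_pos (-(ct j / 2))).le
    refine le_trans (le_of_eq ?_) h5
    have h6 : Real.exp ((β - 1 / 2) * ct j) = Real.exp (β * ct j) * Real.exp (-(ct j / 2)) := by
      rw [← Real.exp_add]
      congr 1
      ring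
    rw [h6]
    ring
  have hI : 0 ≤ ∫ u in Icc (A : ℝ) (B + Real.log B), Fe s u := integral_nonneg fun u => Fe_nonneg s u
  rw [div_mul_eq_mul_div, div_le_iff₀ (by positivity)]
  nlinarith

theorem lower_win (β : ℝ) (hβ : 1 / 2 ≤ β) (Lf : ℝ → ℝ) (hL : ∀ᶠ t in atTop, 1 ≤ Lf t)
    (hcore : ∃ c : ℝ, 0 < c ∧ ∀ᶠ t : ℝ in atTop, ∀ s : ℝ, s = 1 ∨ s = -1 →
      c * (Lf t * Real.exp (β * t)) ≤ ∫ v : ℝ, max (s * ll (t - v)) 0 * kp v)
    {δ : ℝ} (hδ : 0 < δ) (hδ2 : δ ≤ 1 / 2) :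
    ∃ c : ℝ, 0 < c ∧ ∀ᶠ V : ℝ in atTop, ∀ s : ℝ, s = 1 ∨ s = -1 →
      c * ∑ j ∈ Finset.Icc ⌈(1 - δ) * V⌉₊ ⌊V - Real.log V⌋₊, Lf (ct j) * Real.exp ((β - 1 / 2) * ct j) ≤
        ∫ u in Icc ((1 - δ) * V) V, Fe s u := by
  obtain ⟨c, hc, A₀, h⟩ := lower β hβ Lf hL hcore
  refine ⟨c, hc, ?_⟩
  filter_upwards [range_ok hδ hδ2 A₀] with V hV s hs
  obtain ⟨h1, h2, h3, h4, h5, h6⟩ := hV
  refine (h _ _ h1 s hs).trans ?_
  refine setIntegral_mono_set (Fe_int hs _ _) ?_ ?_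
  · exact ae_of_all _ fun u => Fe_nonneg s u
  · refine LE.le.eventuallyLE ?_
    intro u hu
    exact ⟨(Nat.le_ceil _).trans hu.1, hu.2.trans h4⟩

/-- (b) in the logarithmic variable -/
theorem partB {δ : ℝ} (hδ : 0 < δ) (hδ2 : δ ≤ 1 / 2) (s : ℝ) (hs : s = 1 ∨ s = -1)
    (hfr : ∀ ε : ℝ, 0 < ε → ∃ᶠ V : ℝ in atTop, ∫ u in Icc ((1 - δ) * V) V, Fe s u ≤ ε * V ^ 2)
    (ρ : ℂ) (hz : riemannZeta ρ = 0) (h0 : 0 < ρ.re) (h1 : ρ.re < 1) :
    ρ.re = 1 / 2 ∧ deriv riemannZeta ρ ≠ 0 := by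
  have key : ∀ ρ : ℂ, riemannZeta ρ = 0 → ρ.re < 1 → ρ.re ≤ 1 / 2 := by
    intro ρ hz h1
    by_contra hcon
    push Not at hcon
    obtain ⟨c, hc, h⟩ := lower_win ρ.re hcon.le (fun _ => 1) (Eventually.of_forall fun _ => le_rfl)
      (core1 ρ hz hcon h1) hδ hδ2
    have hgrow : ∀ᶠ V : ℝ in atTop, 1 * V ^ 2 < c * Real.exp ((ρ.re - 1 / 2) / 2 * V) := by
      have hb : 0 < (ρ.re - 1 / 2) / 2 := by linarith
      have h3 : Tendsto (fun V : ℝ => Real.exp ((ρ.re - 1 / 2) / 2 * V) / V ^ (2 : ℝ)) atTop atTop := by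
        have := tendsto_exp_mul_div_rpow_atTop (2 : ℝ) ((ρ.re - 1 / 2) / 2) hb
        exact this
      have h4 := h3.eventually_gt_atTop (1 / c)
      filter_upwards [h4, eventually_gt_atTop (0 : ℝ)] with V hV hV0
      rw [show V ^ (2 : ℝ) = V ^ 2 from Real.rpow_natCast V 2, div_lt_div_iff₀ hc (by positivity)] at hV
      linarith
    obtain ⟨V, h5, h6, h7, h8⟩ := ((hfr 1 one_pos).and_eventually (h.and (hgrow.and (range_ok hδ hδ2 1)))).exists
    obtain ⟨g1, g2, g3, g4, g5, g6⟩ := h8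
    have h9 := h6 s hs
    have h10 : Real.exp ((ρ.re - 1 / 2) / 2 * V) ≤
        ∑ j ∈ Finset.Icc ⌈(1 - δ) * V⌉₊ ⌊V - Real.log V⌋₊, 1 * Real.exp ((ρ.re - 1 / 2) * ct j) := by
      refine le_trans ?_ (Finset.single_le_sum (f := fun j : ℕ => 1 * Real.exp ((ρ.re - 1 / 2) * ct j))
        (fun j _ => by positivity) g6)
      rw [one_mul]
      refine Real.exp_le_exp.2 ?_
      have h11 : 1 ≤ ⌊V - Real.log V⌋₊ := by
        rw [Finset.mem_Icc] at g6
        omega
      have h12 := ct_nonneg h11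
      have h13 : V / 2 ≤ ct (⌊V - Real.log V⌋₊ : ℕ) := g3.trans h12
      nlinarith
    have h14 := mul_le_mul_of_nonneg_left h10 hc.le
    linarith
  have hle := key ρ hz h1
  have hge : 1 / 2 ≤ ρ.re := by
    have h3 := key (1 - ρ) (refl_zero ρ hz h0 h1) (by simp; linarith)
    simp at h3
    linarith
  refine ⟨le_antisymm hle hge, fun hz' => ?_⟩
  obtain ⟨c, hc, h⟩ := lower_win ρ.re hge (fun t => t) (eventually_ge_atTop 1)
    (core2 ρ hz hz' (le_antisymm hle hge)) hδ hδ2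
  obtain ⟨V, h5, h6, h7, h9⟩ := ((hfr (c * δ / 8) (by positivity)).and_eventually
    (h.and ((range_ok hδ hδ2 1).and (eventually_gt_atTop (0 : ℝ))))).exists
  obtain ⟨g1, g2, g3, g4, g5, g6⟩ := h7
  have h10 := h6 s hs
  have h11 : δ / 2 * V * (V / 2) ≤
      ∑ j ∈ Finset.Icc ⌈(1 - δ) * V⌉₊ ⌊V - Real.log V⌋₊, ct j * Real.exp ((ρ.re - 1 / 2) * ct j) := by
    have h12 : ∀ j ∈ Finset.Icc ⌈(1 - δ) * V⌉₊ ⌊V - Real.log V⌋₊,
        V / 2 ≤ ct j * Real.exp ((ρ.re - 1 / 2) * ct j) := by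
      intro j hj
      rw [Finset.mem_Icc] at hj
      have h13 := ct_nonneg (show 1 ≤ j by omega)
      have h14 : (⌈(1 - δ) * V⌉₊ : ℝ) ≤ j := by exact_mod_cast hj.1
      have h15 : V / 2 ≤ ct j := by linarith
      have h16 : 1 ≤ Real.exp ((ρ.re - 1 / 2) * ct j) :=
        Real.one_le_exp (mul_nonneg (by linarith) (by linarith))
      nlinarith
    have h17 := Finset.sum_le_sum h12
    rw [Finset.sum_const, nsmul_eq_mul] at h17
    refine le_trans ?_ h17
    exact mul_le_mul_of_nonneg_right g5 (by linarith)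
  have h12 := mul_le_mul_of_nonneg_left h11 hc.le
  have h13 : 0 < c * δ * V ^ 2 := by positivity
  nlinarith

/-- the mean of the positive or negative part of `M(u)/√u` with respect to `du/u` on `[x^{1-δ}, x]` -/
noncomputable def oneMean (δ s x : ℝ) : ℝ :=
  ∫ u in (x ^ (1 - δ))..x, max (s * LL u) 0 / u ^ (3 / 2 : ℝ)

lemma subst (δ s x : ℝ) (hδ : 0 ≤ δ) (hx : 1 ≤ x) :
    oneMean δ s x = ∫ u in Icc ((1 - δ) * Real.log x) (Real.log x), Fe s u := by
  have hx0 : 0 < x := by linarith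
  have hl := Real.log_nonneg hx
  have himg : Real.exp '' Icc ((1 - δ) * Real.log x) (Real.log x) = Icc (x ^ (1 - δ)) x := by
    ext y
    constructor
    · rintro ⟨u, hu, rfl⟩
      refine ⟨?_, ?_⟩
      · rw [Real.rpow_def_of_pos hx0]
        exact Real.exp_le_exp.2 (by linarith [hu.1])
      · exact (Real.exp_le_exp.2 hu.2).trans (Real.exp_log hx0).le
    · intro hy
      have hy0 : 0 < y := (Real.rpow_pos_of_pos hx0 _).trans_le hy.1
      refine ⟨Real.log y, ⟨?_, ?_⟩, Real.exp_log hy0⟩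
      · have := Real.log_le_log (Real.rpow_pos_of_pos hx0 _) hy.1
        rwa [Real.log_rpow hx0] at this
      · exact Real.log_le_log hy0 hy.2
  have key := integral_image_eq_integral_abs_deriv_smul (s := Icc ((1 - δ) * Real.log x) (Real.log x))
    measurableSet_Icc (f := Real.exp) (f' := Real.exp)
    (fun x _ => (Real.hasDerivAt_exp x).hasDerivWithinAt)
    Real.exp_injective.injOn (fun y => max (s * LL y) 0 / y ^ (3 / 2 : ℝ))
  rw [himg] at key
  have hle : x ^ (1 - δ) ≤ x := by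
    conv_rhs => rw [← Real.rpow_one x]
    exact Real.rpow_le_rpow_of_exponent_le hx (by linarith)
  unfold oneMean
  rw [intervalIntegral.integral_of_le hle, ← integral_Icc_eq_integral_Ioc, key]
  refine setIntegral_congr_fun measurableSet_Icc fun u _ => ?_
  simp only [smul_eq_mul, abs_of_pos (Real.exp_pos u)]
  unfold Fe F
  have e1 : ll u = LL (Real.exp u) := rfl
  rw [e1, ← Real.exp_mul, div_eq_mul_inv, ← Real.exp_neg]
  have e2 : Real.exp (-(u / 2)) = Real.exp u * Real.exp (-(u * (3 / 2))) := by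
    rw [← Real.exp_add]
    congr 1
    ring
  rw [e2]
  ring

lemma oneMean_mono {δ δ' s x : ℝ} (hs : s = 1 ∨ s = -1) (hδ : 0 ≤ δ) (hδδ' : δ ≤ δ') (hx : 1 ≤ x) :
    oneMean δ s x ≤ oneMean δ' s x := by
  rw [subst δ s x hδ hx, subst δ' s x (hδ.trans hδδ') hx]
  refine setIntegral_mono_set (Fe_int hs _ _) (ae_of_all _ fun u => Fe_nonneg s u) ?_
  refine LE.le.eventuallyLE ?_
  intro u hu
  have := Real.log_nonneg hx
  exact ⟨le_trans (by nlinarith) hu.1, hu.2⟩

theorem finalB {δ : ℝ} (hδ : 0 < δ) (s : ℝ) (hs : s = 1 ∨ s = -1)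
    (hfr : ∀ ε : ℝ, 0 < ε → ∃ᶠ x : ℝ in atTop, oneMean δ s x ≤ ε * Real.log x ^ 2)
    (ρ : ℂ) (hz : riemannZeta ρ = 0) (h0 : 0 < ρ.re) (h1 : ρ.re < 1) :
    ρ.re = 1 / 2 ∧ deriv riemannZeta ρ ≠ 0 := by
  have h2 : 0 < min δ (1 / 2) := lt_min hδ (by norm_num)
  refine partB h2 (min_le_right _ _) s hs (fun ε hε => ?_) ρ hz h0 h1
  have h3 := (hfr ε hε).and_eventually (eventually_ge_atTop (1 : ℝ))
  refine Real.tendsto_log_atTop.frequently (h3.mono fun x hx => ?_)
  rw [← subst _ s x h2.le hx.2]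
  exact (oneMean_mono hs h2.le (min_le_left _ _) hx.2).trans hx.1

end

end Pool.Agent.Q55.Liou
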