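import Pool.Agent.Q55.Liou.D

/-!
# Riemann sums
-/

open Complex MeasureTheory Filter Topology Set Metric

set_option autoImplicit false

namespace Pool.Agent.Q55.Liou

open H313.TK

noncomputable section

/-- the majorant -/
def mj (y : ℝ) : ℝ := min (y ^ (-(1 / 2) : ℝ)) (y ^ (-2 : ℝ))

lemma mj_anti {y z : ℝ} (hy : 0 < y) (hyz : y ≤ z) : mj z ≤ mj y := by
  unfold mj
  refine min_le_min ?_ ?_
  · exact Real.rpow_le_rpow_of_nonpos hy hyz (by norm_num)
  · exact Real.rpow_le_rpow_of_nonpos hy hyz (by norm_num)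

lemma mj_nonneg {y : ℝ} (hy : 0 ≤ y) : 0 ≤ mj y := le_min (Real.rpow_nonneg hy _) (Real.rpow_nonneg hy _)

lemma mj_meas : Measurable mj := by
  unfold mj
  fun_prop

lemma mj_int : IntegrableOn mj (Ioi 0) := by
  have h1 : IntegrableOn mj (Ioc 0 1) := by
    have h2 : IntegrableOn (fun y : ℝ => y ^ (-(1 / 2) : ℝ)) (Ioc 0 1) :=
      (intervalIntegrable_iff_integrableOn_Ioc_of_le zero_le_one).1
        (intervalIntegral.intervalIntegrable_rpow' (by norm_num))
    refine Integrable.mono' h2 mj_meas.aestronglyMeasurable ?_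
    refine (ae_restrict_iff' measurableSet_Ioc).2 (ae_of_all _ fun y hy => ?_)
    rw [Real.norm_eq_abs, abs_of_nonneg (mj_nonneg hy.1.le)]
    exact min_le_left _ _
  have h3 : IntegrableOn mj (Ioi 1) := by
    refine Integrable.mono' (integrableOn_Ioi_rpow_of_lt (show (-2 : ℝ) < -1 by norm_num) one_pos)
      mj_meas.aestronglyMeasurable ?_
    refine (ae_restrict_iff' measurableSet_Ioi).2 (ae_of_all _ fun y hy => ?_)
    have hy0 : (0 : ℝ) ≤ y := zero_le_one.trans (le_of_lt hy)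
    rw [Real.norm_eq_abs, abs_of_nonneg (mj_nonneg hy0)]
    exact min_le_right _ _
  have h4 : Ioi (0 : ℝ) = Ioc 0 1 ∪ Ioi 1 := (Ioc_union_Ioi_eq_Ioi zero_le_one).symm
  rw [h4]
  exact h1.union h3

lemma phi_bd {h : ℝ → ℂ} {C : ℝ} (hC : 0 ≤ C) (h1 : ∀ u : ℝ, 0 ≤ u → ‖h u‖ ≤ C * Real.exp (u / 4))
    (h2 : ∀ u : ℝ, u ≤ 0 → ‖h u‖ ≤ C * Real.exp u) {y : ℝ} (hy : 0 < y) :
    ‖h (-(2 * Real.log y))‖ ≤ C * mj y := by
  rcases le_total y 1 with hy1 | hy1
  · have hl : Real.log y ≤ 0 := Real.log_nonpos hy.le hy1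
    refine (h1 _ (by linarith)).trans (mul_le_mul_of_nonneg_left ?_ hC)
    have e1 : Real.exp (-(2 * Real.log y) / 4) = y ^ (-(1 / 2) : ℝ) := by
      rw [Real.rpow_def_of_pos hy]; congr 1; ring
    rw [e1]
    refine le_min le_rfl ?_
    exact Real.rpow_le_rpow_of_exponent_ge hy hy1 (by norm_num)
  · have hl : 0 ≤ Real.log y := Real.log_nonneg hy1
    refine (h2 _ (by linarith)).trans (mul_le_mul_of_nonneg_left ?_ hC)
    have e1 : Real.exp (-(2 * Real.log y)) = y ^ (-2 : ℝ) := by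
      rw [Real.rpow_def_of_pos hy]; congr 1; ring
    rw [e1]
    refine le_min ?_ le_rfl
    exact Real.rpow_le_rpow_of_exponent_le hy1 (by norm_num)

/-- sums as integrals of step functions -/
lemma sum_step {h : ℝ → ℂ} (hm : Measurable h) {C : ℝ} (hC : 0 ≤ C)
    (h1 : ∀ u : ℝ, 0 ≤ u → ‖h u‖ ≤ C * Real.exp (u / 4))
    (h2 : ∀ u : ℝ, u ≤ 0 → ‖h u‖ ≤ C * Real.exp u) {X : ℝ} (hX : 0 < X) :
    HasSum (fun k : ℕ => ((1 / X : ℝ) : ℂ) * h (-(2 * Real.log (((k : ℝ) + 1) / X))))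
      (∫ y in Ioi (0 : ℝ), h (-(2 * Real.log ((⌈y * X⌉₊ : ℝ) / X)))) := by
  set F : ℝ → ℂ := fun y => h (-(2 * Real.log ((⌈y * X⌉₊ : ℝ) / X))) with hF
  set s : ℕ → Set ℝ := fun k => Ioc ((k : ℝ) / X) (((k : ℝ) + 1) / X) with hs
  have hceil : ∀ k : ℕ, ∀ y ∈ s k, ⌈y * X⌉₊ = k + 1 := by
    intro k y hy
    rw [Nat.ceil_eq_iff (by omega)]
    have hy1 := (div_lt_iff₀ hX).1 hy.1
    have hy2 := (le_div_iff₀ hX).1 hy.2
    refine ⟨?_, ?_⟩
    · simpa using hy1
    · push_cast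
      exact hy2
  have hun : ⋃ k, s k = Ioi 0 := by
    ext y
    simp only [mem_iUnion, mem_Ioi]
    constructor
    · rintro ⟨k, hk⟩
      exact lt_of_le_of_lt (by positivity) hk.1
    · intro hy
      have h3 : 0 < y * X := mul_pos hy hX
      have h4 : 1 ≤ ⌈y * X⌉₊ := Nat.one_le_ceil_iff.2 h3
      refine ⟨⌈y * X⌉₊ - 1, ?_, ?_⟩
      · rw [div_lt_iff₀ hX]
        have := Nat.ceil_lt_add_one h3.le
        rw [Nat.cast_sub h4, Nat.cast_one]
        linarith
      · rw [le_div_iff₀ hX, Nat.cast_sub h4, Nat.cast_one, sub_add_cancel]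
        exact Nat.le_ceil _
  have hdisj : Pairwise (Function.onFun Disjoint s) := by
    intro i j hij
    rw [Function.onFun, Set.disjoint_left]
    intro y hy hy'
    have e1 := hceil i y hy
    have e2 := hceil j y hy'
    omega
  have hFm : Measurable F := by
    have h3 : Measurable (fun y : ℝ => (⌈y * X⌉₊ : ℝ)) :=
      (measurable_of_countable (fun n : ℕ => (n : ℝ))).comp (Nat.measurable_ceil.comp (by fun_prop))
    exact hm.comp (by fun_prop)
  have hFi : IntegrableOn F (Ioi 0) := by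
    refine Integrable.mono' (mj_int.const_mul C) hFm.aestronglyMeasurable ?_
    refine (ae_restrict_iff' measurableSet_Ioi).2 (ae_of_all _ fun y hy => ?_)
    have h3 : y ≤ (⌈y * X⌉₊ : ℝ) / X := by
      rw [le_div_iff₀ hX]
      exact Nat.le_ceil _
    exact (phi_bd hC h1 h2 (lt_of_lt_of_le hy h3)).trans (mul_le_mul_of_nonneg_left (mj_anti hy h3) hC)
  have key := hasSum_integral_iUnion (f := F) (μ := volume) (s := s) (fun k => measurableSet_Ioc) hdisj
    (by rw [hun]; exact hFi)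
  rw [hun] at key
  refine key.congr_fun ?_ |> fun h => h
  intro k
  have e1 : ∫ y in s k, F y = ∫ y in s k, h (-(2 * Real.log (((k : ℝ) + 1) / X))) := by
    refine setIntegral_congr_fun measurableSet_Ioc fun y hy => ?_
    simp only [hF]
    rw [hceil k y hy]
    push_cast
    rfl
  rw [e1, setIntegral_const, Complex.real_smul]
  congr 2
  simp only [hs]
  rw [measureReal_def, Real.volume_Ioc, ENNReal.toReal_ofReal]
  · ring
  · rw [← sub_div, add_sub_cancel_left]
    positivity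

/-- **Riemann sums.** -/
theorem riemann {h : ℝ → ℂ} (hm : Measurable h) (hcont : ∀ u : ℝ, u ≠ 0 → ContinuousAt h u) {C : ℝ} (hC : 0 ≤ C)
    (h1 : ∀ u : ℝ, 0 ≤ u → ‖h u‖ ≤ C * Real.exp (u / 4))
    (h2 : ∀ u : ℝ, u ≤ 0 → ‖h u‖ ≤ C * Real.exp u) (S : ℝ → ℂ)
    (hS : ∀ t : ℝ, 0 ≤ t → HasSum (fun k : ℕ => h (tk t k)) (S t)) :
    Tendsto (fun t : ℝ => ((Real.exp (-(t / 2)) : ℝ) : ℂ) * S t) atTop
      (𝓝 (∫ y in Ioi (0 : ℝ), h (-(2 * Real.log y)))) := by
  have hlim : Tendsto (fun X : ℝ => ∫ y in Ioi (0 : ℝ), h (-(2 * Real.log ((⌈y * X⌉₊ : ℝ) / X)))) atTop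
      (𝓝 (∫ y in Ioi (0 : ℝ), h (-(2 * Real.log y)))) := by
    refine tendsto_integral_filter_of_dominated_convergence (fun y => C * mj y) ?_ ?_ (mj_int.const_mul C) ?_
    · refine Eventually.of_forall fun X => ?_
      have h3 : Measurable (fun y : ℝ => (⌈y * X⌉₊ : ℝ)) :=
        (measurable_of_countable (fun n : ℕ => (n : ℝ))).comp (Nat.measurable_ceil.comp (by fun_prop))
      exact (hm.comp (by fun_prop)).aestronglyMeasurable
    · filter_upwards [eventually_gt_atTop (0 : ℝ)] with X hX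
      refine (ae_restrict_iff' measurableSet_Ioi).2 (ae_of_all _ fun y hy => ?_)
      have h3 : y ≤ (⌈y * X⌉₊ : ℝ) / X := by
        rw [le_div_iff₀ hX]
        exact Nat.le_ceil _
      exact (phi_bd hC h1 h2 (lt_of_lt_of_le hy h3)).trans (mul_le_mul_of_nonneg_left (mj_anti hy h3) hC)
    · have hne : ∀ᵐ y ∂(volume.restrict (Ioi (0 : ℝ))), y ≠ 1 := by
        refine ae_restrict_of_ae ?_
        simp [ae_iff, measure_singleton]
      filter_upwards [hne, ae_restrict_mem measurableSet_Ioi] with y hy1 hy0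
      have hy0' : (0 : ℝ) < y := hy0
      have h3 : Tendsto (fun X : ℝ => (⌈y * X⌉₊ : ℝ) / X) atTop (𝓝 y) := tendsto_nat_ceil_mul_div_atTop hy0'.le
      have h4 : ContinuousAt (fun z : ℝ => h (-(2 * Real.log z))) y := by
        refine ContinuousAt.comp (f := fun z : ℝ => -(2 * Real.log z)) (hcont _ ?_) ?_
        · intro h5
          have h6 : Real.log y = 0 := by linarith
          rcases Real.log_eq_zero.1 h6 with h7 | h7 | h7 <;> first | exact hy1 h7 | linarith
        · exact ((Real.continuousAt_log hy0'.ne').const_mul 2).neg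
      exact h4.tendsto.comp h3
  have hX : Tendsto (fun t : ℝ => Real.exp (t / 2)) atTop atTop :=
    Real.tendsto_exp_atTop.comp (tendsto_id.atTop_div_const (by norm_num))
  refine (hlim.comp hX).congr' ?_
  filter_upwards [eventually_ge_atTop (0 : ℝ)] with t ht
  have h3 := sum_step hm hC h1 h2 (Real.exp_pos (t / 2))
  have h4 : ∀ k : ℕ, -(2 * Real.log (((k : ℝ) + 1) / Real.exp (t / 2))) = tk t k := by
    intro k
    rw [Real.log_div (by positivity) (Real.exp_pos _).ne', Real.log_exp]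
    unfold tk
    ring
  simp only [h4] at h3
  have h5 := (hS t ht).mul_left ((1 / Real.exp (t / 2) : ℝ) : ℂ)
  rw [Function.comp, h3.unique h5]
  congr 2
  rw [Real.exp_neg, one_div]

end

end Pool.Agent.Q55.Liou
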