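import Pool.Agent.Q55.Liou.R

/-!
# The bias-corrected function
-/

open Complex MeasureTheory Filter Topology Set Metric

set_option autoImplicit false

namespace Pool.Agent.Q55.Liou

open H313.TK
open Pool.Agent.H307R2 (TM TM_norm_le Ez Ez_norm_le zeta_eq)

noncomputable section

/-- primitive of `qc` -/
def RR (u : ℝ) : ℂ := ∫ z in Iic u, qc z

lemma RR_bd0 : ∃ E : ℝ, 0 ≤ E ∧ ∀ u : ℝ, ‖RR u‖ ≤ E := by
  refine ⟨48 * ∫ x : ℝ, Real.exp (-(2 * |x|)),
    mul_nonneg (by norm_num) (integral_nonneg fun x => (Real.exp_pos _).le), fun u => ?_⟩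
  rw [← integral_const_mul]
  have hi : Integrable (fun x : ℝ => 48 * Real.exp (-(2 * |x|))) := (int_exp_abs 2 (by norm_num)).const_mul 48
  refine (norm_integral_le_of_norm_le (g := fun x : ℝ => 48 * Real.exp (-(2 * |x|))) hi.integrableOn
    (ae_of_all _ fun z => qq_bd z)).trans ?_
  exact setIntegral_le_integral hi (ae_of_all _ fun x => by positivity)

lemma RR_bds : ∃ C : ℝ, 0 ≤ C ∧ (∀ u : ℝ, ‖RR u‖ ≤ C) ∧ (∀ u : ℝ, u ≤ 0 → ‖RR u‖ ≤ C * Real.exp (2 * u)) := by
  obtain ⟨E, hE, h1⟩ := RR_bd0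
  obtain ⟨C, hC, h2⟩ := Iic_bd qc_QQ 0
  refine ⟨E + C, by positivity, fun u => (h1 u).trans (by linarith), fun u hu => (h2 u hu).trans ?_⟩
  exact mul_le_mul_of_nonneg_right (by linarith) (Real.exp_pos _).le

lemma RR_deriv (u : ℝ) : HasDerivAt RR (qc u) u := by
  have hi : ∀ v, IntegrableOn qc (Iic v) := qc_QQ.int0
  have h1 : ∀ v, RR v = RR 0 + ∫ z in (0:ℝ)..v, qc z := by
    intro v
    have := intervalIntegral.integral_Iic_sub_Iic (hi 0) (hi v)
    unfold RR
    rw [← this]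
    ring
  have h2 : HasDerivAt (fun v => RR 0 + ∫ z in (0:ℝ)..v, qc z) (qc u) u :=
    (intervalIntegral.integral_hasDerivAt_right (qc_QQ.cont.intervalIntegrable _ _)
      (qc_QQ.cont.stronglyMeasurableAtFilter _ _) qc_QQ.cont.continuousAt).const_add _
  exact h2.congr_of_eventuallyEq (Eventually.of_forall h1)

lemma RR_cont : Continuous RR := continuous_iff_continuousAt.2 fun u => (RR_deriv u).continuousAt

/-- the constant of the bias -/
lemma RR_int : ∫ y in Ioi (0 : ℝ), RR (-(2 * Real.log y)) = qh (1 / 2) := by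
  obtain ⟨C, hC, hb0, hb2⟩ := RR_bds
  have h1 : ∀ u : ℝ, 0 ≤ u → ‖RR u‖ ≤ C * Real.exp (u / 4) := fun u hu =>
    (hb0 u).trans (le_mul_of_one_le_right hC (Real.one_le_exp (by linarith)))
  have h2 : ∀ u : ℝ, u ≤ 0 → ‖RR u‖ ≤ C * Real.exp u := fun u hu =>
    (hb2 u hu).trans (mul_le_mul_of_nonneg_left (Real.exp_le_exp.2 (by linarith)) hC)
  have q1 : ∀ u : ℝ, 0 ≤ u → ‖qc u‖ ≤ 48 * Real.exp (u / 4) := fun u hu => by
    refine (qq_bd u).trans (mul_le_mul_of_nonneg_left (Real.exp_le_exp.2 ?_) (by norm_num))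
    rw [abs_of_nonneg hu]; linarith
  have q2 : ∀ u : ℝ, u ≤ 0 → ‖qc u‖ ≤ 48 * Real.exp u := fun u hu => by
    refine (qq_bd u).trans (mul_le_mul_of_nonneg_left (Real.exp_le_exp.2 ?_) (by norm_num))
    rw [abs_of_nonpos hu]; linarith
  have hlogm : Measurable (fun y : ℝ => -(2 * Real.log y)) := by fun_prop
  have i1 : IntegrableOn (fun y : ℝ => RR (-(2 * Real.log y))) (Ioi 0) := by
    refine Integrable.mono' (mj_int.const_mul C) (RR_cont.measurable.comp hlogm).aestronglyMeasurable ?_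
    exact (ae_restrict_iff' measurableSet_Ioi).2 (ae_of_all _ fun y hy => phi_bd hC h1 h2 hy)
  have i2 : IntegrableOn (fun y : ℝ => qc (-(2 * Real.log y))) (Ioi 0) := by
    refine Integrable.mono' (mj_int.const_mul 48) (qc_QQ.cont.measurable.comp hlogm).aestronglyMeasurable ?_
    exact (ae_restrict_iff' measurableSet_Ioi).2 (ae_of_all _ fun y hy => phi_bd (by norm_num) q1 q2 hy)
  have key := integral_Ioi_of_hasDerivAt_of_tendsto (a := (0 : ℝ)) (f := fun y : ℝ => (y : ℂ) * RR (-(2 * Real.log y)))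
    (f' := fun y : ℝ => RR (-(2 * Real.log y)) - 2 * qc (-(2 * Real.log y))) (m := 0) ?_ ?_ ?_ ?_
  · rw [integral_sub i1 (i2.const_mul 2)] at key
    simp only [ofReal_zero, zero_mul, sub_zero] at key
    rw [sub_eq_zero] at key
    rw [key, integral_const_mul]
    -- change of variables
    have e1 : ∫ y in Ioi (0 : ℝ), qc (-(2 * Real.log y)) = mellin (fun y : ℝ => qc (-(2 * Real.log y))) 1 := by
      unfold mellin
      refine setIntegral_congr_fun measurableSet_Ioi fun y _ => ?_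
      simp
    rw [e1, mellin_exp]
    have e2 : ∀ u : ℝ, cexp (-1 * u) * qc (-(2 * Real.log (Real.exp (-u)))) =
        (fun v : ℝ => cexp (-(1 / 2) * v) * qc v) (2 * u) := by
      intro u
      rw [Real.log_exp]
      simp only
      congr 2
      · push_cast; ring
      · ring
    simp only [e2]
    rw [Measure.integral_comp_mul_left (fun v : ℝ => cexp (-(1 / 2) * v) * qc v) 2]
    unfold qh qc
    rw [Complex.real_smul]
    simp
  · -- continuity at 0
    rw [ContinuousWithinAt]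
    simp only [ofReal_zero, zero_mul]
    have h3 : Tendsto (fun y : ℝ => |y| * C) (𝓝[Ici 0] 0) (𝓝 0) := by
      have : Tendsto (fun y : ℝ => |y| * C) (𝓝 0) (𝓝 (|0| * C)) := (continuous_abs.mul continuous_const).tendsto 0
      rw [abs_zero, zero_mul] at this
      exact this.mono_left nhdsWithin_le_nhds
    refine squeeze_zero_norm (fun y => ?_) h3
    rw [norm_mul, Complex.norm_real, Real.norm_eq_abs]
    exact mul_le_mul_of_nonneg_left (hb0 _) (abs_nonneg _)
  · intro y hy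
    have hy0 : (0 : ℝ) < y := hy
    have h3 : HasDerivAt (fun y : ℝ => -(2 * Real.log y)) (-(2 * y⁻¹)) y :=
      ((Real.hasDerivAt_log hy0.ne').const_mul 2).neg
    have h4 : HasDerivAt (fun y : ℝ => RR (-(2 * Real.log y))) ((-(2 * y⁻¹)) • qc (-(2 * Real.log y))) y :=
      (RR_deriv _).scomp y h3
    have h5 : HasDerivAt (fun y : ℝ => (y : ℂ)) 1 y := (hasDerivAt_id y).ofReal_comp
    refine (h5.mul h4).congr_deriv ?_
    rw [Complex.real_smul]
    have : (y : ℂ) ≠ 0 := by exact_mod_cast hy0.ne'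
    push_cast
    field_simp
    ring
  · exact i1.sub (i2.const_mul 2)
  · have h3 : Tendsto (fun y : ℝ => C * y ^ (-1 : ℝ)) atTop (𝓝 0) := by
      have := (tendsto_rpow_neg_atTop (show (0 : ℝ) < 1 by norm_num)).const_mul C
      rw [mul_zero] at this
      exact this
    refine squeeze_zero_norm' ?_ h3
    filter_upwards [eventually_ge_atTop (1 : ℝ)] with y hy
    have hy0 : 0 < y := by linarith
    rw [norm_mul, Complex.norm_real, Real.norm_eq_abs, abs_of_pos hy0]
    have h4 := (phi_bd hC h1 h2 hy0).trans (mul_le_mul_of_nonneg_left (min_le_right _ _) hC)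
    calc y * ‖RR (-(2 * Real.log y))‖ ≤ y * (C * y ^ (-2 : ℝ)) := mul_le_mul_of_nonneg_left h4 hy0.le
      _ = C * (y ^ (1 : ℝ) * y ^ (-2 : ℝ)) := by rw [Real.rpow_one]; ring
      _ = C * y ^ (-1 : ℝ) := by rw [← Real.rpow_add hy0]; norm_num

/-- the bias of the smoothed average -/
theorem avg_ll_lim : Tendsto (fun t : ℝ => ((Real.exp (-(t / 2)) : ℝ) : ℂ) * ∫ v : ℝ, (ll (t - v) : ℂ) * kc v) atTop
    (𝓝 (qh (1 / 2))) := by
  obtain ⟨C, hC, hb0, hb2⟩ := RR_bds
  have h1 : ∀ u : ℝ, 0 ≤ u → ‖RR u‖ ≤ C * Real.exp (u / 4) := fun u hu =>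
    (hb0 u).trans (le_mul_of_one_le_right hC (Real.one_le_exp (by linarith)))
  have h2 : ∀ u : ℝ, u ≤ 0 → ‖RR u‖ ≤ C * Real.exp u := fun u hu =>
    (hb2 u hu).trans (mul_le_mul_of_nonneg_left (Real.exp_le_exp.2 (by linarith)) hC)
  rw [← RR_int]
  refine riemann RR_cont.measurable (fun u _ => RR_cont.continuousAt) hC h1 h2 _ fun t _ => ?_
  have := liou qc_QQ t
  rw [← kc_eq] at this
  exact this

end

end Pool.Agent.Q55.Liou
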