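import Pool.Agent.Q55.Liou.S

/-!
# The twisted averages of the Liouville function on the critical line
-/

open Complex MeasureTheory Filter Topology Set Metric

set_option autoImplicit false

namespace Pool.Agent.Q55.Liou

open H313.TK
open Pool.Agent.H307R2 (TM TM_norm_le Ez Ez_norm_le zeta_eq)

noncomputable section

/-- derivative of the twisted primitive -/
lemma Ist_deriv {ρ : ℂ} {g : ℝ → ℂ} (hc : Continuous g)
    (hi : ∀ v, IntegrableOn (fun z : ℝ => cexp (-ρ * z) * g z) (Iic v)) (u : ℝ) :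
    HasDerivAt (Ist ρ g) (ρ * Ist ρ g u + g u) u := by
  have h1 := prim_cont (by fun_prop : Continuous fun z : ℝ => cexp (-ρ * z) * g z) hi u
  have h2 : HasDerivAt (fun v : ℝ => cexp (ρ * v)) (ρ * cexp (ρ * u)) u := by
    have h3 : HasDerivAt (fun v : ℝ => ρ * (v : ℂ)) ρ u := by
      simpa using (hasDerivAt_id u).ofReal_comp.const_mul ρ
    have := h3.cexp
    rwa [mul_comm] at this
  refine (h2.mul h1).congr_deriv ?_
  unfold Ist
  rw [tw_cancel]
  ring

lemma exp_atBot {g : ℝ → ℂ} (hg : QQ g) : Tendsto g atBot (𝓝 0) := by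
  obtain ⟨C, hC, hb⟩ := hg.bd 0
  have h1 : Tendsto (fun z : ℝ => C * Real.exp (2 * z)) atBot (𝓝 0) := by
    have h2 : Tendsto (fun z : ℝ => Real.exp (2 * z)) atBot (𝓝 0) :=
      Real.tendsto_exp_atBot.comp (Tendsto.const_mul_atBot two_pos tendsto_id)
    simpa using h2.const_mul C
  refine squeeze_zero_norm' ?_ h1
  filter_upwards [eventually_le_atBot (0 : ℝ)] with z hz
  exact hb z hz

lemma rel {ρ : ℂ} (hρ : ρ.re < 2) (u : ℝ) :
    Ist ρ qc u = ρ * (∫ z in Iic u, Ist ρ qc z) + RR u := by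
  have hQ := Ist_QQ qc_QQ ρ hρ
  have key := integral_Iic_of_hasDerivAt_of_tendsto' (a := u) (f := Ist ρ qc)
    (f' := fun z => ρ * Ist ρ qc z + qc z) (m := 0)
    (fun x _ => Ist_deriv qc_QQ.cont (qc_QQ.int ρ hρ) x)
    (((hQ.int0 u).const_mul ρ).add (qc_QQ.int0 u)) (exp_atBot hQ)
  rw [sub_zero, integral_add ((hQ.int0 u).const_mul ρ) (qc_QQ.int0 u), integral_const_mul] at key
  rw [← key]
  rfl

lemma tk_neg' {t : ℝ} {k : ℕ} (hk : NN t ≤ k) : tk t k < 0 := by
  have h1 : Real.exp (t / 2) < (k : ℝ) + 1 := by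
    have h3 : Real.exp (t / 2) < (NN t : ℝ) + 1 := Nat.lt_floor_add_one _
    have h4 : (NN t : ℝ) ≤ k := by exact_mod_cast hk
    linarith
  have h2 := (Real.lt_log_iff_exp_lt (by positivity : (0 : ℝ) < (k : ℝ) + 1)).2 h1
  unfold tk
  linarith

lemma tk_sub (t y : ℝ) (k : ℕ) : tk (t - y) k = tk t k - y := by unfold tk; ring

/-- the twisted sum as an integral -/
def TT (ρ : ℂ) (t : ℝ) : ℂ := ∫ y : ℝ, qc y * cexp (ρ * ((t - y : ℝ) : ℂ)) * PP (2 * ρ) (NN (t - y))

theorem T_hasSum {ρ : ℂ} (hρ : ρ.re < 2) (t : ℝ) :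
    HasSum (fun k : ℕ => Ist ρ qc (tk t k)) (TT ρ t) := by
  obtain ⟨C, hC, hb⟩ := qc_QQ.bd t
  have h2ρ : 0 < 2 - ρ.re := by linarith
  set F : ℕ → ℝ → ℂ := fun k y =>
    (Iic (tk t k)).indicator (fun y : ℝ => cexp (ρ * (tk t k : ℂ)) * (cexp (-ρ * y) * qc y)) y with hF
  have hFi : ∀ k, Integrable (F k) := fun k => by
    simp only [hF]
    exact (integrable_indicator_iff measurableSet_Iic).2 ((qc_QQ.int ρ hρ (tk t k)).const_mul _)
  have hFint : ∀ k, ∫ y, F k y = Ist ρ qc (tk t k) := fun k => by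
    simp only [hF]
    rw [integral_indicator measurableSet_Iic, integral_const_mul]
    rfl
  have hFs : Summable (fun k => ∫ z, ‖F k z‖) := by
    refine Summable.of_nonneg_of_le (fun k => integral_nonneg fun z => norm_nonneg _) (fun k => ?_)
      (sum_4.mul_left (C / (2 - ρ.re) * Real.exp (2 * t)))
    set G : ℝ → ℝ := (Iic (tk t k)).indicator
      (fun y => Real.exp (ρ.re * tk t k) * C * Real.exp ((2 - ρ.re) * y)) with hG
    have hGi : Integrable G := (integrable_indicator_iff measurableSet_Iic).2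
      ((integrableOn_exp_mul_Iic h2ρ _).const_mul _)
    have h1 : ∫ z, ‖F k z‖ ≤ ∫ z, G z := by
      refine integral_mono (hFi k).norm hGi fun y => ?_
      simp only [hF, hG]
      by_cases hy : y ∈ Iic (tk t k)
      · rw [indicator_of_mem hy, indicator_of_mem hy, norm_mul, norm_mul, norm_tw, norm_tw']
        have h3 := hb y (le_trans hy (tk_le t k))
        calc Real.exp (ρ.re * tk t k) * (Real.exp (-ρ.re * y) * ‖qc y‖) ≤
              Real.exp (ρ.re * tk t k) * (Real.exp (-ρ.re * y) * (C * Real.exp (2 * y))) := by gcongr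
          _ = Real.exp (ρ.re * tk t k) * C * (Real.exp (-ρ.re * y) * Real.exp (2 * y)) := by ring
          _ = _ := by rw [← Real.exp_add]; congr 2; ring
      · rw [indicator_of_notMem hy, indicator_of_notMem hy, norm_zero]
    refine h1.trans (le_of_eq ?_)
    rw [hG, integral_indicator measurableSet_Iic, integral_const_mul, integral_exp_mul_Iic h2ρ]
    have h2 := exp_tk2 t k
    rw [mul_assoc (C / (2 - ρ.re)), ← h2]
    have e : Real.exp (2 * tk t k) = Real.exp (ρ.re * tk t k) * Real.exp ((2 - ρ.re) * tk t k) := by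
      rw [← Real.exp_add]; congr 1; ring
    rw [e]
    ring
  have key := hasSum_integral_of_summable_integral_norm hFi hFs
  simp only [hFint] at key
  have e1 : ∫ y, ∑' k, F k y = TT ρ t := by
    unfold TT
    refine integral_congr_ae (ae_of_all _ fun y => ?_)
    simp only
    rw [tsum_eq_sum (s := Finset.range (NN (t - y)))]
    · unfold PP
      rw [Finset.mul_sum]
      refine Finset.sum_congr rfl fun k hk => ?_
      have h1 : y ≤ tk t k := by
        have := tk_nonneg (Finset.mem_range.1 hk)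
        rw [tk_sub] at this
        linarith
      simp only [hF]
      rw [indicator_of_mem (show y ∈ Iic (tk t k) from h1)]
      have h2 := cexp_tk ρ (t - y) k
      have h3 : cexp (ρ * (tk t k : ℂ)) * (cexp (-ρ * y) * qc y) = qc y * cexp (ρ * (tk (t - y) k : ℂ)) := by
        rw [tk_sub, ← mul_assoc, ← Complex.exp_add, mul_comm]
        congr 2
        push_cast
        ring
      rw [h3, h2]
      ring
    · intro k hk
      have h1 : tk t k < y := by
        have := tk_neg' (show NN (t - y) ≤ k by simpa using hk)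
        rw [tk_sub] at this
        linarith
      simp only [hF]
      rw [indicator_of_notMem]
      simpa using h1
  rw [e1] at key
  exact key

lemma NN_tendsto : Tendsto NN atTop atTop := by
  have : Tendsto (fun t : ℝ => Real.exp (t / 2)) atTop atTop :=
    Real.tendsto_exp_atTop.comp (tendsto_id.atTop_div_const (by norm_num))
  exact tendsto_nat_floor_atTop.comp this

lemma NN_log {w : ℝ} (hw : 0 ≤ w) : |Real.log (NN w) - w / 2| ≤ 1 / (NN w : ℝ) := by
  have hN := NN_pos hw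
  have hN0 : (0 : ℝ) < NN w := by exact_mod_cast hN
  have h1 : (NN w : ℝ) ≤ Real.exp (w / 2) := Nat.floor_le (Real.exp_pos _).le
  have h2 : Real.exp (w / 2) < (NN w : ℝ) + 1 := Nat.lt_floor_add_one _
  have h3 := (Real.log_le_iff_le_exp hN0).2 h1
  have h4 := (Real.lt_log_iff_exp_lt (by positivity : (0 : ℝ) < (NN w : ℝ) + 1)).2 h2
  have h5 : Real.log ((NN w : ℝ) + 1) - Real.log (NN w) ≤ 1 / (NN w : ℝ) := by
    rw [← Real.log_div (by positivity) hN0.ne']
    have h6 := Real.log_le_sub_one_of_pos (show 0 < ((NN w : ℝ) + 1) / NN w by positivity)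
    refine h6.trans (le_of_eq ?_)
    field_simp
    ring
  rw [abs_of_nonpos (by linarith)]
  linarith

/-- the limit of the remainder of the partial sums of `ζ` on the line `Re s = 1` -/
theorem Phi_lim {ρ : ℂ} (hre : ρ.re = 1 / 2) (hne : 2 * ρ ≠ 1) :
    Tendsto (fun w : ℝ => cexp ((ρ - 1 / 2) * w) * (PP (2 * ρ) (NN w) - riemannZeta (2 * ρ))) atTop
      (𝓝 (-(1 / (2 * ρ - 1)))) := by
  have hs : (2 * ρ).re = 1 := by simp [hre]
  have hinv : Tendsto (fun w : ℝ => 1 / (NN w : ℝ)) atTop (𝓝 0) :=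
    tendsto_one_div_atTop_nhds_zero_nat.comp NN_tendsto
  have hlog : Tendsto (fun w : ℝ => Real.log (NN w) - w / 2) atTop (𝓝 0) := by
    refine squeeze_zero_norm' ?_ hinv
    filter_upwards [eventually_ge_atTop (0 : ℝ)] with w hw
    exact NN_log hw
  have hA : Tendsto (fun w : ℝ => cexp ((1 - 2 * ρ) * ((Real.log (NN w) - w / 2 : ℝ) : ℂ))) atTop (𝓝 1) := by
    have h1 : Tendsto (fun w : ℝ => ((Real.log (NN w) - w / 2 : ℝ) : ℂ)) atTop (𝓝 ((0 : ℝ) : ℂ)) :=
      (Complex.continuous_ofReal.tendsto 0).comp hlog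
    have h2 := (Complex.continuous_exp.tendsto _).comp (h1.const_mul (1 - 2 * ρ))
    rw [Complex.ofReal_zero, mul_zero, Complex.exp_zero] at h2
    exact h2
  have hB : Tendsto (fun w : ℝ => cexp ((ρ - 1 / 2) * w) * (2 * ρ * TM (NN w) Ez (2 * ρ))) atTop (𝓝 0) := by
    have h1 : Tendsto (fun w : ℝ => ‖2 * ρ‖ * (1 / (NN w : ℝ))) atTop (𝓝 0) := by
      simpa using hinv.const_mul ‖2 * ρ‖
    refine squeeze_zero_norm' ?_ h1
    filter_upwards [eventually_ge_atTop (0 : ℝ)] with w hw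
    rw [norm_mul, norm_tw']
    have h2 : (ρ - 1 / 2).re = 0 := by simp [hre]
    rw [h2, zero_mul, Real.exp_zero, one_mul]
    refine (TM_bd hs (NN_pos hw)).trans (le_of_eq ?_)
    ring
  have h3 := (hA.const_mul (-(1 / (2 * ρ - 1)))).sub hB
  rw [mul_one, sub_zero] at h3
  refine h3.congr' ?_
  filter_upwards [eventually_ge_atTop (0 : ℝ)] with w hw
  have hN := NN_pos hw
  have hN0 : (NN w : ℂ) ≠ 0 := by
    have : NN w ≠ 0 := by omega
    exact_mod_cast this
  rw [PP_eq (by rw [hs]; norm_num) hne hN]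
  have h4 : cexp ((1 - 2 * ρ) * ((Real.log (NN w) - w / 2 : ℝ) : ℂ)) =
      cexp ((ρ - 1 / 2) * w) * (NN w : ℂ) ^ (1 - 2 * ρ) := by
    rw [Complex.cpow_def_of_ne_zero hN0, ← Complex.exp_add, ← Complex.natCast_log]
    congr 1
    push_cast
    ring
  rw [h4]
  ring

lemma qc_int_half (ρ : ℂ) (hre : ρ.re = 1 / 2) : Integrable (fun y : ℝ => cexp (-ρ * y) * qc y) := by
  refine ((int_exp_abs 1 one_pos).const_mul 48).mono' ?_ (ae_of_all _ fun y => ?_)
  · have := qc_QQ.cont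
    exact (by fun_prop : Continuous fun y : ℝ => cexp (-ρ * y) * qc y).aestronglyMeasurable
  · rw [norm_mul, norm_tw, hre]
    have h1 := qq_bd y
    have h2 : Real.exp (-(1 / 2) * y) ≤ Real.exp |y| := by
      refine Real.exp_le_exp.2 ?_
      have := neg_abs_le y
      have := abs_nonneg y
      linarith
    calc Real.exp (-(1 / 2) * y) * ‖qc y‖ ≤ Real.exp |y| * (48 * Real.exp (-(2 * |y|))) :=
          mul_le_mul h2 h1 (norm_nonneg _) (Real.exp_pos _).le
      _ = 48 * (Real.exp |y| * Real.exp (-(2 * |y|))) := by ring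
      _ = _ := by rw [← Real.exp_add]; congr 2; ring

theorem T_lim {ρ : ℂ} (hre : ρ.re = 1 / 2) (hne : 2 * ρ ≠ 1) :
    Tendsto (fun t : ℝ => ((Real.exp (-(t / 2)) : ℝ) : ℂ) * TT ρ t -
      qh ρ * riemannZeta (2 * ρ) * cexp ((ρ - 1 / 2) * t)) atTop (𝓝 (-(1 / (2 * ρ - 1)) * qh (1 / 2))) := by
  have hs : (2 * ρ).re = 1 := by simp [hre]
  obtain ⟨C, hC, hD⟩ := DD_bd hs hne
  set Φ : ℝ → ℂ := fun w => cexp ((ρ - 1 / 2) * w) * (PP (2 * ρ) (NN w) - riemannZeta (2 * ρ)) with hΦ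
  have hNNm : Measurable NN := Nat.measurable_floor.comp (by fun_prop)
  have hPPm : Measurable (fun w : ℝ => PP (2 * ρ) (NN w)) := (measurable_of_countable (fun n : ℕ => PP (2 * ρ) n)).comp hNNm
  have hΦm : Measurable Φ := by
    simp only [hΦ]
    exact (by fun_prop : Measurable fun w : ℝ => cexp ((ρ - 1 / 2) * w)).mul (hPPm.sub_const _)
  have hΦb : ∀ w, ‖Φ w‖ ≤ C := by
    intro w
    simp only [hΦ]
    rw [norm_mul, norm_tw']
    have h2 : (ρ - 1 / 2).re = 0 := by simp [hre]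
    rw [h2, zero_mul, Real.exp_zero, one_mul]
    exact hD _
  have hhalf : Integrable (fun y : ℝ => cexp (-(1 / 2 : ℂ) * y) * qc y) := qc_int_half (1 / 2) (by norm_num)
  have hlim : Tendsto (fun t : ℝ => ∫ y : ℝ, cexp (-(1 / 2 : ℂ) * y) * qc y * Φ (t - y)) atTop
      (𝓝 (∫ y : ℝ, cexp (-(1 / 2 : ℂ) * y) * qc y * (-(1 / (2 * ρ - 1))))) := by
    refine tendsto_integral_filter_of_dominated_convergence (fun y => ‖cexp (-(1 / 2 : ℂ) * y) * qc y‖ * C) ?_ ?_
      (hhalf.norm.mul_const C) ?_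
    · refine Eventually.of_forall fun t => ?_
      exact hhalf.aestronglyMeasurable.mul (hΦm.comp (by fun_prop)).aestronglyMeasurable
    · refine Eventually.of_forall fun t => ae_of_all _ fun y => ?_
      rw [norm_mul]
      exact mul_le_mul_of_nonneg_left (hΦb _) (norm_nonneg _)
    · refine ae_of_all _ fun y => ?_
      refine Tendsto.const_mul _ ?_
      exact (Phi_lim hre hne).comp (tendsto_atTop_add_const_right _ (-y) tendsto_id)
  rw [integral_mul_const] at hlim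
  have e0 : (∫ y : ℝ, cexp (-(1 / 2 : ℂ) * y) * qc y) * (-(1 / (2 * ρ - 1))) = -(1 / (2 * ρ - 1)) * qh (1 / 2) := by
    rw [mul_comm]
    rfl
  rw [e0] at hlim
  refine hlim.congr fun t => ?_
  have i1 : Integrable (fun y : ℝ => cexp (-(1 / 2 : ℂ) * y) * qc y * (cexp ((ρ - 1 / 2) * ((t - y : ℝ) : ℂ)) *
      PP (2 * ρ) (NN (t - y)))) := by
    refine (hhalf.norm.mul_const (C + ‖riemannZeta (2 * ρ)‖)).mono' ?_ (ae_of_all _ fun y => ?_)
    · refine hhalf.aestronglyMeasurable.mul ?_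
      exact ((by fun_prop : Measurable fun y : ℝ => cexp ((ρ - 1 / 2) * ((t - y : ℝ) : ℂ))).mul
        (hPPm.comp (by fun_prop : Measurable fun y : ℝ => t - y))).aestronglyMeasurable
    · rw [norm_mul, norm_mul (cexp ((ρ - 1 / 2) * _)), norm_tw']
      have h2 : (ρ - 1 / 2).re = 0 := by simp [hre]
      rw [h2, zero_mul, Real.exp_zero, one_mul]
      refine mul_le_mul_of_nonneg_left ?_ (norm_nonneg _)
      calc ‖PP (2 * ρ) (NN (t - y))‖ = ‖(PP (2 * ρ) (NN (t - y)) - riemannZeta (2 * ρ)) + riemannZeta (2 * ρ)‖ := by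
            congr 1; ring
        _ ≤ _ := (norm_add_le _ _).trans (add_le_add (hD _) le_rfl)
  have i2 : Integrable (fun y : ℝ => cexp (-ρ * y) * qc y) := qc_int_half ρ hre
  have e1 : ((Real.exp (-(t / 2)) : ℝ) : ℂ) * TT ρ t = ∫ y : ℝ, cexp (-(1 / 2 : ℂ) * y) * qc y *
      (cexp ((ρ - 1 / 2) * ((t - y : ℝ) : ℂ)) * PP (2 * ρ) (NN (t - y))) := by
    unfold TT
    rw [← integral_const_mul]
    refine integral_congr_ae (ae_of_all _ fun y => ?_)
    simp only
    have h5 : ((Real.exp (-(t / 2)) : ℝ) : ℂ) * cexp (ρ * ((t - y : ℝ) : ℂ)) =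
        cexp (-(1 / 2 : ℂ) * y) * cexp ((ρ - 1 / 2) * ((t - y : ℝ) : ℂ)) := by
      rw [Complex.ofReal_exp, ← Complex.exp_add, ← Complex.exp_add]
      congr 1
      push_cast
      ring
    calc ((Real.exp (-(t / 2)) : ℝ) : ℂ) * (qc y * cexp (ρ * ((t - y : ℝ) : ℂ)) * PP (2 * ρ) (NN (t - y))) =
          (((Real.exp (-(t / 2)) : ℝ) : ℂ) * cexp (ρ * ((t - y : ℝ) : ℂ))) * (qc y * PP (2 * ρ) (NN (t - y))) := by ring
      _ = _ := by rw [h5]; ring
  have e2 : qh ρ * riemannZeta (2 * ρ) * cexp ((ρ - 1 / 2) * t) =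
      ∫ y : ℝ, (riemannZeta (2 * ρ) * cexp ((ρ - 1 / 2) * t)) * (cexp (-ρ * y) * qc y) := by
    rw [integral_const_mul]
    have : ∫ y : ℝ, cexp (-ρ * y) * qc y = qh ρ := rfl
    rw [this]
    ring
  rw [e1, e2, ← integral_sub i1 (i2.const_mul _)]
  refine integral_congr_ae (ae_of_all _ fun y => ?_)
  simp only [hΦ]
  have h6 : cexp ((ρ - 1 / 2) * t) * cexp (-ρ * y) = cexp (-(1 / 2 : ℂ) * y) * cexp ((ρ - 1 / 2) * ((t - y : ℝ) : ℂ)) := by
    rw [← Complex.exp_add, ← Complex.exp_add]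
    congr 1
    push_cast
    ring
  have h7 : riemannZeta (2 * ρ) * cexp ((ρ - 1 / 2) * t) * (cexp (-ρ * y) * qc y) =
      riemannZeta (2 * ρ) * (cexp ((ρ - 1 / 2) * t) * cexp (-ρ * y)) * qc y := by ring
  rw [h7, h6]
  ring

/-- the twisted average of the Liouville summatory function -/
theorem S_lim {ρ : ℂ} (hre : ρ.re = 1 / 2) (hne : 2 * ρ ≠ 1) :
    Tendsto (fun t : ℝ => ((Real.exp (-(t / 2)) : ℝ) : ℂ) * (∫ v : ℝ, (ll (t - v) : ℂ) * Sg (Ist ρ qc) v) -
      qh ρ * riemannZeta (2 * ρ) / ρ * cexp ((ρ - 1 / 2) * t)) atTop (𝓝 (qh (1 / 2) / (1 / 2 - ρ))) := by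
  have hρ2 : ρ.re < 2 := by rw [hre]; norm_num
  have hρ0 : ρ ≠ 0 := by rintro rfl; simp at hre
  have h1 := (T_lim hre hne).sub avg_ll_lim
  have h2 := h1.const_mul (1 / ρ)
  have e1 : 1 / ρ * (-(1 / (2 * ρ - 1)) * qh (1 / 2) - qh (1 / 2)) = qh (1 / 2) / (1 / 2 - ρ) := by
    have h3 : (2 * ρ - 1) ≠ 0 := sub_ne_zero.2 hne
    obtain ⟨x, hx⟩ : ∃ x, x = 2 * ρ - 1 := ⟨_, rfl⟩
    have hx0 : x ≠ 0 := by rw [hx]; exact h3
    have h5 : (1 / 2 - ρ) = -x / 2 := by rw [hx]; ring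
    have h6 : 1 + x = 2 * ρ := by rw [hx]; ring
    rw [← hx, h5]
    generalize qh (1 / 2) = q
    calc 1 / ρ * (-(1 / x) * q - q) = -q * (1 + x) / (x * ρ) := by field_simp; ring
      _ = -q * (2 * ρ) / (x * ρ) := by rw [h6]
      _ = q / (-x / 2) := by field_simp
  rw [e1] at h2
  refine h2.congr fun t => ?_
  have s1 := liou (Ist_QQ qc_QQ ρ hρ2) t
  have s2 := liou qc_QQ t
  rw [← kc_eq] at s2
  have s3 := ((T_hasSum hρ2 t).sub s2).mul_left (1 / ρ)
  have s4 : ∀ k : ℕ, 1 / ρ * (Ist ρ qc (tk t k) - ∫ z in Iic (tk t k), qc z) = ∫ z in Iic (tk t k), Ist ρ qc z := by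
    intro k
    rw [rel hρ2 (tk t k)]
    unfold RR
    field_simp
    ring
  simp only [s4] at s3
  rw [s1.unique s3]
  ring

end

end Pool.Agent.Q55.Liou
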