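import Pool.Agent.Q55.Liou.T

/-!
# The bias-corrected function: core inequality
-/

open Complex MeasureTheory Filter Topology Set Metric

set_option autoImplicit false

namespace Pool.Agent.Q55.Liou

open H313.TK

noncomputable section

/-- the constant of the bias -/
def kap : ℝ := ((riemannZeta (1 / 2)).re)⁻¹

lemma Kh_half : Kh (1 / 2) = ((∫ v : ℝ, Real.exp (-(1 / 2 * v)) * kp v : ℝ) : ℂ) := by
  unfold Kh
  rw [← integral_complex_ofReal]
  refine integral_congr_ae (ae_of_all _ fun v => ?_)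
  push_cast
  congr 2
  ring

lemma qh_half : qh (1 / 2) = ((∫ v : ℝ, Real.exp (-(1 / 2 * v)) * qq v : ℝ) : ℂ) := by
  unfold qh
  rw [← integral_complex_ofReal]
  refine integral_congr_ae (ae_of_all _ fun v => ?_)
  push_cast
  congr 2
  ring

theorem zeta_half_real : riemannZeta (1 / 2) = (((riemannZeta (1 / 2)).re : ℝ) : ℂ) := by
  have h3 := Kh_eq (1 / 2) (by norm_num) (by norm_num) (by norm_num)
  have hq : qh (1 / 2) ≠ 0 := qh_ne (1 / 2) (by norm_num) (by norm_num)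
  rw [Kh_half] at h3
  rw [qh_half] at h3 hq
  have hζ : riemannZeta (1 / 2) = (((∫ v : ℝ, Real.exp (-(1 / 2 * v)) * kp v) /
      (∫ v : ℝ, Real.exp (-(1 / 2 * v)) * qq v) : ℝ) : ℂ) := by
    rw [Complex.ofReal_div, eq_div_iff hq]
    exact h3.symm
  rw [hζ, Complex.ofReal_re]

theorem kap_eq : (kap : ℂ) * Kh (1 / 2) = qh (1 / 2) := by
  have h3 := Kh_eq (1 / 2) (by norm_num) (by norm_num) (by norm_num)
  have h4 : riemannZeta (1 / 2) ≠ 0 := zeta_half
  rw [h3, ← mul_assoc]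
  unfold kap
  rw [Complex.ofReal_inv, ← zeta_half_real, inv_mul_cancel₀ h4, one_mul]

/-- the bias -/
def bb (u : ℝ) : ℝ := if 0 ≤ u then kap * Real.exp (u / 2) else 0

/-- the bias-corrected function -/
def dd (u : ℝ) : ℝ := ll u - bb u

lemma bb_meas : Measurable bb := by
  unfold bb
  exact Measurable.ite measurableSet_Ici (by fun_prop) measurable_const

lemma dd_meas : Measurable dd := ll_meas.sub bb_meas

lemma bb_le (u : ℝ) : |bb u| ≤ |kap| * Real.exp u := by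
  unfold bb
  split_ifs with h
  · rw [abs_mul, abs_of_pos (Real.exp_pos _)]
    exact mul_le_mul_of_nonneg_left (Real.exp_le_exp.2 (by linarith)) (abs_nonneg _)
  · rw [abs_zero]
    positivity

lemma bb_le2 (u : ℝ) : |bb u| ≤ |kap| * Real.exp (u / 2) := by
  unfold bb
  split_ifs with h
  · rw [abs_mul, abs_of_pos (Real.exp_pos _)]
  · rw [abs_zero]
    positivity

lemma dd_le (u : ℝ) : |dd u| ≤ (1 + |kap|) * Real.exp u := by
  unfold dd
  have h1 := abs_ll_le u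
  have h2 := bb_le u
  calc |ll u - bb u| ≤ |ll u| + |bb u| := abs_sub _ _
    _ ≤ _ := by linarith

lemma int_DK {f : ℝ → ℝ} (hf : Measurable f) {K : ℝ} (hK : 0 ≤ K) (hb : ∀ u, |f u| ≤ K * Real.exp u) {k : ℝ → ℂ}
    (hk : DK k) (t : ℝ) : Integrable (fun v => (f (t - v) : ℂ) * k v) := by
  obtain ⟨C, hC, hkb⟩ := hk.bd
  have hc := hk.cont.measurable
  refine ((int_exp_abs 1 one_pos).const_mul (K * C * (4 * Real.exp t))).mono' ?_ (ae_of_all _ fun v => ?_)
  · exact (by fun_prop : Measurable fun v => (f (t - v) : ℂ) * k v).aestronglyMeasurable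
  · rw [norm_mul, Complex.norm_real, Real.norm_eq_abs]
    calc |f (t - v)| * ‖k v‖ ≤ (K * Real.exp (t - v)) * (C * W v) :=
          mul_le_mul (hb _) (hkb v) (norm_nonneg _) (by positivity)
      _ = K * C * (Real.exp (t - v) * W v) := by ring
      _ ≤ K * C * (4 * Real.exp t * Real.exp (-(1 * |v|))) := mul_le_mul_of_nonneg_left (kpW t v) (by positivity)
      _ = _ := by ring

lemma Ist_half {ρ : ℂ} (hre : ρ.re = 1 / 2) (hne : 2 * ρ ≠ 1) (hD : DK (Ist ρ kc)) :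
    ∫ v : ℝ, cexp (-(1 / 2 : ℂ) * v) * Ist ρ kc v = Kh (1 / 2) / (1 / 2 - ρ) := by
  have i1 : Integrable (fun v : ℝ => cexp (-(1 / 2 : ℂ) * v) * Ist ρ kc v) := tw_int hD (1 / 2) (by norm_num)
  have i2 : Integrable (fun v : ℝ => cexp (-(1 / 2 : ℂ) * v) * kc v) := tw_int kc_DK (1 / 2) (by norm_num)
  have hi3 : ∀ v, IntegrableOn (fun z : ℝ => cexp (-ρ * z) * kc z) (Iic v) := fun v =>
    (tw_int kc_DK ρ (by rw [hre]; norm_num)).integrableOn
  have key := integral_eq_zero_of_hasDerivAt_of_integrable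
    (f := fun v : ℝ => cexp (-(1 / 2 : ℂ) * v) * Ist ρ kc v)
    (f' := fun v : ℝ => (ρ - 1 / 2) * (cexp (-(1 / 2 : ℂ) * v) * Ist ρ kc v) + cexp (-(1 / 2 : ℂ) * v) * kc v)
    (fun v => ?_) ((i1.const_mul _).add i2) i1
  · rw [integral_add (i1.const_mul _) i2, integral_const_mul] at key
    have h5 : ∫ v : ℝ, cexp (-(1 / 2 : ℂ) * v) * kc v = Kh (1 / 2) := rfl
    rw [h5] at key
    have h4 : (1 / 2 - ρ) ≠ 0 := by
      intro h
      apply hne
      linear_combination -2 * h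
    rw [eq_div_iff h4]
    linear_combination -key
  · have h1 : HasDerivAt (fun v : ℝ => cexp (-(1 / 2 : ℂ) * v)) (-(1 / 2) * cexp (-(1 / 2 : ℂ) * v)) v := by
      have h3 : HasDerivAt (fun v : ℝ => -(1 / 2 : ℂ) * (v : ℂ)) (-(1 / 2)) v := by
        simpa using (hasDerivAt_id v).ofReal_comp.const_mul (-(1 / 2 : ℂ))
      have := h3.cexp
      rwa [mul_comm] at this
    refine (h1.mul (Ist_deriv kc_DK.cont hi3 v)).congr_deriv ?_
    ring

lemma bb_lim {k : ℝ → ℂ} (hk : DK k) :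
    Tendsto (fun t : ℝ => ((Real.exp (-(t / 2)) : ℝ) : ℂ) * ∫ v : ℝ, (bb (t - v) : ℂ) * k v) atTop
      (𝓝 (kap * ∫ v : ℝ, cexp (-(1 / 2 : ℂ) * v) * k v)) := by
  have hi : Integrable (fun v : ℝ => cexp (-(1 / 2 : ℂ) * v) * k v) := tw_int hk (1 / 2) (by norm_num)
  have h1 : Tendsto (fun t : ℝ => ∫ v in Iic t, cexp (-(1 / 2 : ℂ) * v) * k v) atTop
      (𝓝 (∫ v : ℝ, cexp (-(1 / 2 : ℂ) * v) * k v)) :=
    (aecover_Iic (μ := volume) tendsto_id).integral_tendsto_of_countably_generated hi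
  refine (h1.const_mul (kap : ℂ)).congr fun t => ?_
  rw [← integral_indicator measurableSet_Iic, ← integral_const_mul, ← integral_const_mul]
  refine integral_congr_ae (ae_of_all _ fun v => ?_)
  simp only
  by_cases hv : v ≤ t
  · rw [indicator_of_mem (show v ∈ Iic t from hv)]
    unfold bb
    rw [if_pos (by linarith)]
    have h2 : ((Real.exp (-(t / 2)) : ℝ) : ℂ) * ((Real.exp ((t - v) / 2) : ℝ) : ℂ) = cexp (-(1 / 2 : ℂ) * v) := by
      rw [← Complex.ofReal_mul, ← Real.exp_add, Complex.ofReal_exp]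
      congr 1
      push_cast
      ring
    rw [Complex.ofReal_mul, ← h2]
    ring
  · rw [indicator_of_notMem (by simpa using hv)]
    unfold bb
    rw [if_neg (by linarith [not_le.1 hv])]
    simp

lemma dd_int {k : ℝ → ℂ} (hk : DK k) (t : ℝ) :
    ∫ v : ℝ, (dd (t - v) : ℂ) * k v = (∫ v : ℝ, (ll (t - v) : ℂ) * k v) - ∫ v : ℝ, (bb (t - v) : ℂ) * k v := by
  rw [← integral_sub (int_DK ll_meas zero_le_one (fun u => by rw [one_mul]; exact abs_ll_le u) hk t)
    (int_DK bb_meas (abs_nonneg _) bb_le hk t)]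
  refine integral_congr_ae (ae_of_all _ fun v => ?_)
  simp only [dd]
  push_cast
  ring

lemma dd_lim0 : Tendsto (fun t : ℝ => ((Real.exp (-(t / 2)) : ℝ) : ℂ) * ∫ v : ℝ, (dd (t - v) : ℂ) * kc v) atTop
    (𝓝 0) := by
  have h1 := avg_ll_lim.sub (bb_lim kc_DK)
  have h2 : qh (1 / 2) - kap * ∫ v : ℝ, cexp (-(1 / 2 : ℂ) * v) * kc v = 0 := by
    have h5 : ∫ v : ℝ, cexp (-(1 / 2 : ℂ) * v) * kc v = Kh (1 / 2) := rfl
    rw [h5, kap_eq, sub_self]
  rw [h2] at h1
  refine h1.congr fun t => ?_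
  rw [dd_int kc_DK]
  ring

lemma dd_lim1 {ρ : ℂ} (hre : ρ.re = 1 / 2) (hne : 2 * ρ ≠ 1) (hS : Sg (Ist ρ qc) = Ist ρ kc) (hD : DK (Ist ρ kc)) :
    Tendsto (fun t : ℝ => ((Real.exp (-(t / 2)) : ℝ) : ℂ) * (∫ v : ℝ, (dd (t - v) : ℂ) * Ist ρ kc v) -
      qh ρ * riemannZeta (2 * ρ) / ρ * cexp ((ρ - 1 / 2) * t)) atTop (𝓝 0) := by
  have h1 := (S_lim hre hne).sub (bb_lim hD)
  have h2 : qh (1 / 2) / (1 / 2 - ρ) - kap * ∫ v : ℝ, cexp (-(1 / 2 : ℂ) * v) * Ist ρ kc v = 0 := by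
    rw [Ist_half hre hne hD, ← kap_eq]
    ring
  rw [h2] at h1
  refine h1.congr fun t => ?_
  rw [dd_int hD, hS]
  ring

/-- **Core inequality for the bias-corrected function, zeros on the critical line.** -/
theorem coreA (ρ : ℂ) (hz : riemannZeta ρ = 0) (hre : ρ.re = 1 / 2) :
    ∃ c : ℝ, 0 < c ∧ ∀ᶠ t : ℝ in atTop, ∀ s : ℝ, s = 1 ∨ s = -1 →
      c * Real.exp (t / 2) ≤ ∫ v : ℝ, max (s * dd (t - v)) 0 * kp v := by
  have hp : 0 < ρ.re := by rw [hre]; norm_num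
  have h1' : ρ.re < 1 := by rw [hre]; norm_num
  have hρ : ρ ≠ 0 := by rintro rfl; simp at hp
  have hne : 2 * ρ ≠ 1 := by
    intro h
    have : ρ = 1 / 2 := by linear_combination h / 2
    rw [this] at hz
    exact zeta_half hz
  have hS : Sg (Ist ρ qc) = Ist ρ kc := by
    funext v
    rw [kc_eq]
    exact (Sg_Ist qc_QQ ρ (by linarith) v).symm
  have hD : DK (Ist ρ kc) := Ist_DK kc_DK ρ (by rw [abs_of_pos hp]; linarith) (Kh_zero ρ hz hp h1')
  have hz2 : riemannZeta (2 * ρ) ≠ 0 := riemannZeta_ne_zero_of_one_le_re (by simp [hre])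
  obtain ⟨B, hB, hb⟩ := hD.bd
  set A : ℂ := qh ρ * riemannZeta (2 * ρ) / ρ with hA
  have hA0 : 0 < ‖A‖ := norm_pos_iff.2 (div_ne_zero (mul_ne_zero (qh_ne ρ hp h1') hz2) hρ)
  have hB1 : 0 < B + 1 := by linarith
  refine ⟨‖A‖ / (16 * (B + 1)), by positivity, ?_⟩
  have l1 := (dd_lim1 hre hne hS hD).norm
  rw [norm_zero] at l1
  have l0 := dd_lim0.norm
  rw [norm_zero] at l0
  filter_upwards [l1.eventually (gt_mem_nhds (show 0 < ‖A‖ / 2 by positivity)),
    l0.eventually (gt_mem_nhds (show 0 < ‖A‖ / (8 * (B + 1)) by positivity))] with t g1 g0 s hs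
  have hEt := Real.exp_pos (t / 2)
  have hm := dd_meas
  have i1 : Integrable (fun v => dd (t - v) * kp v) := by
    have := (int_DK dd_meas (by positivity : (0 : ℝ) ≤ 1 + |kap|) dd_le kc_DK t).re
    refine this.congr (ae_of_all _ fun v => ?_)
    simp [kc]
  have i2 : Integrable (fun v => |dd (t - v)| * kp v) := by
    refine i1.abs.congr (ae_of_all _ fun v => ?_)
    simp only
    rw [abs_mul, abs_of_nonneg (kp_nonneg v)]
  have i3 : Integrable (fun v => max (s * dd (t - v)) 0 * kp v) := by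
    refine i2.mono' ?_ (ae_of_all _ fun v => ?_)
    · have := kp_cont
      exact (by fun_prop : Measurable fun v => max (s * dd (t - v)) 0 * kp v).aestronglyMeasurable
    · rw [norm_mul, Real.norm_eq_abs, Real.norm_eq_abs, abs_of_nonneg (kp_nonneg v)]
      exact mul_le_mul_of_nonneg_right (part_le s hs _) (kp_nonneg v)
  have e1 : ∫ v, |dd (t - v)| * kp v = 2 * (∫ v, max (s * dd (t - v)) 0 * kp v) - s * ∫ v, dd (t - v) * kp v := by
    rw [← integral_const_mul, ← integral_const_mul, ← integral_sub (i3.const_mul 2) (i1.const_mul s)]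
    refine integral_congr_ae (ae_of_all _ fun v => ?_)
    simp only
    rw [part_id s hs (dd (t - v))]
    ring
  -- the plain average
  have e2 : |∫ v, dd (t - v) * kp v| ≤ ‖A‖ / (8 * (B + 1)) * Real.exp (t / 2) := by
    have h5 : ∫ v : ℝ, (dd (t - v) : ℂ) * kc v = ((∫ v : ℝ, dd (t - v) * kp v : ℝ) : ℂ) := by
      rw [← integral_complex_ofReal]
      refine integral_congr_ae (ae_of_all _ fun v => ?_)
      simp [kc]
    rw [h5, norm_mul, Complex.norm_real, Complex.norm_real, Real.norm_eq_abs, Real.norm_eq_abs,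
      abs_of_pos (Real.exp_pos _), Real.exp_neg, inv_mul_eq_div, div_lt_iff₀ hEt] at g0
    exact g0.le
  have e3 : |s * ∫ v, dd (t - v) * kp v| ≤ ‖A‖ / (8 * (B + 1)) * Real.exp (t / 2) := by
    rw [abs_mul]
    have : |s| = 1 := by rcases hs with h | h <;> rw [h] <;> simp
    rw [this, one_mul]
    exact e2
  -- the twisted average
  have e4 : ‖A‖ / 2 * Real.exp (t / 2) ≤ ‖∫ v : ℝ, (dd (t - v) : ℂ) * Ist ρ kc v‖ := by
    set J : ℂ := ∫ v : ℝ, (dd (t - v) : ℂ) * Ist ρ kc v with hJ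
    have h5 : ‖A * cexp ((ρ - 1 / 2) * t)‖ = ‖A‖ := by
      rw [norm_mul, norm_tw']
      have h2 : (ρ - 1 / 2).re = 0 := by simp [hre]
      rw [h2, zero_mul, Real.exp_zero, mul_one]
    have h6 : ‖A‖ ≤ ‖((Real.exp (-(t / 2)) : ℝ) : ℂ) * J‖ + ‖((Real.exp (-(t / 2)) : ℝ) : ℂ) * J - A * cexp ((ρ - 1 / 2) * t)‖ := by
      rw [← h5, ← norm_neg (_ * J - _)]
      refine le_trans (le_of_eq ?_) (norm_add_le _ _)
      congr 1
      ring
    have h7 : ‖((Real.exp (-(t / 2)) : ℝ) : ℂ) * J‖ = ‖J‖ / Real.exp (t / 2) := by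
      rw [norm_mul, Complex.norm_real, Real.norm_eq_abs, abs_of_pos (Real.exp_pos _), Real.exp_neg, inv_mul_eq_div]
    have h8 : ‖A‖ / 2 ≤ ‖J‖ / Real.exp (t / 2) := by linarith
    exact (le_div_iff₀ hEt).1 h8
  have e5 : ‖∫ v : ℝ, (dd (t - v) : ℂ) * Ist ρ kc v‖ ≤ (2 * (B + 1)) * ∫ v, |dd (t - v)| * kp v := by
    rw [← integral_const_mul]
    refine norm_integral_le_of_norm_le (i2.const_mul _) (ae_of_all _ fun v => ?_)
    rw [norm_mul, Complex.norm_real, Real.norm_eq_abs]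
    have h5 : ‖Ist ρ kc v‖ ≤ 2 * (B + 1) * kp v := by
      refine (hb v).trans ?_
      have h6 := (kp_bounds v).1
      have h7 := W_pos v
      nlinarith
    calc |dd (t - v)| * ‖Ist ρ kc v‖ ≤ |dd (t - v)| * (2 * (B + 1) * kp v) :=
          mul_le_mul_of_nonneg_left h5 (abs_nonneg _)
      _ = _ := by ring
  have e6 := (abs_le.1 e3).1
  have e7 := e4.trans e5
  rw [e1] at e7
  have e8 : ‖A‖ / (4 * (B + 1)) * Real.exp (t / 2) ≤
      2 * (∫ v, max (s * dd (t - v)) 0 * kp v) - s * ∫ v, dd (t - v) * kp v := by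
    rw [div_mul_eq_mul_div, div_le_iff₀ (by positivity)]
    linarith
  have e9 : ‖A‖ / (4 * (B + 1)) * Real.exp (t / 2) = 4 * (‖A‖ / (16 * (B + 1)) * Real.exp (t / 2)) := by
    field_simp
    ring
  have e10 : ‖A‖ / (8 * (B + 1)) * Real.exp (t / 2) = 2 * (‖A‖ / (16 * (B + 1)) * Real.exp (t / 2)) := by
    field_simp
    ring
  rw [e10] at e6
  rw [e9] at e8
  linarith

end

end Pool.Agent.Q55.Liou
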