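import Pool.Agent.Q55.Liou.U
import Pool.Agent.Q55.Liou.E

/-!
# The bias-corrected function: unconditional core inequality
-/

open Complex MeasureTheory Filter Topology Set Metric

set_option autoImplicit false

namespace Pool.Agent.Q55.Liou

open H313.TK

noncomputable section

lemma part_int {f : ℝ → ℝ} (hf : Measurable f) {K : ℝ} (hK : 0 ≤ K) (hb : ∀ u, |f u| ≤ K * Real.exp u)
    {s : ℝ} (hs : s = 1 ∨ s = -1) (t : ℝ) : Integrable (fun v => max (s * f (t - v)) 0 * kp v) := by
  have i1 : Integrable (fun v => f (t - v) * kp v) := by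
    have := (int_DK hf hK hb kc_DK t).re
    refine this.congr (ae_of_all _ fun v => ?_)
    simp [kc]
  have i2 : Integrable (fun v => |f (t - v)| * kp v) := by
    refine i1.abs.congr (ae_of_all _ fun v => ?_)
    simp only
    rw [abs_mul, abs_of_nonneg (kp_nonneg v)]
  refine i2.mono' ?_ (ae_of_all _ fun v => ?_)
  · have := kp_cont
    exact (by fun_prop : Measurable fun v => max (s * f (t - v)) 0 * kp v).aestronglyMeasurable
  · rw [norm_mul, Real.norm_eq_abs, Real.norm_eq_abs, abs_of_nonneg (kp_nonneg v)]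
    exact mul_le_mul_of_nonneg_right (part_le s hs _) (kp_nonneg v)

/-- from `L` to the bias-corrected function -/
lemma part_cmp {s : ℝ} (hs : s = 1 ∨ s = -1) (t : ℝ) :
    ∫ v : ℝ, max (s * ll (t - v)) 0 * kp v ≤
      (∫ v : ℝ, max (s * dd (t - v)) 0 * kp v) + |kap| * (4 * C0 * D1) * Real.exp (t / 2) := by
  obtain ⟨hmi, hmass⟩ := mass_le (1 / 2) (by norm_num) (by norm_num)
  have i1 := part_int ll_meas zero_le_one (fun u => by rw [one_mul]; exact abs_ll_le u) hs t
  have i2 := part_int dd_meas (by positivity : (0 : ℝ) ≤ 1 + |kap|) dd_le hs t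
  have i3 : Integrable (fun v => |kap| * Real.exp (t / 2) * (Real.exp (-(1 / 2 * v)) * kp v)) := hmi.const_mul _
  have h1 : ∫ v : ℝ, max (s * ll (t - v)) 0 * kp v ≤
      ∫ v : ℝ, (max (s * dd (t - v)) 0 * kp v + |kap| * Real.exp (t / 2) * (Real.exp (-(1 / 2 * v)) * kp v)) := by
    refine integral_mono i1 (i2.add i3) fun v => ?_
    simp only
    have h2 : max (s * ll (t - v)) 0 ≤ max (s * dd (t - v)) 0 + |kap| * (Real.exp (t / 2) * Real.exp (-(1 / 2 * v))) := by
      have h3 := bb_le2 (t - v)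
      have h4 : Real.exp ((t - v) / 2) = Real.exp (t / 2) * Real.exp (-(1 / 2 * v)) := by
        rw [← Real.exp_add]; congr 1; ring
      rw [h4] at h3
      have h5 : s * ll (t - v) = s * dd (t - v) + s * bb (t - v) := by unfold dd; ring
      have h6 : s * bb (t - v) ≤ |bb (t - v)| := by
        refine (le_abs_self _).trans (le_of_eq ?_)
        rw [abs_mul]
        rcases hs with h | h <;> rw [h] <;> simp
      refine max_le ?_ ?_
      · rw [h5]
        have := le_max_left (s * dd (t - v)) 0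
        linarith
      · have := le_max_right (s * dd (t - v)) 0
        have h7 : 0 ≤ |bb (t - v)| := abs_nonneg _
        linarith
    calc max (s * ll (t - v)) 0 * kp v ≤
          (max (s * dd (t - v)) 0 + |kap| * (Real.exp (t / 2) * Real.exp (-(1 / 2 * v)))) * kp v :=
          mul_le_mul_of_nonneg_right h2 (kp_nonneg v)
      _ = _ := by ring
  rw [integral_add i2 i3, integral_const_mul] at h1
  refine h1.trans ?_
  have h2 : |kap| * Real.exp (t / 2) * ∫ v, Real.exp (-(1 / 2 * v)) * kp v ≤ |kap| * Real.exp (t / 2) * (4 * C0 * D1) :=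
    mul_le_mul_of_nonneg_left hmass (by positivity)
  linarith

/-- **Core inequality for the bias-corrected function.** -/
theorem coreD : ∃ c : ℝ, 0 < c ∧ ∀ᶠ t : ℝ in atTop, ∀ s : ℝ, s = 1 ∨ s = -1 →
      c * Real.exp (t / 2) ≤ ∫ v : ℝ, max (s * dd (t - v)) 0 * kp v := by
  obtain ⟨ρ, hz, h0, h1⟩ := exists_zero
  rcases h0.eq_or_lt with h | h
  · exact coreA ρ hz h.symm
  · obtain ⟨c, hc, hev⟩ := core1 ρ hz h h1
    refine ⟨1, one_pos, ?_⟩
    have hb : 0 < ρ.re - 1 / 2 := by linarith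
    have h3 : Tendsto (fun t : ℝ => Real.exp ((ρ.re - 1 / 2) * t)) atTop atTop :=
      Real.tendsto_exp_atTop.comp (Tendsto.const_mul_atTop hb tendsto_id)
    filter_upwards [hev, h3.eventually_ge_atTop ((1 + |kap| * (4 * C0 * D1)) / c)] with t ht1 ht2 s hs
    have h4 := (ht1 s hs).trans (part_cmp hs t)
    rw [div_le_iff₀ hc] at ht2
    have e : Real.exp (ρ.re * t) = Real.exp ((ρ.re - 1 / 2) * t) * Real.exp (t / 2) := by
      rw [← Real.exp_add]; congr 1; ring
    simp only [one_mul] at h4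
    rw [e] at h4
    have h5 := mul_le_mul_of_nonneg_right ht2 (Real.exp_pos (t / 2)).le
    rw [one_mul]
    linarith

/-- the normalised bias-corrected function -/
def ff (u : ℝ) : ℝ := dd u / (1 + |kap|)

lemma kap_pos : 0 < 1 + |kap| := by positivity

lemma ff_meas : Measurable ff := dd_meas.div_const _

lemma abs_ff_le (u : ℝ) : |ff u| ≤ Real.exp u := by
  unfold ff
  rw [abs_div, abs_of_pos kap_pos, div_le_iff₀ kap_pos, mul_comm]
  exact dd_le u

lemma max_ff (s u : ℝ) : max (s * ff u) 0 = max (s * dd u) 0 / (1 + |kap|) := by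
  unfold ff
  rw [← mul_div_assoc, ← zero_div (1 + |kap|), max_div_div_right kap_pos.le, zero_div]

theorem coreF : ∃ c : ℝ, 0 < c ∧ ∀ᶠ t : ℝ in atTop, ∀ s : ℝ, s = 1 ∨ s = -1 →
      c * ((fun _ : ℝ => (1 : ℝ)) t * Real.exp (1 / 2 * t)) ≤ ∫ v : ℝ, max (s * ff (t - v)) 0 * kp v := by
  obtain ⟨c, hc, hev⟩ := coreD
  refine ⟨c / (1 + |kap|), div_pos hc kap_pos, ?_⟩
  filter_upwards [hev] with t ht s hs
  have h1 := ht s hs
  have h2 : ∫ v : ℝ, max (s * ff (t - v)) 0 * kp v = (∫ v : ℝ, max (s * dd (t - v)) 0 * kp v) / (1 + |kap|) := by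
    rw [← integral_div]
    refine integral_congr_ae (ae_of_all _ fun v => ?_)
    simp only
    rw [max_ff]
    ring
  rw [h2, le_div_iff₀ kap_pos]
  refine le_trans (le_of_eq ?_) h1
  simp only [one_mul]
  rw [div_mul_eq_mul_div, div_mul_cancel₀ _ kap_pos.ne']
  congr 2
  ring

end

end Pool.Agent.Q55.Liou
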