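import Pool.Agent.Q55.Liou.X

/-!
# The bias-corrected function: unconditional lower bounds
-/

open Complex MeasureTheory Filter Topology Set Metric

set_option autoImplicit false

namespace Pool.Agent.Q55.Liou.Dd

open H313.TK
open Pool.Agent.Q55.MertensL1 (ka ka_nonneg ka_le ka_cont ka_bd sep_sum ct_sep range_ok ct_nonneg)

noncomputable section

/-- the bias-corrected function in the original variable -/
def DD (y : ℝ) : ℝ := LL y - y ^ (1 / 2 : ℝ) / (riemannZeta (1 / 2)).re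

lemma DD_exp {u : ℝ} (hu : 0 ≤ u) : DD (Real.exp u) = dd u := by
  unfold DD dd bb ll kap
  rw [if_pos hu, ← Real.exp_mul, div_eq_mul_inv, mul_comm (Real.exp _)]
  congr 3
  ring

lemma DD_ff {u : ℝ} (hu : 0 ≤ u) : DD (Real.exp u) = (1 + |kap|) * ff u := by
  rw [DD_exp hu]
  unfold ff
  rw [mul_div_cancel₀ _ kap_pos.ne']

lemma substD {s a b : ℝ} (ha : 1 ≤ a) (hab : a ≤ b) :
    ∫ u in a..b, max (s * DD u) 0 / u ^ (3 / 2 : ℝ) =
      (1 + |kap|) * ∫ u in Icc (Real.log a) (Real.log b), Fe s u := by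
  have ha0 : 0 < a := by linarith
  have hb0 : 0 < b := by linarith
  have hl := Real.log_nonneg ha
  have himg : Real.exp '' Icc (Real.log a) (Real.log b) = Icc a b := by
    ext y
    constructor
    · rintro ⟨u, hu, rfl⟩
      exact ⟨(Real.log_le_iff_le_exp ha0).1 hu.1, (Real.le_log_iff_exp_le hb0).1 hu.2⟩
    · intro hy
      have hy0 : 0 < y := ha0.trans_le hy.1
      exact ⟨Real.log y, ⟨Real.log_le_log ha0 hy.1, Real.log_le_log hy0 hy.2⟩, Real.exp_log hy0⟩
  have key := integral_image_eq_integral_abs_deriv_smul (s := Icc (Real.log a) (Real.log b))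
    measurableSet_Icc (f := Real.exp) (f' := Real.exp)
    (fun x _ => (Real.hasDerivAt_exp x).hasDerivWithinAt)
    Real.exp_injective.injOn (fun y => max (s * DD y) 0 / y ^ (3 / 2 : ℝ))
  rw [himg] at key
  rw [intervalIntegral.integral_of_le hab, ← integral_Icc_eq_integral_Ioc, key, ← integral_const_mul]
  refine setIntegral_congr_fun measurableSet_Icc fun u hu => ?_
  have hu0 : 0 ≤ u := hl.trans hu.1
  simp only [smul_eq_mul, abs_of_pos (Real.exp_pos u)]
  unfold Fe F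
  rw [DD_ff hu0, ← Real.exp_mul, div_eq_mul_inv, ← Real.exp_neg]
  have e2 : Real.exp (-(u / 2)) = Real.exp u * Real.exp (-(u * (3 / 2))) := by
    rw [← Real.exp_add]
    congr 1
    ring
  have e3 : max (s * ((1 + |kap|) * ff u)) 0 = (1 + |kap|) * max (s * ff u) 0 := by
    rw [mul_max_of_nonneg _ _ kap_pos.le, mul_zero]
    congr 1
    ring
  rw [e2, e3]
  ring

/-- windows, sup version -/
theorem supD : ∃ c : ℝ, 0 < c ∧ ∀ᶠ x : ℝ in atTop, ∀ s : ℝ, s = 1 ∨ s = -1 →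
    ∃ y ∈ Icc x (x * Real.log x), c * y ^ (1 / 2 : ℝ) ≤ s * DD y := by
  obtain ⟨c, hc, hev⟩ := win_sup (1 / 2) le_rfl (by norm_num) (fun _ => 1) (Eventually.of_forall fun _ => le_rfl) coreF
  refine ⟨(1 + |kap|) * c, mul_pos kap_pos hc, ?_⟩
  filter_upwards [Real.tendsto_log_atTop.eventually hev, eventually_ge_atTop (Real.exp 1)] with x hx hx1 s hs
  have hx0 : 0 < x := (Real.exp_pos 1).trans_le hx1
  have hl1 : 1 ≤ Real.log x := by rwa [Real.le_log_iff_exp_le hx0]
  obtain ⟨u, hu, hu2⟩ := hx s hs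
  have hu0 : 0 ≤ u := by linarith [hu.1]
  refine ⟨Real.exp u, ⟨?_, ?_⟩, ?_⟩
  · rw [← Real.log_le_iff_le_exp hx0]; exact hu.1
  · have h2 : Real.log (x * Real.log x) = Real.log x + Real.log (Real.log x) :=
      Real.log_mul hx0.ne' (by linarith)
    rw [← Real.le_log_iff_exp_le (by positivity), h2]
    exact hu.2
  · rw [DD_ff hu0, ← Real.exp_mul, mul_comm u]
    have h3 := mul_le_mul_of_nonneg_left hu2 kap_pos.le
    simp only [one_mul] at h3
    linarith

/-- windows, mean version in the logarithmic variable -/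
theorem winL1 : ∃ c : ℝ, 0 < c ∧ ∀ᶠ l : ℝ in atTop, ∀ s : ℝ, s = 1 ∨ s = -1 →
    c ≤ ∫ u in Icc l (l + Real.log l), Fe s u := by
  obtain ⟨c, hc, hev⟩ := win (1 / 2) le_rfl (fun _ => 1) (Eventually.of_forall fun _ => le_rfl) coreF
  have hC0 := C0_nonneg
  refine ⟨c / (4 * C0 + 1), by positivity, ?_⟩
  filter_upwards [hev] with l h1 s hs
  have h2 := mul_le_mul_of_nonneg_right (h1 s hs) (Real.exp_pos (-(ct l / 2))).le
  rw [window] at h2
  have e1 : c * (1 * Real.exp (1 / 2 * ct l)) * Real.exp (-(ct l / 2)) = c := by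
    rw [one_mul, mul_assoc, ← Real.exp_add]
    have : 1 / 2 * ct l + -(ct l / 2) = 0 := by ring
    rw [this, Real.exp_zero, mul_one]
  rw [e1] at h2
  have e2 : ct l - Real.log l / 2 = l := by unfold ct; ring
  have e3 : ct l + Real.log l / 2 = l + Real.log l := by unfold ct; ring
  rw [e2, e3] at h2
  have h3 : ∫ u in Icc l (l + Real.log l), Fe s u * ka (ct l - u) ≤
      ∫ u in Icc l (l + Real.log l), 4 * C0 * Fe s u := by
    refine setIntegral_mono_on (Feka_int hs _ _ _) ((Fe_int hs _ _).const_mul _) measurableSet_Icc fun u _ => ?_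
    rw [mul_comm]
    exact mul_le_mul_of_nonneg_right (ka_bd _) (Fe_nonneg s u)
  rw [integral_const_mul] at h3
  have hI : 0 ≤ ∫ u in Icc l (l + Real.log l), Fe s u := integral_nonneg fun u => Fe_nonneg s u
  rw [div_le_iff₀ (by positivity)]
  linarith

/-- windows, mean version -/
theorem winMean : ∃ c : ℝ, 0 < c ∧ ∀ᶠ x : ℝ in atTop, ∀ s : ℝ, s = 1 ∨ s = -1 →
    c ≤ ∫ u in x..(x * Real.log x), max (s * DD u) 0 / u ^ (3 / 2 : ℝ) := by
  obtain ⟨c, hc, hev⟩ := winL1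
  refine ⟨(1 + |kap|) * c, mul_pos kap_pos hc, ?_⟩
  filter_upwards [Real.tendsto_log_atTop.eventually hev, eventually_ge_atTop (Real.exp 1)] with x hx hx1 s hs
  have hx0 : 0 < x := (Real.exp_pos 1).trans_le hx1
  have hl1 : 1 ≤ Real.log x := by rwa [Real.le_log_iff_exp_le hx0]
  have hx2 : 1 ≤ x := (Real.one_le_exp zero_le_one).trans hx1
  rw [substD hx2 (le_mul_of_one_le_right hx0.le hl1), Real.log_mul hx0.ne' (by linarith)]
  exact mul_le_mul_of_nonneg_left (hx s hs) kap_pos.le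

/-- long means in the logarithmic variable -/
theorem longL1 {δ : ℝ} (hδ : 0 < δ) (hδ2 : δ ≤ 1 / 2) : ∃ c : ℝ, 0 < c ∧ ∀ᶠ V : ℝ in atTop, ∀ s : ℝ, s = 1 ∨ s = -1 →
    c * V ≤ ∫ u in Icc ((1 - δ) * V) V, Fe s u := by
  obtain ⟨c, hc, h⟩ := lower_win (1 / 2) le_rfl (fun _ => 1) (Eventually.of_forall fun _ => le_rfl) coreF hδ hδ2
  refine ⟨c * (δ / 2), by positivity, ?_⟩
  filter_upwards [h, range_ok hδ hδ2 1] with V hV hr s hs
  obtain ⟨h1, h2, h3, h4, h5, h6⟩ := hr
  refine le_trans ?_ (hV s hs)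
  rw [mul_assoc]
  refine mul_le_mul_of_nonneg_left (h5.trans ?_) hc.le
  rw [Finset.card_eq_sum_ones, Nat.cast_sum]
  refine Finset.sum_le_sum fun j hj => ?_
  rw [sub_self, zero_mul, Real.exp_zero, one_mul, Nat.cast_one]

/-- long means -/
theorem longMean {δ : ℝ} (hδ : 0 < δ) (hδ1 : δ ≤ 1) : ∃ c : ℝ, 0 < c ∧ ∀ᶠ x : ℝ in atTop, ∀ s : ℝ, s = 1 ∨ s = -1 →
    c * Real.log x ≤ ∫ u in (x ^ (1 - δ))..x, max (s * DD u) 0 / u ^ (3 / 2 : ℝ) := by
  have h2 : 0 < min δ (1 / 2) := lt_min hδ (by norm_num)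
  obtain ⟨c, hc, hev⟩ := longL1 h2 (min_le_right _ _)
  refine ⟨(1 + |kap|) * c, mul_pos kap_pos hc, ?_⟩
  filter_upwards [Real.tendsto_log_atTop.eventually hev, eventually_ge_atTop (1 : ℝ)] with x hx hx1 s hs
  have hx0 : 0 < x := by linarith
  have hle : x ^ (1 - δ) ≤ x := by
    conv_rhs => rw [← Real.rpow_one x]
    exact Real.rpow_le_rpow_of_exponent_le hx1 (by linarith)
  have hge : 1 ≤ x ^ (1 - δ) := Real.one_le_rpow hx1 (by linarith)
  rw [substD hge hle, Real.log_rpow hx0, mul_assoc]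
  refine mul_le_mul_of_nonneg_left ((hx s hs).trans ?_) kap_pos.le
  refine setIntegral_mono_set (Fe_int hs _ _) (ae_of_all _ fun u => Fe_nonneg s u) ?_
  refine LE.le.eventuallyLE ?_
  intro u hu
  have h3 := Real.log_nonneg hx1
  have h4 := min_le_left δ (1 / 2)
  exact ⟨le_trans (by nlinarith) hu.1, hu.2⟩

end

end Pool.Agent.Q55.Liou.Dd
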