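import Pool.Agent.Q55.Liou.Y

/-!
# The sign of `ζ(1/2)`
-/

open Complex MeasureTheory Filter Topology Set Metric

set_option autoImplicit false

namespace Pool.Agent.Q55.Liou

open H313.TK

noncomputable section

lemma mass_pos : 0 < ∫ v : ℝ, Real.exp (-(1 / 2 * v)) * kp v := by
  obtain ⟨hi, -⟩ := mass_le (1 / 2) (by norm_num) (by norm_num)
  have hpos : ∀ v : ℝ, 0 < Real.exp (-(1 / 2 * v)) * kp v := fun v => by
    have := (kp_bounds v).1
    have := W_pos v
    have h3 : 0 < kp v := by linarith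
    positivity
  rw [integral_pos_iff_support_of_nonneg (fun v => (hpos v).le) hi]
  have : Function.support (fun v : ℝ => Real.exp (-(1 / 2 * v)) * kp v) = univ := by
    ext v
    simp only [Function.mem_support, mem_univ, iff_true]
    exact (hpos v).ne'
  rw [this]
  simp

lemma qh_neg : ∃ r : ℝ, r < 0 ∧ qh (1 / 2) = (r : ℂ) := by
  have hp := Real.pi_pos
  set z : ℝ := Real.pi ^ (-(1 / 4) : ℝ) with hz
  have hz0 : 0 < z := Real.rpow_pos_of_pos hp _
  refine ⟨1 / 2 * Real.Gamma (1 / 4) * ((Real.pi / 4) ^ (-(1 / 4) : ℝ) - 3 * Real.pi ^ (-(1 / 4) : ℝ) +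
    2 * (4 * Real.pi) ^ (-(1 / 4) : ℝ)), ?_, ?_⟩
  · have h4 : (4 : ℝ) ^ (1 / 4 : ℝ) = Real.sqrt 2 := by
      rw [show (4 : ℝ) = 2 ^ (2 : ℝ) by norm_num, ← Real.rpow_mul (by norm_num), Real.sqrt_eq_rpow]
      norm_num
    have e1 : (Real.pi / 4) ^ (-(1 / 4) : ℝ) = Real.sqrt 2 * z := by
      rw [Real.div_rpow hp.le (by norm_num), Real.rpow_neg (by norm_num : (0 : ℝ) ≤ 4), h4, div_inv_eq_mul, mul_comm]
    have e2 : (4 * Real.pi) ^ (-(1 / 4) : ℝ) = (Real.sqrt 2)⁻¹ * z := by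
      rw [Real.mul_rpow (by norm_num) hp.le, Real.rpow_neg (by norm_num : (0 : ℝ) ≤ 4), h4]
    have h5 : Real.sqrt 2 * Real.sqrt 2 = 2 := Real.mul_self_sqrt (by norm_num)
    have h6 : 0 < Real.sqrt 2 := Real.sqrt_pos.2 (by norm_num)
    have h7 : (Real.sqrt 2)⁻¹ = Real.sqrt 2 / 2 := by
      field_simp
      rw [sq]
      linarith
    have h8 : Real.sqrt 2 < 1.5 := by
      rw [Real.sqrt_lt' (by norm_num)]
      norm_num
    rw [e1, e2, h7]
    have h9 : Real.sqrt 2 * z - 3 * z + 2 * (Real.sqrt 2 / 2 * z) = (2 * Real.sqrt 2 - 3) * z := by ring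
    have hG : 0 < Real.Gamma (1 / 4) := Real.Gamma_pos_of_pos (by norm_num)
    have e3 : (Real.pi : ℝ) ^ (-(1 / 4) : ℝ) = z := rfl
    rw [e3, h9]
    have h10 : (2 * Real.sqrt 2 - 3) * z < 0 := mul_neg_of_neg_of_pos (by linarith) hz0
    exact mul_neg_of_pos_of_neg (by positivity) h10
  · rw [qh_formula (1 / 2) (by norm_num)]
    have e1 : (1 / 2 : ℂ) / 2 = ((1 / 4 : ℝ) : ℂ) := by push_cast; norm_num
    have e2 : -((1 / 4 : ℝ) : ℂ) = ((-(1 / 4) : ℝ) : ℂ) := by push_cast; ring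
    rw [e1, Complex.Gamma_ofReal, e2, ← Complex.ofReal_cpow (by positivity), ← Complex.ofReal_cpow hp.le,
      ← Complex.ofReal_cpow (by positivity)]
    push_cast
    ring

theorem zeta_half_neg : (riemannZeta (1 / 2)).re < 0 := by
  have h3 := Kh_eq (1 / 2) (by norm_num) (by norm_num) (by norm_num)
  obtain ⟨r, hr, hq⟩ := qh_neg
  rw [Kh_half, hq, zeta_half_real] at h3
  have h4 : (∫ v : ℝ, Real.exp (-(1 / 2 * v)) * kp v) = (riemannZeta (1 / 2)).re * r := by exact_mod_cast h3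
  have h5 := mass_pos
  rw [h4] at h5
  by_contra h
  push Not at h
  nlinarith [mul_nonneg h (neg_nonneg.2 hr.le)]

theorem zeta_half_im : (riemannZeta (1 / 2)).im = 0 := by
  rw [zeta_half_real, Complex.ofReal_im]

end

end Pool.Agent.Q55.Liou
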